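import Pool.Agent.Helper791Seq.Defs

set_option autoImplicit false

namespace Pool.Agent.Helper791.Seq

open Finset Classical

variable (p : Par)

namespace Par

theorem k1_le_K : p.k1 ≤ p.K := p.k1_le _ p.K_mem
theorem K_pos : 1 ≤ p.K := le_trans p.k1_pos p.k1_le_K
theorem H0_eq : p.H0 = 4 * p.m + 4 := rfl
theorem H_eq : p.H = p.H0 + 2 * (p.K - p.k1) := rfl

theorem H_le : p.H ≤ 5 * p.m + 4 := by
  have := p.hm; have := p.H_eq; have := p.H0_eq; omega

theorem D_big : 100 * (p.m * p.m) + 200 * p.m + 100 ≤ p.D := by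
  have := p.hD; nlinarith [this]

theorem size1 : 8 * (2 * p.K * (2 * p.H + 2) + 4 * p.K + 4) ≤ p.D := by
  have h1 := p.D_big
  have h2 := p.H_le
  have h3 := p.hm
  have h4 : 2 * p.K ≤ p.m := by omega
  have h5 : 2 * p.K * (2 * p.H + 2) ≤ p.m * (2 * p.H + 2) := Nat.mul_le_mul_right _ h4
  have h6 : p.m * (2 * p.H + 2) ≤ p.m * (10 * p.m + 10) := Nat.mul_le_mul_left _ (by omega)
  have h7 : p.m * (10 * p.m + 10) = 10 * (p.m * p.m) + 10 * p.m := by ring
  omega

theorem size2 : 16 * p.K + 16 * p.m + 32 ≤ p.D := by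
  have h1 := p.D_big
  have h3 := p.hm
  nlinarith [h1, h3, Nat.zero_le (p.m * p.m)]

theorem D_pos : 1 ≤ p.D := by have := p.size2; omega

theorem kap_le {n : ℕ} (hn : n < p.K - p.k1) : p.kap n ≤ 2 * p.K := by
  have := p.le_K _ (p.nxt_mem (p.k1 + n) (by omega) (by omega))
  unfold kap; omega

theorem kap_ge {n : ℕ} (hn : n < p.K - p.k1) : 2 ≤ p.kap n := by
  have := p.lt_nxt (p.k1 + n) (by omega) (by omega)
  have := p.k1_pos
  unfold kap; omega

theorem G_ge (l : ℕ) : p.D ≤ p.G l := by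
  unfold G; split_ifs <;> omega

theorem G_le {l : ℕ} (hl : l < p.H) : p.G l ≤ p.D + 2 * p.K := by
  have h1 := p.K_pos
  unfold G
  split_ifs with h h'
  · omega
  · omega
  · have := p.kap_le (n := (l - p.H0) / 2) (by have := p.H_eq; omega)
    omega

theorem g_ge (l : ℕ) : p.D ≤ p.g l := by
  unfold g; split_ifs
  · exact p.G_ge _
  · exact p.G_ge _
  · omega

theorem g_le (l : ℕ) : p.g l ≤ p.D + 2 * p.K := by
  have h1 := p.K_pos
  unfold g; split_ifs
  · exact p.G_le (by assumption)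
  · exact p.G_le (by omega)
  · omega

theorem g_pal {l : ℕ} (hl : l < 2 * p.H) : p.g (2 * p.H - 1 - l) = p.g l := by
  unfold g
  by_cases h : l < p.H
  · rw [if_pos h, if_neg (by omega), if_pos (by omega)]
    congr 1; omega
  · rw [if_neg h, if_pos hl, if_pos (by omega)]

theorem r_zero : p.r 0 = p.D := rfl
theorem r_succ (l : ℕ) : p.r (l + 1) = p.r l + p.g l := rfl

theorem r_strictMono : StrictMono p.r := by
  apply strictMono_nat_of_lt_succ
  intro l
  have := p.g_ge l; have := p.D_pos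
  rw [r_succ]; omega

theorem r_lt {a b : ℕ} (h : a < b) : p.r a < p.r b := p.r_strictMono h
theorem r_le {a b : ℕ} (h : a ≤ b) : p.r a ≤ p.r b := p.r_strictMono.monotone h
theorem r_inj {a b : ℕ} (h : p.r a = p.r b) : a = b := p.r_strictMono.injective h

theorem D_le_r (l : ℕ) : p.D ≤ p.r l := by
  have := p.r_le (Nat.zero_le l); rw [r_zero] at this; exact this

/-- spacing -/
theorem r_add_D_le {a b : ℕ} (h : a < b) : p.r a + p.D ≤ p.r b := by
  have h1 := p.r_le (show a + 1 ≤ b from h)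
  have h2 := p.g_ge a
  rw [r_succ] at h1; omega

theorem r_lower (l : ℕ) : (l + 1) * p.D ≤ p.r l := by
  induction l with
  | zero => rw [r_zero]; omega
  | succ l ih =>
    rw [r_succ]; have := p.g_ge l
    have e : (l + 1 + 1) * p.D = (l + 1) * p.D + p.D := by ring
    omega

theorem r_upper (l : ℕ) : p.r l ≤ (l + 1) * p.D + 2 * p.K * l := by
  induction l with
  | zero => rw [r_zero]; omega
  | succ l ih =>
    rw [r_succ]; have := p.g_le l
    have e : (l + 1 + 1) * p.D = (l + 1) * p.D + p.D := by ring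
    have e2 : 2 * p.K * (l + 1) = 2 * p.K * l + 2 * p.K := by ring
    omega

theorem H0_le_H : p.H0 ≤ p.H := by have := p.H_eq; omega
theorem H0_pos : 4 ≤ p.H0 := by have := p.H0_eq; omega
theorem H_pos : 4 ≤ p.H := le_trans p.H0_pos p.H0_le_H

theorem g_last : p.g (2 * p.H) = p.D + 1 := by
  unfold g; rw [if_neg (by have := p.H_pos; omega), if_neg (by omega)]

theorem x0_eq : p.x0 = p.r (2 * p.H) + p.D + 1 := by
  unfold x0; rw [r_succ, g_last]; omega

/-- symmetry of the sequence -/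
theorem r_sym {l : ℕ} (hl : l ≤ 2 * p.H) : p.r l + p.r (2 * p.H - l) + 1 = p.x0 := by
  induction l with
  | zero => rw [x0_eq, r_zero]; simp; omega
  | succ l ih =>
    have ih := ih (by omega)
    have e1 : p.r (l + 1) = p.r l + p.g l := p.r_succ l
    have e2 : p.r (2 * p.H - l) = p.r (2 * p.H - (l + 1)) + p.g (2 * p.H - (l + 1)) := by
      rw [← r_succ]; congr 1; omega
    have e3 : p.g (2 * p.H - (l + 1)) = p.g l := by
      have := p.g_pal (l := l) (by omega)
      rw [← this]; congr 1; omega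
    omega

theorem g_lt_H0 {l : ℕ} (h : l < p.H0) : p.g l = p.D + (l / 2) % 2 := by
  unfold g G; rw [if_pos (lt_of_lt_of_le h p.H0_le_H), if_pos h]

theorem g0 : p.g 0 = p.D := by rw [g_lt_H0 p (by have := p.H0_pos; omega)]; simp
theorem g1 : p.g 1 = p.D := by rw [g_lt_H0 p (by have := p.H0_pos; omega)]; simp
theorem g2 : p.g 2 = p.D + 1 := by rw [g_lt_H0 p (by have := p.H0_pos; omega)]
theorem g3 : p.g 3 = p.D + 1 := by rw [g_lt_H0 p (by have := p.H0_pos; omega)]

theorem g_even {n : ℕ} (hn : n < p.K - p.k1) : p.g (p.H0 + 2 * n) = p.D := by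
  unfold g G
  rw [if_pos (by have := p.H_eq; omega), if_neg (by omega), if_pos (by omega)]

theorem g_odd {n : ℕ} (hn : n < p.K - p.k1) : p.g (p.H0 + 2 * n + 1) = p.D + p.kap n := by
  unfold g G
  rw [if_pos (by have := p.H_eq; omega), if_neg (by omega), if_neg (by omega)]
  congr 2; omega

/-- the sum of the two hubs -/
theorem hub_sum {n : ℕ} (hn : n < p.K - p.k1) : p.ah n + p.bh n + 1 = p.top + p.kap n := by
  have hH := p.H_eq
  unfold ah bh top
  have h1 := p.r_sym (l := p.H0 + 2 * n) (by omega)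
  have e0 : 2 * p.H - (p.H0 + 2 * n) = 2 * p.H - p.H0 - 2 * n := by omega
  rw [e0] at h1
  have e1 : p.r (p.H0 + 2 * n + 1) = p.r (p.H0 + 2 * n) + p.g (p.H0 + 2 * n) := p.r_succ _
  have e2 : p.r (p.H0 + 2 * n + 2) = p.r (p.H0 + 2 * n + 1) + p.g (p.H0 + 2 * n + 1) := p.r_succ _
  have := p.g_even hn; have := p.g_odd hn
  omega

theorem lev_eq {l w : ℕ} (hl : l ≤ 2 * p.H) (h1 : p.r l ≤ w) (h2 : w < p.r (l + 1)) :
    p.lev w = l := by
  unfold lev
  rw [Nat.findGreatest_eq_iff]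
  refine ⟨hl, fun _ => h1, ?_⟩
  intro n hn _ h3
  have := p.r_le (show l + 1 ≤ n from hn)
  omega

theorem K_lt_D : p.K < p.D := by have := p.size2; omega

theorem exists_lev {w : ℕ} (h : p.isE w) (hD : p.D ≤ w) :
    ∃ l, l ≤ 2 * p.H ∧ p.r l < w ∧ w < p.r (l + 1) := by
  obtain ⟨h1, h2, h3⟩ := h
  have ex : ∃ l, w < p.r (l + 1) := ⟨2 * p.H, h2⟩
  have hs := Nat.find_spec ex
  have hle : Nat.find ex ≤ 2 * p.H := Nat.find_min' ex h2
  refine ⟨Nat.find ex, hle, ?_, hs⟩
  have hge : p.r (Nat.find ex) ≤ w := by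
    rcases Nat.eq_zero_or_pos (Nat.find ex) with h0 | h0
    · rw [h0, r_zero]; exact hD
    · have := Nat.find_min ex (m := Nat.find ex - 1) (by omega)
      rw [show Nat.find ex - 1 + 1 = Nat.find ex by omega] at this
      omega
  exact lt_of_le_of_ne hge (fun e => h3 _ hle e.symm)

theorem r_lt_x0 {j : ℕ} (hj : j ≤ 2 * p.H) : p.r j < p.x0 := p.r_lt (by omega)

theorem x0_lt_top : p.x0 < p.top := by unfold top; have := p.D_pos; omega

theorem bulk_ge_D {v : ℕ} (h : p.bulk v) : p.D ≤ v := by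
  rcases h with ⟨j, _, rfl⟩ | h
  · exact p.D_le_r j
  · have := p.D_le_r (2 * p.H + 1); unfold x0 at h; omega

theorem bulk_lt_top {v : ℕ} (h : p.bulk v) : v < p.top := by
  rcases h with ⟨j, hj, rfl⟩ | h
  · have := p.r_lt_x0 hj; have := p.x0_lt_top; omega
  · exact h.2

theorem isV_lt_top {v : ℕ} (h : p.isV v) : v < p.top := by
  rcases h with h | h
  · have := p.K_lt_D; have := p.D_le_r (2 * p.H + 1); have := p.x0_lt_top; unfold x0 at *; omega
  · exact p.bulk_lt_top h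

theorem isV_ge_k1 {v : ℕ} (h : p.isV v) : p.k1 ≤ v := by
  rcases h with h | h
  · exact h.1
  · have := p.bulk_ge_D h; have := p.k1_le_K; have := p.K_lt_D; omega

theorem isE_not_isV {w : ℕ} (h : p.isE w) : ¬ p.isV w := by
  obtain ⟨h1, h2, h3⟩ := h
  rintro (h | ⟨j, hj, h⟩ | h)
  · omega
  · exact h3 j hj h
  · omega

theorem isV_or_isE {v : ℕ} (h1 : p.k1 ≤ v) (h2 : v < p.top) : p.isV v ∨ p.isE v := by
  by_cases h : p.isV v
  · exact Or.inl h
  · right
    unfold isV bulk at h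
    push Not at h
    refine ⟨by by_contra h'; exact absurd (h.1 h1) (by omega), ?_, fun j hj => h.2.1 j hj⟩
    by_contra h'
    have := h.2.2 (by omega)
    omega

theorem isE_pos {w : ℕ} (h : p.isE w) : 1 ≤ w := le_trans p.K_pos h.1

theorem isE_lt_top {w : ℕ} (h : p.isE w) : w < p.top := lt_trans h.2.1 p.x0_lt_top

/-- general information on holes -/
theorem hole_info {z w : ℕ} (h : p.holeAt z w) :
    ∃ l, p.H0 ≤ l ∧ l + p.H0 < 2 * p.H ∧ w + z = p.r (l + 1) := by
  obtain ⟨h1, h2, h3⟩ := h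
  have hH := p.H_eq
  have hp := p.prv_le z h1 h2
  have hp2 := p.k1_le _ (p.prv_mem z h1 h2)
  rcases h3 with h3 | h3
  · refine ⟨p.H0 + 2 * (p.prv z - p.k1) + 1, by omega, by omega, ?_⟩
    rw [h3]; rfl
  · refine ⟨2 * p.H - p.H0 - 2 * (p.prv z - p.k1) - 1, by omega, by omega, ?_⟩
    rw [h3]; unfold bh; congr 1; omega

theorem hole_unique {z z' w : ℕ} (h : p.holeAt z w) (h' : p.holeAt z' w) : z = z' := by
  obtain ⟨l, _, _, e⟩ := p.hole_info h
  obtain ⟨l', _, _, e'⟩ := p.hole_info h'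
  have hz := h.2.1; have hz' := h'.2.1
  have hK := p.K_lt_D
  rcases lt_trichotomy l l' with hl | hl | hl
  · have := p.r_add_D_le (show l + 1 < l' + 1 by omega); omega
  · subst hl; omega
  · have := p.r_add_D_le (show l' + 1 < l + 1 by omega); omega

theorem hole_lev {w l : ℕ} (h : p.isHole w) (h1 : p.r l ≤ w) (h2 : w < p.r (l + 1)) :
    p.H0 ≤ l ∧ l + p.H0 < 2 * p.H ∧ p.r (l + 1) < w + p.K := by
  obtain ⟨z, hz⟩ := h
  obtain ⟨l', a, b, e⟩ := p.hole_info hz
  have hz' := hz.2.1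
  have hz1 := hz.1
  have := p.k1_pos
  have hK := p.K_lt_D
  have : l = l' := by
    rcases lt_trichotomy l l' with hl | hl | hl
    · have := p.r_add_D_le (show l + 1 < l' + 1 by omega); omega
    · exact hl
    · have := p.r_le (show l' + 1 ≤ l by omega); omega
  subst this
  omega

/-- holes are edge labels -/
theorem hole_isE {w : ℕ} (h : p.isHole w) : p.isE w := by
  obtain ⟨z, hz⟩ := h
  obtain ⟨l, a, b, e⟩ := p.hole_info hz
  have hz' := hz.2.1
  have hz1 := hz.1
  have := p.k1_pos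
  have hK := p.K_lt_D
  have e1 := p.r_succ l
  have := p.g_ge l
  have := p.D_le_r l
  have hx : p.r (l + 1) < p.x0 := p.r_lt_x0 (by omega)
  refine ⟨by omega, by omega, ?_⟩
  intro j hj hw
  rcases Nat.lt_or_ge l j with hl | hl
  · have := p.r_le (show l + 1 ≤ j from hl); omega
  · have := p.r_le hl; omega

theorem hole_ge_D {w : ℕ} (h : p.isHole w) : p.D < w := by
  obtain ⟨z, hz⟩ := h
  obtain ⟨l, a, b, e⟩ := p.hole_info hz
  have hz' := hz.2.1
  have hK := p.K_lt_D
  have e1 := p.r_succ l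
  have := p.g_ge l
  have := p.D_le_r l
  have : p.r 0 < p.r l := p.r_lt (by have := p.H0_pos; omega)
  rw [r_zero] at this
  omega

/-- the lattice slots: level `2H - j`, column `i`. -/
theorem slot_of {i j : ℕ} (hj : j ≤ 2 * p.H) (h1 : i + 2 ≤ p.g (2 * p.H - j))
    (h2 : i + p.g j < 2 * p.D) (h3 : ¬ p.isHole (p.x0 + i - p.r j)) :
    p.isSlot (p.x0 + i - p.r j) ∧ p.base (p.x0 + i - p.r j) = p.r j ∧
    p.base (p.x0 + i - p.r j) + (p.x0 + i - p.r j) = p.x0 + i ∧
    p.link (p.x0 + i - p.r j) = p.r (j + 1) ∧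
    p.link (p.x0 + i - p.r j) + (p.x0 + i - p.r j) = p.x0 + i + p.g j := by
  have hs := p.r_sym (l := 2 * p.H - j) (by omega)
  rw [show 2 * p.H - (2 * p.H - j) = j by omega] at hs
  have hw : p.x0 + i - p.r j = p.r (2 * p.H - j) + 1 + i := by omega
  have hlev : p.lev (p.x0 + i - p.r j) = 2 * p.H - j :=
    p.lev_eq (by omega) (by omega) (by rw [p.r_succ]; omega)
  have hD : p.D < p.x0 + i - p.r j := by have := p.D_le_r (2 * p.H - j); omega
  have hb : p.base (p.x0 + i - p.r j) = p.r j := by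
    unfold base; rw [if_neg (by omega), hlev]; congr 1; omega
  have hl : p.link (p.x0 + i - p.r j) = p.r (j + 1) := by
    unfold link; rw [if_neg (by omega), hlev]; congr 1; omega
  have e := p.r_succ j
  have hxr := p.r_lt_x0 hj
  refine ⟨⟨⟨?_, ?_, ?_⟩, h3, Or.inr ⟨hD, ?_⟩⟩, hb, ?_, hl, ?_⟩
  · have := p.K_lt_D; omega
  · rw [hw]
    have := p.r_le (show 2 * p.H - j + 1 ≤ 2 * p.H + 1 by omega)
    have e2 := p.r_succ (2 * p.H - j)
    unfold x0; omega
  · intro j' hj' he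
    have e2 := p.r_succ (2 * p.H - j)
    rcases Nat.lt_or_ge (2 * p.H - j) j' with hl | hl
    · have := p.r_le (show 2 * p.H - j + 1 ≤ j' from hl); omega
    · have := p.r_le hl; omega
  · rw [hl, e]; unfold top; omega
  · rw [hb]; omega
  · rw [hl, e]; omega

/-- every level, small columns -/
theorem slot_small {i j : ℕ} (hj : j ≤ 2 * p.H) (hi : i + 2 * p.K + 1 ≤ p.D) :
    p.isSlot (p.x0 + i - p.r j) ∧ p.base (p.x0 + i - p.r j) = p.r j ∧
    p.base (p.x0 + i - p.r j) + (p.x0 + i - p.r j) = p.x0 + i ∧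
    p.link (p.x0 + i - p.r j) = p.r (j + 1) ∧
    p.link (p.x0 + i - p.r j) + (p.x0 + i - p.r j) = p.x0 + i + p.g j := by
  have hg := p.g_ge (2 * p.H - j)
  have hg2 := p.g_le j
  have hK := p.K_pos
  apply p.slot_of hj (by omega) (by omega)
  intro hh
  have hs := p.r_sym (l := 2 * p.H - j) (by omega)
  rw [show 2 * p.H - (2 * p.H - j) = j by omega] at hs
  have e := p.r_succ (2 * p.H - j)
  have := (p.hole_lev hh (l := 2 * p.H - j) (by omega) (by omega)).2.2
  omega

/-- levels `j = 4a+2`, `a < m` (more generally `j ≡ 2 mod 4`, `j < H0`) -/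
theorem slot_J1 {i a : ℕ} (ha : a ≤ p.m) (hi : i + 2 ≤ p.D) :
    p.isSlot (p.x0 + i - p.r (4 * a + 2)) ∧
    p.base (p.x0 + i - p.r (4 * a + 2)) = p.r (4 * a + 2) ∧
    p.base (p.x0 + i - p.r (4 * a + 2)) + (p.x0 + i - p.r (4 * a + 2)) = p.x0 + i ∧
    p.link (p.x0 + i - p.r (4 * a + 2)) = p.r (4 * a + 3) ∧
    p.link (p.x0 + i - p.r (4 * a + 2)) + (p.x0 + i - p.r (4 * a + 2)) =
      p.x0 + i + (p.D + 1) := by
  have h0 := p.H0_eq
  have hH := p.H0_le_H
  have hg : p.g (4 * a + 2) = p.D + 1 := by rw [g_lt_H0 p (by omega)]; omega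
  have hg2 := p.g_ge (2 * p.H - (4 * a + 2))
  have := p.slot_of (i := i) (j := 4 * a + 2) (by omega) (by omega) (by omega) (by
    intro hh
    have hs := p.r_sym (l := 2 * p.H - (4 * a + 2)) (by omega)
    rw [show 2 * p.H - (2 * p.H - (4 * a + 2)) = 4 * a + 2 by omega] at hs
    have e := p.r_succ (2 * p.H - (4 * a + 2))
    have := (p.hole_lev hh (l := 2 * p.H - (4 * a + 2)) (by omega) (by omega)).2.1
    omega)
  rw [hg] at this
  exact this

/-- levels `j = 4a`, `1 ≤ a ≤ m` -/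
theorem slot_J0 {i a : ℕ} (ha1 : 1 ≤ a) (ha : a ≤ p.m) (hi : i + 1 ≤ p.D) :
    p.isSlot (p.x0 + i - p.r (4 * a)) ∧
    p.base (p.x0 + i - p.r (4 * a)) = p.r (4 * a) ∧
    p.base (p.x0 + i - p.r (4 * a)) + (p.x0 + i - p.r (4 * a)) = p.x0 + i ∧
    p.link (p.x0 + i - p.r (4 * a)) = p.r (4 * a + 1) ∧
    p.link (p.x0 + i - p.r (4 * a)) + (p.x0 + i - p.r (4 * a)) = p.x0 + i + p.D := by
  have h0 := p.H0_eq
  have hH := p.H0_le_H
  have hg : p.g (4 * a) = p.D := by rw [g_lt_H0 p (by omega)]; omega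
  have hg2 : p.g (2 * p.H - 4 * a) = p.D + 1 := by
    have := p.g_pal (l := 4 * a - 1) (by omega)
    rw [show 2 * p.H - 1 - (4 * a - 1) = 2 * p.H - 4 * a by omega] at this
    rw [this, g_lt_H0 p (by omega)]; omega
  have := p.slot_of (i := i) (j := 4 * a) (by omega) (by omega) (by omega) (by
    intro hh
    have hs := p.r_sym (l := 2 * p.H - (4 * a)) (by omega)
    rw [show 2 * p.H - (2 * p.H - (4 * a)) = 4 * a by omega] at hs
    have e := p.r_succ (2 * p.H - (4 * a))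
    have := (p.hole_lev hh (l := 2 * p.H - (4 * a)) (by omega) (by omega)).2.1
    omega)
  rw [hg] at this
  exact this

/-- the small slots -/
theorem slot_w {w : ℕ} (h1 : p.K ≤ w) (h2 : w < p.D) (h3 : w % 2 = 1) :
    p.isSlot w ∧ p.base w = p.x0 ∧ p.link w = p.x0 + p.D - w ∧ p.link w + w = p.x0 + p.D := by
  have hx : p.D ≤ p.x0 := p.D_le_r _
  refine ⟨⟨⟨h1, by omega, ?_⟩, ?_, Or.inl ⟨h2, h3⟩⟩, ?_, ?_, ?_⟩
  · intro j hj; have := p.D_le_r j; omega
  · intro h; have := p.hole_ge_D h; omega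
  · unfold base; rw [if_pos h2]
  · unfold link; rw [if_pos h2]
  · unfold link; rw [if_pos h2]; omega

theorem isE_small {w : ℕ} (h1 : p.K ≤ w) (h2 : w < p.D) : p.isE w := by
  have hx : p.D ≤ p.x0 := p.D_le_r _
  refine ⟨h1, by omega, ?_⟩
  intro j hj; have := p.D_le_r j; omega

theorem isE_lat {l w : ℕ} (hl : l ≤ 2 * p.H) (h1 : p.r l < w) (h2 : w < p.r (l + 1)) : p.isE w := by
  have := p.D_le_r l; have := p.K_lt_D
  have h3 := p.r_le (show l + 1 ≤ 2 * p.H + 1 by omega)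
  refine ⟨by omega, by unfold x0; omega, ?_⟩
  intro j hj he
  rcases Nat.lt_or_ge l j with hl | hl
  · have := p.r_le (show l + 1 ≤ j from hl); omega
  · have := p.r_le hl; omega

theorem mem_Slots {w : ℕ} : w ∈ p.Slots ↔ p.isSlot w := by
  unfold Slots; rw [mem_filter, mem_range]
  exact ⟨fun h => h.2, fun h => ⟨h.1.2.1, h⟩⟩

theorem lo_hole {C : Finset ℕ} {z w : ℕ} (h : p.holeAt z w) : p.lo C w = z := by
  have hh : p.isHole w := ⟨z, h⟩
  unfold lo; rw [dif_pos hh]
  exact p.hole_unique (Classical.choose_spec hh) h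

theorem lo_mem {C : Finset ℕ} {w : ℕ} (h : ¬ p.isHole w) (hC : w ∈ C) : p.lo C w = p.link w := by
  unfold lo; rw [dif_neg h, if_pos hC]

theorem lo_not_mem {C : Finset ℕ} {w : ℕ} (h : ¬ p.isHole w) (hC : w ∉ C) :
    p.lo C w = p.base w := by
  unfold lo; rw [dif_neg h, if_neg hC]

theorem bulk_r {j : ℕ} (hj : j ≤ 2 * p.H + 1) : p.bulk (p.r j) := by
  rcases Nat.lt_or_ge (2 * p.H) j with h | h
  · right
    have : j = 2 * p.H + 1 := by omega
    subst this
    exact ⟨le_refl _, p.x0_lt_top⟩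
  · exact Or.inl ⟨j, h, rfl⟩

theorem bulk_x {i : ℕ} (hi : i < 2 * p.D) : p.bulk (p.x0 + i) := by
  right; unfold top; omega

/-- ends of the base edge of a non-hole are bulk vertices -/
theorem base_bulk {w : ℕ} (h : p.isE w) :
    p.bulk (p.base w) ∧ p.bulk (p.base w + w) := by
  by_cases hD : w < p.D
  · unfold base; rw [if_pos hD]
    exact ⟨p.bulk_x (i := 0) (by omega), p.bulk_x (by omega)⟩
  · obtain ⟨l, hl, h1, h2⟩ := p.exists_lev h (by omega)
    have hlev := p.lev_eq hl h1.le h2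
    unfold base; rw [if_neg hD, hlev]
    refine ⟨p.bulk_r (by omega), ?_⟩
    have hs := p.r_sym (l := l) hl
    have e := p.r_succ l
    have := p.g_le l
    have hsz := p.size2
    have : p.r (2 * p.H - l) + w = p.x0 + (w - p.r l - 1) := by omega
    rw [this]
    exact p.bulk_x (by omega)

theorem link_bulk {w : ℕ} (h : p.isSlot w) :
    p.bulk (p.link w) ∧ p.bulk (p.link w + w) := by
  obtain ⟨hE, hh, h3⟩ := h
  by_cases hD : w < p.D
  · unfold link; rw [if_pos hD]
    have := p.isE_pos hE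
    constructor
    · rw [show p.x0 + p.D - w = p.x0 + (p.D - w) by omega]; exact p.bulk_x (by omega)
    · rw [show p.x0 + p.D - w + w = p.x0 + p.D by omega]; exact p.bulk_x (by omega)
  · obtain ⟨l, hl, h1, h2⟩ := p.exists_lev hE (by omega)
    have hlev := p.lev_eq hl h1.le h2
    have hlt : p.link w + w < p.top := by
      rcases h3 with h3 | h3
      · omega
      · exact h3.2
    unfold link at *
    rw [if_neg hD, hlev] at *
    refine ⟨p.bulk_r (by omega), ?_⟩
    have hs := p.r_sym (l := l) hl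
    have := p.r_lt (show 2 * p.H - l < 2 * p.H - l + 1 by omega)
    right
    omega

theorem isV_of_bulk {v : ℕ} (h : p.bulk v) : p.isV v := Or.inr h

theorem lo_isV {C : Finset ℕ} (hC : C ⊆ p.Slots) {w : ℕ} (h : p.isE w) :
    p.isV (p.lo C w) ∧ p.isV (p.lo C w + w) := by
  by_cases hh : p.isHole w
  · obtain ⟨z, hz⟩ := hh
    rw [p.lo_hole hz]
    refine ⟨Or.inl ⟨hz.1, hz.2.1⟩, ?_⟩
    obtain ⟨l, a, b, e⟩ := p.hole_info hz
    rw [show z + w = w + z by omega, e]
    exact p.isV_of_bulk (p.bulk_r (by omega))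
  · by_cases hw : w ∈ C
    · rw [p.lo_mem hh hw]
      have := p.link_bulk (p.mem_Slots.1 (hC hw))
      exact ⟨p.isV_of_bulk this.1, p.isV_of_bulk this.2⟩
    · rw [p.lo_not_mem hh hw]
      have := p.base_bulk h
      exact ⟨p.isV_of_bulk this.1, p.isV_of_bulk this.2⟩

theorem N_eq : p.N = p.top - p.k1 := rfl

end Par

end Pool.Agent.Helper791.Seq
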