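import Pool.Agent.Helper791Seq.Basic

set_option autoImplicit false

/-! # Translation to the language of graphs -/

namespace Pool.Agent.Helper791.Seq

open Finset Classical

/-- `G` has a `k`-sequential numbering. -/
def HasSeq {V : Type} (G : SimpleGraph V) (k : ℕ) : Prop :=
  ∃ f : V → ℕ, Function.Injective f ∧
    (∀ u v x y : V, G.Adj u v → G.Adj x y →
      ((f u : ℤ) - (f v : ℤ)).natAbs = ((f x : ℤ) - (f y : ℤ)).natAbs →
      s(u, v) = s(x, y)) ∧
    (∀ u v w : V, G.Adj u v → ((f u : ℤ) - (f v : ℤ)).natAbs ≠ f w) ∧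
    Set.range f ∪ {x : ℕ | ∃ u v : V, G.Adj u v ∧ ((f u : ℤ) - (f v : ℤ)).natAbs = x}
      = Set.Icc k (k + Nat.card V + G.edgeSet.ncard - 1)

variable (p : Par)

theorem gr_adj_iff (l : ℕ → ℕ) (u v : {v : ℕ // p.isV v}) :
    (Gr p l).Adj u v ↔ ∃ w, p.isE w ∧ (((u : ℕ) = l w ∧ (v : ℕ) = l w + w) ∨
      ((v : ℕ) = l w ∧ (u : ℕ) = l w + w)) := by
  unfold Gr
  rw [SimpleGraph.fromRel_adj]
  constructor
  · rintro ⟨hne, ⟨w, hw, h1, h2⟩ | ⟨w, hw, h1, h2⟩⟩
    · exact ⟨w, hw, Or.inl ⟨h1, h2⟩⟩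
    · exact ⟨w, hw, Or.inr ⟨h1, h2⟩⟩
  · rintro ⟨w, hw, h⟩
    have hpos := p.isE_pos hw
    refine ⟨?_, ?_⟩
    · intro he
      rw [he] at h
      rcases h with ⟨h1, h2⟩ | ⟨h1, h2⟩ <;> omega
    · rcases h with ⟨h1, h2⟩ | ⟨h1, h2⟩
      · exact Or.inl ⟨w, hw, h1, h2⟩
      · exact Or.inr ⟨w, hw, h1, h2⟩

theorem finite_V : Finite {v : ℕ // p.isV v} := by
  apply Set.Finite.subset (s := Set.Iio p.top) (Set.finite_Iio _)
  intro v hv
  exact p.isV_lt_top hv

theorem card_V : Nat.card {v : ℕ // p.isV v} = ((range p.top).filter (fun v => p.isV v)).card := by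
  apply Nat.subtype_card
  intro v
  rw [mem_filter, mem_range]
  exact ⟨fun h => h.2, fun h => ⟨p.isV_lt_top h, h⟩⟩

theorem card_E : Nat.card {w : ℕ // p.isE w} = ((range p.top).filter (fun w => p.isE w)).card := by
  apply Nat.subtype_card
  intro v
  rw [mem_filter, mem_range]
  exact ⟨fun h => h.2, fun h => ⟨p.isE_lt_top h, h⟩⟩

theorem card_VE : Nat.card {v : ℕ // p.isV v} + Nat.card {w : ℕ // p.isE w} = p.N := by
  rw [card_V, card_E, ← card_union_of_disjoint]
  · have : (range p.top).filter (fun v => p.isV v) ∪ (range p.top).filter (fun w => p.isE w) =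
        Ico p.k1 p.top := by
      ext v
      rw [mem_union, mem_filter, mem_filter, mem_range, mem_Ico]
      constructor
      · rintro (⟨h1, h2⟩ | ⟨h1, h2⟩)
        · exact ⟨p.isV_ge_k1 h2, h1⟩
        · exact ⟨le_trans p.k1_le_K h2.1, h1⟩
      · rintro ⟨h1, h2⟩
        rcases p.isV_or_isE h1 h2 with h | h
        · exact Or.inl ⟨h2, h⟩
        · exact Or.inr ⟨h2, h⟩
    rw [this, Nat.card_Ico]; rfl
  · rw [disjoint_left]
    intro v h1 h2
    exact p.isE_not_isV (mem_filter.1 h2).2 (mem_filter.1 h1).2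

/-- the edge with label `w` -/
def edge (l : ℕ → ℕ) (hl : ∀ w, p.isE w → p.isV (l w) ∧ p.isV (l w + w)) (w : {w : ℕ // p.isE w}) :
    Sym2 {v : ℕ // p.isV v} :=
  s(⟨l w, (hl w w.2).1⟩, ⟨l w + w, (hl w w.2).2⟩)

theorem edge_inj (l : ℕ → ℕ) (hl : ∀ w, p.isE w → p.isV (l w) ∧ p.isV (l w + w)) :
    Function.Injective (edge p l hl) := by
  rintro ⟨w, hw⟩ ⟨w', hw'⟩ h
  unfold edge at h
  have hpos := p.isE_pos hw
  have hpos' := p.isE_pos hw'
  rw [Sym2.eq_iff] at h
  simp only [Subtype.mk.injEq] at h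
  apply Subtype.ext
  simp only
  omega

theorem edgeSet_eq (l : ℕ → ℕ) (hl : ∀ w, p.isE w → p.isV (l w) ∧ p.isV (l w + w)) :
    (Gr p l).edgeSet = Set.range (edge p l hl) := by
  ext e
  induction e using Sym2.ind with
  | _ u v =>
    rw [SimpleGraph.mem_edgeSet, gr_adj_iff, Set.mem_range]
    constructor
    · rintro ⟨w, hw, h⟩
      refine ⟨⟨w, hw⟩, ?_⟩
      unfold edge
      rcases h with ⟨h1, h2⟩ | ⟨h1, h2⟩
      · have e1 : u = ⟨l w, (hl w hw).1⟩ := Subtype.ext h1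
        have e2 : v = ⟨l w + w, (hl w hw).2⟩ := Subtype.ext h2
        rw [e1, e2]
      · have e1 : v = ⟨l w, (hl w hw).1⟩ := Subtype.ext h1
        have e2 : u = ⟨l w + w, (hl w hw).2⟩ := Subtype.ext h2
        rw [e1, e2]
        exact Sym2.eq_swap
    · rintro ⟨⟨w, hw⟩, h⟩
      unfold edge at h
      rw [Sym2.eq_iff] at h
      refine ⟨w, hw, ?_⟩
      rcases h with ⟨h1, h2⟩ | ⟨h1, h2⟩
      · left
        rw [← h1, ← h2]
        exact ⟨rfl, rfl⟩
      · right
        rw [← h1, ← h2]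
        exact ⟨rfl, rfl⟩

theorem card_total (l : ℕ → ℕ) (hl : ∀ w, p.isE w → p.isV (l w) ∧ p.isV (l w + w)) :
    Nat.card {v : ℕ // p.isV v} + (Gr p l).edgeSet.ncard = p.N := by
  rw [edgeSet_eq p l hl, ← Nat.card_coe_set_eq, Nat.card_range_of_injective (edge_inj p l hl)]
  exact card_VE p

theorem hasSeq_iff (l : ℕ → ℕ) (hl : ∀ w, p.isE w → p.isV (l w) ∧ p.isV (l w + w)) (k : ℕ) :
    HasSeq (Gr p l) k ↔ ∃ F : ℕ → ℕ, Valid p l k F := by
  have hN : k + Nat.card {v : ℕ // p.isV v} + (Gr p l).edgeSet.ncard - 1 = k + p.N - 1 := by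
    rw [← card_total p l hl]; omega
  unfold HasSeq
  rw [hN]
  constructor
  · rintro ⟨f, h1, h2, h3, h4⟩
    set F : ℕ → ℕ := fun v => if h : p.isV v then f ⟨v, h⟩ else 0 with hF
    have hFv : ∀ v (h : p.isV v), F v = f ⟨v, h⟩ := by
      intro v h; rw [hF]; simp only; rw [dif_pos h]
    have hadj : ∀ w (hw : p.isE w), (Gr p l).Adj ⟨l w, (hl w hw).1⟩ ⟨l w + w, (hl w hw).2⟩ := by
      intro w hw; rw [gr_adj_iff]; exact ⟨w, hw, Or.inl ⟨rfl, rfl⟩⟩
    have helb : ∀ w (hw : p.isE w), elb l F w =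
        ((f ⟨l w, (hl w hw).1⟩ : ℤ) - (f ⟨l w + w, (hl w hw).2⟩ : ℤ)).natAbs := by
      intro w hw; unfold elb; rw [hFv _ (hl w hw).1, hFv _ (hl w hw).2]
    refine ⟨F, ?_, ?_, ?_, ?_⟩
    · intro u v hu hv h
      rw [hFv u hu, hFv v hv] at h
      exact congrArg Subtype.val (h1 h)
    · intro w w' hw hw' h
      rw [helb w hw, helb w' hw'] at h
      have := h2 _ _ _ _ (hadj w hw) (hadj w' hw') h
      have := edge_inj p l hl (a₁ := ⟨w, hw⟩) (a₂ := ⟨w', hw'⟩) this
      exact congrArg Subtype.val this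
    · intro w v hw hv
      rw [helb w hw, hFv v hv]
      exact h3 _ _ _ (hadj w hw)
    · intro n
      have := Set.ext_iff.1 h4 n
      rw [Set.mem_Icc] at this
      rw [← this]
      constructor
      · rintro (⟨⟨v, hv⟩, h⟩ | ⟨u, v, huv, h⟩)
        · left; exact ⟨v, hv, by rw [hFv v hv]; exact h⟩
        · right
          rw [gr_adj_iff] at huv
          obtain ⟨w, hw, h'⟩ := huv
          refine ⟨w, hw, ?_⟩
          rw [helb w hw, ← h]
          rcases h' with ⟨a, b⟩ | ⟨a, b⟩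
          · have e1 : u = ⟨l w, (hl w hw).1⟩ := Subtype.ext a
            have e2 : v = ⟨l w + w, (hl w hw).2⟩ := Subtype.ext b
            rw [e1, e2]
          · have e1 : v = ⟨l w, (hl w hw).1⟩ := Subtype.ext a
            have e2 : u = ⟨l w + w, (hl w hw).2⟩ := Subtype.ext b
            rw [e1, e2]
            omega
      · rintro (⟨v, hv, h⟩ | ⟨w, hw, h⟩)
        · left; exact ⟨⟨v, hv⟩, by rw [← hFv v hv]; exact h⟩
        · right
          exact ⟨_, _, hadj w hw, by rw [← helb w hw]; exact h⟩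
  · rintro ⟨F, h1, h2, h3, h4⟩
    refine ⟨fun v => F v, ?_, ?_, ?_, ?_⟩
    · intro u v h
      exact Subtype.ext (h1 u v u.2 v.2 h)
    · intro u v x y huv hxy h
      rw [gr_adj_iff] at huv hxy
      obtain ⟨w, hw, h'⟩ := huv
      obtain ⟨w', hw', h''⟩ := hxy
      have ew : elb l F w = ((F u : ℤ) - (F v : ℤ)).natAbs := by
        unfold elb
        rcases h' with ⟨a, b⟩ | ⟨a, b⟩
        · rw [a, b]
        · rw [a, b]; omega
      have ew' : elb l F w' = ((F x : ℤ) - (F y : ℤ)).natAbs := by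
        unfold elb
        rcases h'' with ⟨a, b⟩ | ⟨a, b⟩
        · rw [a, b]
        · rw [a, b]; omega
      have := h2 w w' hw hw' (by rw [ew, ew']; exact h)
      subst this
      rcases h' with ⟨a, b⟩ | ⟨a, b⟩ <;> rcases h'' with ⟨a', b'⟩ | ⟨a', b'⟩
      · have e1 : u = x := Subtype.ext (a.trans a'.symm)
        have e2 : v = y := Subtype.ext (b.trans b'.symm)
        rw [e1, e2]
      · have e1 : u = y := Subtype.ext (a.trans a'.symm)
        have e2 : v = x := Subtype.ext (b.trans b'.symm)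
        rw [e1, e2]; exact Sym2.eq_swap
      · have e1 : v = x := Subtype.ext (a.trans a'.symm)
        have e2 : u = y := Subtype.ext (b.trans b'.symm)
        rw [e1, e2]; exact Sym2.eq_swap
      · have e1 : v = y := Subtype.ext (a.trans a'.symm)
        have e2 : u = x := Subtype.ext (b.trans b'.symm)
        rw [e1, e2]
    · intro u v x huv h
      rw [gr_adj_iff] at huv
      obtain ⟨w, hw, h'⟩ := huv
      have ew : elb l F w = ((F u : ℤ) - (F v : ℤ)).natAbs := by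
        unfold elb
        rcases h' with ⟨a, b⟩ | ⟨a, b⟩
        · rw [a, b]
        · rw [a, b]; omega
      exact h3 w x hw x.2 (ew.trans h)
    · ext n
      rw [Set.mem_Icc, h4 n]
      constructor
      · rintro (⟨v, h⟩ | ⟨u, v, huv, h⟩)
        · left; exact ⟨v, v.2, h⟩
        · right
          rw [gr_adj_iff] at huv
          obtain ⟨w, hw, h'⟩ := huv
          refine ⟨w, hw, ?_⟩
          have h2' : ((F u : ℤ) - (F v : ℤ)).natAbs = n := h
          rw [← h2']
          unfold elb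
          rcases h' with ⟨a, b⟩ | ⟨a, b⟩
          · rw [a, b]
          · rw [a, b]; omega
      · rintro (⟨v, hv, h⟩ | ⟨w, hw, h⟩)
        · left; exact ⟨⟨v, hv⟩, h⟩
        · right
          refine ⟨⟨l w, (hl w hw).1⟩, ⟨l w + w, (hl w hw).2⟩, ?_, h⟩
          rw [gr_adj_iff]; exact ⟨w, hw, Or.inl ⟨rfl, rfl⟩⟩

end Pool.Agent.Helper791.Seq
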