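import Pool.Agent.Helper791Seq.Basic

set_option autoImplicit false

/-! # Connectedness -/

namespace Pool.Agent.Helper791.Seq

open Finset Classical

/-- number of subsets containing a given set -/
theorem card_superset {Sl A : Finset ℕ} (hA : A ⊆ Sl) :
    (Sl.powerset.filter (fun C => A ⊆ C)).card * 2 ^ A.card ≤ 2 ^ Sl.card := by
  have h1 : (Sl.powerset.filter (fun C => A ⊆ C)).card ≤ ((Sl \ A).powerset).card := by
    apply card_le_card_of_injOn (fun C => C \ A)
    · intro C hC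
      rw [mem_coe, mem_filter, mem_powerset] at hC
      rw [mem_coe, mem_powerset]
      exact sdiff_subset_sdiff hC.1 (Subset.refl _)
    · intro C hC C' hC' h
      rw [mem_coe, mem_filter, mem_powerset] at hC hC'
      simp only at h
      rw [← sdiff_union_of_subset hC.2, h, sdiff_union_of_subset hC'.2]
  rw [card_powerset, card_sdiff_of_subset hA] at h1
  calc _ ≤ 2 ^ (Sl.card - A.card) * 2 ^ A.card := Nat.mul_le_mul_right _ h1
    _ = 2 ^ Sl.card := by
      rw [← pow_add, Nat.sub_add_cancel (card_le_card hA)]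

theorem card_disj {Sl A : Finset ℕ} (hA : A ⊆ Sl) :
    (Sl.powerset.filter (fun C => Disjoint A C)).card * 2 ^ A.card ≤ 2 ^ Sl.card := by
  have h1 : (Sl.powerset.filter (fun C => Disjoint A C)).card ≤ ((Sl \ A).powerset).card := by
    apply card_le_card
    intro C hC
    rw [mem_filter, mem_powerset] at hC
    rw [mem_powerset]
    intro x hx
    rw [mem_sdiff]
    exact ⟨hC.1 hx, fun h => (disjoint_left.1 hC.2) h hx⟩
  rw [card_powerset, card_sdiff_of_subset hA] at h1
  calc _ ≤ 2 ^ (Sl.card - A.card) * 2 ^ A.card := Nat.mul_le_mul_right _ h1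
    _ = 2 ^ Sl.card := by
      rw [← pow_add, Nat.sub_add_cancel (card_le_card hA)]

theorem cnt_all {Sl : Finset ℕ} {m : ℕ} (s : ℕ → ℕ) (hs : ∀ a, a < m → s a ∈ Sl)
    (hinj : ∀ a b, a < m → b < m → s a = s b → a = b) :
    (Sl.powerset.filter (fun C => ∀ a, a < m → s a ∈ C)).card * 2 ^ m ≤ 2 ^ Sl.card := by
  have hA : (range m).image s ⊆ Sl := by
    intro x hx
    rw [mem_image] at hx
    obtain ⟨a, ha, rfl⟩ := hx
    exact hs a (mem_range.1 ha)
  have hc : ((range m).image s).card = m := by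
    rw [card_image_of_injOn, card_range]
    intro a ha b hb h
    rw [mem_coe, mem_range] at ha hb
    exact hinj a b ha hb h
  have h := card_superset hA
  rw [hc] at h
  refine le_trans (Nat.mul_le_mul_right _ (card_le_card ?_)) h
  intro C hC
  rw [mem_filter] at hC ⊢
  refine ⟨hC.1, ?_⟩
  intro x hx
  rw [mem_image] at hx
  obtain ⟨a, ha, rfl⟩ := hx
  exact hC.2 a (mem_range.1 ha)

theorem cnt_none {Sl : Finset ℕ} {m : ℕ} (s : ℕ → ℕ) (hs : ∀ a, a < m → s a ∈ Sl)
    (hinj : ∀ a b, a < m → b < m → s a = s b → a = b) :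
    (Sl.powerset.filter (fun C => ∀ a, a < m → s a ∉ C)).card * 2 ^ m ≤ 2 ^ Sl.card := by
  have hA : (range m).image s ⊆ Sl := by
    intro x hx
    rw [mem_image] at hx
    obtain ⟨a, ha, rfl⟩ := hx
    exact hs a (mem_range.1 ha)
  have hc : ((range m).image s).card = m := by
    rw [card_image_of_injOn, card_range]
    intro a ha b hb h
    rw [mem_coe, mem_range] at ha hb
    exact hinj a b ha hb h
  have h := card_disj hA
  rw [hc] at h
  refine le_trans (Nat.mul_le_mul_right _ (card_le_card ?_)) h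
  intro C hC
  rw [mem_filter] at hC ⊢
  refine ⟨hC.1, ?_⟩
  rw [disjoint_left]
  intro x hx
  rw [mem_image] at hx
  obtain ⟨a, ha, rfl⟩ := hx
  exact hC.2 a (mem_range.1 ha)

variable (p : Par)

namespace Par

theorem x0_isV : p.isV p.x0 := Or.inr (Or.inr ⟨le_refl _, p.x0_lt_top⟩)

/-- `v` is a vertex reachable from `x0` -/
def Rch (C : Finset ℕ) (v : ℕ) : Prop :=
  ∃ h : p.isV v, (Gr p (p.lo C)).Reachable ⟨v, h⟩ ⟨p.x0, p.x0_isV⟩

theorem gr_adj {C : Finset ℕ} (hC : C ⊆ p.Slots) {w : ℕ} (hw : p.isE w) :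
    (Gr p (p.lo C)).Adj ⟨p.lo C w, (p.lo_isV hC hw).1⟩ ⟨p.lo C w + w, (p.lo_isV hC hw).2⟩ := by
  unfold Gr
  rw [SimpleGraph.fromRel_adj]
  refine ⟨?_, Or.inl ⟨w, hw, rfl, rfl⟩⟩
  intro h
  have := congrArg Subtype.val h
  simp only at this
  have := p.isE_pos hw
  omega

theorem rch_up {C : Finset ℕ} (hC : C ⊆ p.Slots) {w : ℕ} (hw : p.isE w)
    (h : p.Rch C (p.lo C w)) : p.Rch C (p.lo C w + w) := by
  obtain ⟨h1, h2⟩ := h
  exact ⟨(p.lo_isV hC hw).2, (p.gr_adj hC hw).symm.reachable.trans h2⟩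

theorem rch_down {C : Finset ℕ} (hC : C ⊆ p.Slots) {w : ℕ} (hw : p.isE w)
    (h : p.Rch C (p.lo C w + w)) : p.Rch C (p.lo C w) := by
  obtain ⟨h1, h2⟩ := h
  exact ⟨(p.lo_isV hC hw).1, (p.gr_adj hC hw).reachable.trans h2⟩

theorem rch_x0 (C : Finset ℕ) : p.Rch C p.x0 := ⟨p.x0_isV, SimpleGraph.Reachable.refl _⟩

theorem connected {C : Finset ℕ} (hC : C ⊆ p.Slots)
    (h1 : ∀ j, j ≤ 2 * p.H → ∃ a, a < p.m ∧ p.x0 + (2 * p.K + 2 * a) - p.r j ∉ C)
    (h2 : ∀ i, i < p.D → ∃ a, a < p.m ∧ p.x0 + i - p.r (4 * (a + 1)) ∉ C)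
    (h3 : ∀ i, i < p.D → ∃ a, a < p.m ∧ p.x0 + i - p.r (4 * (a + 1)) ∈ C) :
    (Gr p (p.lo C)).Connected := by
  have hsz := p.size2
  have hK := p.K_pos
  have hH0 := p.H0_eq
  have hHH := p.H0_le_H
  -- even small columns
  have s1 : ∀ i, p.K ≤ i → i < p.D → i % 2 = 0 → p.Rch C (p.x0 + i) := by
    intro i i1 i2 i3
    have hE := p.isE_small i1 i2
    have hh : ¬ p.isHole i := fun h => by have := p.hole_ge_D h; omega
    have hns : i ∉ C := by
      intro h
      have := (p.mem_Slots.1 (hC h)).2.2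
      omega
    have e : p.lo C i = p.x0 := by
      rw [p.lo_not_mem hh hns]; unfold base; rw [if_pos i2]
    have := p.rch_up hC hE (by rw [e]; exact p.rch_x0 C)
    rwa [e] at this
  have s2 : ∀ j, j ≤ 2 * p.H + 1 → p.Rch C (p.r j) := by
    intro j hj
    rcases Nat.lt_or_ge (2 * p.H) j with hj' | hj'
    · have : j = 2 * p.H + 1 := by omega
      rw [this]; exact p.rch_x0 C
    · obtain ⟨a, ha, hw⟩ := h1 j hj'
      obtain ⟨e0, e1, e2, e3, e4⟩ := p.slot_small (i := 2 * p.K + 2 * a) hj' (by omega)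
      have e := p.lo_not_mem e0.2.1 hw
      rw [e1] at e
      have := p.rch_down hC e0.1 (by
        rw [e]; rw [e1] at e2; rw [e2]; exact s1 _ (by omega) (by omega) (by omega))
      rwa [e] at this
  have s3 : ∀ i, i < p.D → p.Rch C (p.x0 + i) := by
    intro i hi
    obtain ⟨a, ha, hw⟩ := h2 i hi
    obtain ⟨e0, e1, e2, e3, e4⟩ := p.slot_J0 (i := i) (a := a + 1) (by omega) (by omega) (by omega)
    have e := p.lo_not_mem e0.2.1 hw
    rw [e1] at e
    have := p.rch_up hC e0.1 (by rw [e]; exact s2 _ (by omega))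
    rw [e1] at e2
    rwa [e, e2] at this
  have s4 : ∀ i, i < p.D → p.Rch C (p.x0 + i + p.D) := by
    intro i hi
    obtain ⟨a, ha, hw⟩ := h3 i hi
    obtain ⟨e0, e1, e2, e3, e4⟩ := p.slot_J0 (i := i) (a := a + 1) (by omega) (by omega) (by omega)
    have e := p.lo_mem e0.2.1 hw
    rw [e3] at e
    have := p.rch_up hC e0.1 (by rw [e]; exact s2 _ (by omega))
    rw [e3] at e4
    rwa [e, e4] at this
  have s5 : ∀ z, p.k1 ≤ z → z < p.K → p.Rch C z := by
    intro z z1 z2
    have b1 := p.prv_le z z1 z2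
    have b2 := p.k1_le _ (p.prv_mem z z1 z2)
    have hHe := p.H_eq
    have hD := p.D_le_r (p.H0 + 2 * (p.prv z - p.k1) + 2)
    have e1 : p.holeAt z (p.ah (p.prv z - p.k1) - z) := ⟨z1, z2, Or.inl (by unfold ah; omega)⟩
    have e := p.lo_hole (C := C) e1
    have := p.rch_down hC (p.hole_isE ⟨z, e1⟩) (by
      rw [e, show z + (p.ah (p.prv z - p.k1) - z) = p.ah (p.prv z - p.k1) by unfold ah; omega]
      exact s2 _ (by omega))
    rwa [e] at this
  have all : ∀ v, p.isV v → p.Rch C v := by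
    intro v hv
    rcases hv with h | ⟨j, hj, rfl⟩ | ⟨h, h'⟩
    · exact s5 v h.1 h.2
    · exact s2 j (by omega)
    · unfold top at h'
      by_cases hi : v < p.x0 + p.D
      · have := s3 (v - p.x0) (by omega)
        rwa [show p.x0 + (v - p.x0) = v by omega] at this
      · have := s4 (v - p.x0 - p.D) (by omega)
        rwa [show p.x0 + (v - p.x0 - p.D) + p.D = v by omega] at this
  rw [SimpleGraph.connected_iff_exists_forall_reachable]
  refine ⟨⟨p.x0, p.x0_isV⟩, ?_⟩
  rintro ⟨v, hv⟩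
  obtain ⟨_, h⟩ := all v hv
  exact h.symm

noncomputable def Disc : Finset (Finset ℕ) :=
  p.Slots.powerset.filter (fun C => ¬ (Gr p (p.lo C)).Connected)

theorem disc_count : (p.Disc.card : ℝ) ≤ 2 ^ p.Slots.card * ((2 * p.H + 1 + 2 * p.D) *
    (1 / 2 : ℝ) ^ p.m) := by
  have hsz := p.size2
  have hH0 := p.H0_eq
  have hHH := p.H0_le_H
  set E1 : ℕ → Finset (Finset ℕ) := fun j =>
    p.Slots.powerset.filter (fun C => ∀ a, a < p.m → p.x0 + (2 * p.K + 2 * a) - p.r j ∈ C) with hE1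
  set E2 : ℕ → Finset (Finset ℕ) := fun i =>
    p.Slots.powerset.filter (fun C => ∀ a, a < p.m → p.x0 + i - p.r (4 * (a + 1)) ∈ C) with hE2
  set E3 : ℕ → Finset (Finset ℕ) := fun i =>
    p.Slots.powerset.filter (fun C => ∀ a, a < p.m → p.x0 + i - p.r (4 * (a + 1)) ∉ C) with hE3
  have hsub : p.Disc ⊆ ((range (2 * p.H + 1)).biUnion E1 ∪ (range p.D).biUnion E2) ∪
      (range p.D).biUnion E3 := by
    intro C hC
    unfold Disc at hC
    rw [mem_filter] at hC
    by_contra hcon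
    apply hC.2
    rw [mem_union, mem_union, mem_biUnion, mem_biUnion, mem_biUnion] at hcon
    push Not at hcon
    obtain ⟨⟨c1, c2⟩, c3⟩ := hcon
    apply p.connected (mem_powerset.1 hC.1)
    · intro j hj
      have := c1 j (mem_range.2 (by omega))
      rw [hE1, mem_filter] at this
      by_contra h
      push Not at h
      exact this ⟨hC.1, h⟩
    · intro i hi
      have := c2 i (mem_range.2 hi)
      rw [hE2, mem_filter] at this
      by_contra h
      push Not at h
      exact this ⟨hC.1, h⟩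
    · intro i hi
      have := c3 i (mem_range.2 hi)
      rw [hE3, mem_filter] at this
      by_contra h
      push Not at h
      exact this ⟨hC.1, h⟩
  have c1 : ∀ j ∈ range (2 * p.H + 1), (E1 j).card * 2 ^ p.m ≤ 2 ^ p.Slots.card := by
    intro j hj
    rw [mem_range] at hj
    apply cnt_all (fun a => p.x0 + (2 * p.K + 2 * a) - p.r j)
    · intro a ha
      exact p.mem_Slots.2 (p.slot_small (by omega) (by omega)).1
    · intro a b ha hb h
      have := p.r_lt_x0 (show j ≤ 2 * p.H by omega)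
      omega
  have hinj : ∀ i, i < p.D → ∀ a b, a < p.m → b < p.m →
      p.x0 + i - p.r (4 * (a + 1)) = p.x0 + i - p.r (4 * (b + 1)) → a = b := by
    intro i hi a b ha hb h
    have h1 := p.r_lt_x0 (show 4 * (a + 1) ≤ 2 * p.H by omega)
    have h2 := p.r_lt_x0 (show 4 * (b + 1) ≤ 2 * p.H by omega)
    have := p.r_inj (show p.r (4 * (a + 1)) = p.r (4 * (b + 1)) by omega)
    omega
  have c2 : ∀ i ∈ range p.D, (E2 i).card * 2 ^ p.m ≤ 2 ^ p.Slots.card := by
    intro i hi
    rw [mem_range] at hi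
    apply cnt_all (fun a => p.x0 + i - p.r (4 * (a + 1)))
    · intro a ha
      exact p.mem_Slots.2 (p.slot_J0 (by omega) (by omega) (by omega)).1
    · exact hinj i hi
  have c3 : ∀ i ∈ range p.D, (E3 i).card * 2 ^ p.m ≤ 2 ^ p.Slots.card := by
    intro i hi
    rw [mem_range] at hi
    apply cnt_none (fun a => p.x0 + i - p.r (4 * (a + 1)))
    · intro a ha
      exact p.mem_Slots.2 (p.slot_J0 (by omega) (by omega) (by omega)).1
    · exact hinj i hi
  have b1 : ∀ (n : ℕ) (E : ℕ → Finset (Finset ℕ)),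
      (∀ j ∈ range n, (E j).card * 2 ^ p.m ≤ 2 ^ p.Slots.card) →
      ((range n).biUnion E).card * 2 ^ p.m ≤ n * 2 ^ p.Slots.card := by
    intro n E h
    calc ((range n).biUnion E).card * 2 ^ p.m ≤ (∑ j ∈ range n, (E j).card) * 2 ^ p.m :=
          Nat.mul_le_mul_right _ card_biUnion_le
      _ = ∑ j ∈ range n, (E j).card * 2 ^ p.m := by rw [sum_mul]
      _ ≤ ∑ j ∈ range n, 2 ^ p.Slots.card := Finset.sum_le_sum h
      _ = n * 2 ^ p.Slots.card := by rw [sum_const, card_range, smul_eq_mul]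
  have d1 := b1 _ _ c1
  have d2 := b1 _ _ c2
  have d3 := b1 _ _ c3
  have tot : p.Disc.card * 2 ^ p.m ≤ (2 * p.H + 1 + 2 * p.D) * 2 ^ p.Slots.card := by
    have e1 := (card_le_card hsub).trans ((card_union_le _ _).trans
      (Nat.add_le_add_right (card_union_le _ _) _))
    calc p.Disc.card * 2 ^ p.m ≤ (((range (2 * p.H + 1)).biUnion E1).card +
          ((range p.D).biUnion E2).card + ((range p.D).biUnion E3).card) * 2 ^ p.m :=
          Nat.mul_le_mul_right _ e1
      _ = ((range (2 * p.H + 1)).biUnion E1).card * 2 ^ p.m +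
          ((range p.D).biUnion E2).card * 2 ^ p.m + ((range p.D).biUnion E3).card * 2 ^ p.m := by
          ring
      _ ≤ (2 * p.H + 1) * 2 ^ p.Slots.card + p.D * 2 ^ p.Slots.card +
          p.D * 2 ^ p.Slots.card := Nat.add_le_add (Nat.add_le_add d1 d2) d3
      _ = _ := by ring
  have totR : (p.Disc.card : ℝ) * 2 ^ p.m ≤ (2 * p.H + 1 + 2 * p.D) * 2 ^ p.Slots.card := by
    exact_mod_cast tot
  rw [one_div, inv_pow, ← mul_assoc, ← div_eq_mul_inv, le_div_iff₀ (by positivity)]
  linarith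

end Par

end Pool.Agent.Helper791.Seq
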