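import Mathlib

set_option autoImplicit false

/-! # The counting lemma -/

namespace Pool.Agent.Helper791.Seq

open Finset Classical

/-- invariant sets are determined by their intersection with the descents -/
theorem det_sub (F : ℕ → ℕ) (rk : ℕ → ℤ) (hrk : Function.Injective rk) (D D' T : Finset ℕ)
    (hD : ∀ σ ∈ D, F σ ∈ D) (hDi : ∀ σ ∈ D, ∀ τ ∈ D, F σ = F τ → σ = τ)
    (hDne : ∀ σ ∈ D, F σ ≠ σ)
    (hD' : ∀ σ ∈ D', F σ ∈ D')
    (hT : ∀ σ ∈ D, rk (F σ) < rk σ → σ ∈ T) (hTT : ∀ σ ∈ T, σ ∈ D → σ ∈ D') : D ⊆ D' := by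
  by_contra hcon
  have hne : (D \ D').Nonempty := by
    rw [Finset.sdiff_nonempty]; exact hcon
  obtain ⟨μ, hμ, hmax⟩ := (D \ D').exists_max_image rk hne
  -- `F` maps `D ∩ D'` onto itself
  have hsurj : ∀ τ ∈ D ∩ D', ∃ σ ∈ D ∩ D', F σ = τ := by
    intro τ hτ
    have := Finset.surj_on_of_inj_on_of_card_le (s := D ∩ D') (t := D ∩ D')
      (fun σ _ => F σ) (fun σ h => by
        rw [mem_inter] at h ⊢; exact ⟨hD _ h.1, hD' _ h.2⟩)
      (fun σ τ h1 h2 h => hDi σ (mem_inter.1 h1).1 τ (mem_inter.1 h2).1 h)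
      (le_refl _) τ hτ
    obtain ⟨σ, hσ, h⟩ := this
    exact ⟨σ, hσ, h.symm⟩
  have hμ' := mem_sdiff.1 hμ
  have hFμ : F μ ∈ D \ D' := by
    rw [mem_sdiff]
    refine ⟨hD _ hμ'.1, fun h => ?_⟩
    obtain ⟨σ, hσ, h2⟩ := hsurj (F μ) (mem_inter.2 ⟨hD _ hμ'.1, h⟩)
    have := hDi σ (mem_inter.1 hσ).1 μ hμ'.1 h2
    rw [this] at hσ
    exact hμ'.2 (mem_inter.1 hσ).2
  have h1 := hmax _ hFμ
  have h2 : rk (F μ) ≠ rk μ := fun h => hDne _ hμ'.1 (hrk h)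
  exact hμ'.2 (hTT _ (hT _ hμ'.1 (lt_of_le_of_ne h1 h2)) hμ'.1)

/-- the label of slot `σ` under the choice `C` -/
noncomputable def wC (w0 w1 : ℕ → ℕ) (C : Finset ℕ) (σ : ℕ) : ℕ := if σ ∈ C then w1 σ else w0 σ

theorem count_aux (Sl : Finset ℕ) (w0 w1 : ℕ → ℕ) (U : Finset ℕ) (C0 : Finset ℕ)
    (rk : ℕ → ℤ) (hrk : Function.Injective rk)
    (F : ℕ → ℕ) (hF : ∀ σ ∈ Sl, (if σ ∈ C0 then w0 σ else w1 σ) ∈ U →
      F σ ∈ Sl ∧ wC w0 w1 C0 (F σ) = if σ ∈ C0 then w0 σ else w1 σ) :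
    (Sl.powerset.filter (fun C =>
      (∀ σ ∈ Sl, ∀ τ ∈ Sl, wC w0 w1 C σ = wC w0 w1 C τ → σ = τ) ∧
        Sl.image (wC w0 w1 C) = U)).card ≤
      2 ^ (Sl.filter (fun σ => ¬ w0 σ ≠ w1 σ)).card *
        2 ^ ((Sl.filter (fun σ => w0 σ ≠ w1 σ)).filter (fun σ => rk (F σ) < rk σ)).card := by
  set B := Sl.filter (fun σ => w0 σ ≠ w1 σ) with hB
  set Bc := Sl.filter (fun σ => ¬ w0 σ ≠ w1 σ) with hBc
  set T := B.filter (fun σ => rk (F σ) < rk σ) with hT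
  rw [← card_powerset, ← card_powerset, ← card_product]
  set DD : Finset ℕ → Finset ℕ := fun C => B.filter (fun σ => ¬ (σ ∈ C ↔ σ ∈ C0)) with hDD
  -- properties of difference sets
  have key : ∀ C, (∀ σ ∈ Sl, ∀ τ ∈ Sl, wC w0 w1 C σ = wC w0 w1 C τ → σ = τ) →
      Sl.image (wC w0 w1 C) = U →
      (∀ σ ∈ DD C, F σ ∈ DD C) ∧ (∀ σ ∈ DD C, ∀ τ ∈ DD C, F σ = F τ → σ = τ) ∧
      (∀ σ ∈ DD C, F σ ≠ σ) := by
    intro C hCi hCU
    have hval : ∀ σ ∈ DD C, σ ∈ Sl ∧ w0 σ ≠ w1 σ ∧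
        wC w0 w1 C σ = (if σ ∈ C0 then w0 σ else w1 σ) ∧ wC w0 w1 C σ ≠ wC w0 w1 C0 σ := by
      intro σ hσ
      simp only [hDD, hB, mem_filter] at hσ
      obtain ⟨⟨h1, h2⟩, h3⟩ := hσ
      refine ⟨h1, h2, ?_, ?_⟩
      · unfold wC
        by_cases hc : σ ∈ C <;> by_cases hc0 : σ ∈ C0 <;> simp_all
      · unfold wC
        by_cases hc : σ ∈ C <;> by_cases hc0 : σ ∈ C0 <;> simp_all
        exact fun h => h2 h.symm
    have hFv : ∀ σ ∈ DD C, F σ ∈ Sl ∧ wC w0 w1 C0 (F σ) = wC w0 w1 C σ := by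
      intro σ hσ
      obtain ⟨h1, h2, h3, h4⟩ := hval σ hσ
      have hU : (if σ ∈ C0 then w0 σ else w1 σ) ∈ U := by
        rw [← h3, ← hCU]; exact mem_image_of_mem _ h1
      rw [h3]
      exact hF σ h1 hU
    have hne : ∀ σ ∈ DD C, F σ ≠ σ := by
      intro σ hσ h
      obtain ⟨h1, h2, h3, h4⟩ := hval σ hσ
      have := (hFv σ hσ).2
      rw [h] at this
      exact h4 this.symm
    refine ⟨?_, ?_, hne⟩
    · intro σ hσ
      obtain ⟨h1, h2, h3, h4⟩ := hval σ hσ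
      obtain ⟨h5, h6⟩ := hFv σ hσ
      have h7 : wC w0 w1 C (F σ) ≠ wC w0 w1 C0 (F σ) := by
        rw [h6]
        intro h
        exact hne σ hσ (hCi _ h5 _ h1 h)
      simp only [hDD, hB, mem_filter]
      refine ⟨⟨h5, ?_⟩, ?_⟩
      · intro h; apply h7; unfold wC; rw [h]; simp
      · intro h; apply h7; unfold wC; simp only [h]
    · intro σ hσ τ hτ h
      have e1 := (hFv σ hσ).2
      have e2 := (hFv τ hτ).2
      rw [h, e2] at e1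
      exact hCi _ (hval σ hσ).1 _ (hval τ hτ).1 e1.symm
  apply card_le_card_of_injOn (fun C => (C ∩ Bc, DD C ∩ T))
  · intro C _
    simp only [coe_product, Set.mem_prod, mem_coe, mem_powerset]
    exact ⟨inter_subset_right, inter_subset_right⟩
  · intro C hC C' hC' heq
    simp only [coe_filter, mem_powerset, Set.mem_ofPred_eq] at hC hC'
    obtain ⟨hC1, hC2, hC3⟩ := hC
    obtain ⟨hC1', hC2', hC3'⟩ := hC'
    obtain ⟨e1, e2⟩ := Prod.mk.inj heq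
    obtain ⟨k1, k2, k3⟩ := key C hC2 hC3
    obtain ⟨k1', k2', k3'⟩ := key C' hC2' hC3'
    have hTmem : ∀ C, ∀ σ ∈ DD C, rk (F σ) < rk σ → σ ∈ T := by
      intro C σ hσ h
      simp only [hDD, mem_filter] at hσ
      rw [hT, mem_filter]; exact ⟨hσ.1, h⟩
    have s1 : DD C ⊆ DD C' := by
      apply det_sub F rk hrk _ _ T k1 k2 k3 k1' (hTmem C)
      intro σ h1 h2
      have : σ ∈ DD C ∩ T := mem_inter.2 ⟨h2, h1⟩
      rw [e2] at this; exact (mem_inter.1 this).1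
    have s2 : DD C' ⊆ DD C := by
      apply det_sub F rk hrk _ _ T k1' k2' k3' k1 (hTmem C')
      intro σ h1 h2
      have : σ ∈ DD C' ∩ T := mem_inter.2 ⟨h2, h1⟩
      rw [← e2] at this; exact (mem_inter.1 this).1
    have hDeq : DD C = DD C' := subset_antisymm s1 s2
    have main : ∀ σ ∈ Sl, (σ ∈ C ↔ σ ∈ C') := by
      intro σ hσ
      by_cases hb : w0 σ ≠ w1 σ
      · have hσB : σ ∈ B := by rw [hB, mem_filter]; exact ⟨hσ, hb⟩
        have e : (σ ∈ DD C ↔ σ ∈ DD C') := by rw [hDeq]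
        simp only [hDD, mem_filter, hσB, true_and] at e
        tauto
      · have hσB : σ ∈ Bc := by rw [hBc, mem_filter]; exact ⟨hσ, hb⟩
        have e : (σ ∈ C ∩ Bc ↔ σ ∈ C' ∩ Bc) := by rw [e1]
        simp only [mem_inter, hσB, and_true] at e
        exact e
    ext σ
    constructor
    · intro h; exact (main σ (hC1 h)).1 h
    · intro h; exact (main σ (hC1' h)).2 h

theorem half_pow_le (b t : ℕ) (h : 2 * t ≤ b) : (2 : ℝ) ^ t ≤ 2 ^ b * (3 / 4) ^ b := by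
  rw [← mul_pow]
  have h1 : (2 : ℝ) ^ t ≤ ((3/2 : ℝ) ^ 2) ^ t := by
    apply pow_le_pow_left₀ (by norm_num); norm_num
  rw [← pow_mul] at h1
  refine h1.trans ?_
  rw [show (2 : ℝ) * (3/4) = 3/2 by norm_num]
  exact pow_le_pow_right₀ (by norm_num) h

/-- The counting lemma. -/
theorem count_le (Sl : Finset ℕ) (w0 w1 : ℕ → ℕ) (U : Finset ℕ) :
    ((Sl.powerset.filter (fun C =>
      (∀ σ ∈ Sl, ∀ τ ∈ Sl, wC w0 w1 C σ = wC w0 w1 C τ → σ = τ) ∧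
        Sl.image (wC w0 w1 C) = U)).card : ℝ) ≤
      2 ^ Sl.card * (3 / 4 : ℝ) ^ (Sl.filter (fun σ => w0 σ ≠ w1 σ)).card := by
  by_cases hex : ∃ C0, C0 ∈ (Sl.powerset.filter (fun C =>
      (∀ σ ∈ Sl, ∀ τ ∈ Sl, wC w0 w1 C σ = wC w0 w1 C τ → σ = τ) ∧
        Sl.image (wC w0 w1 C) = U))
  swap
  · have : (Sl.powerset.filter (fun C =>
      (∀ σ ∈ Sl, ∀ τ ∈ Sl, wC w0 w1 C σ = wC w0 w1 C τ → σ = τ) ∧
        Sl.image (wC w0 w1 C) = U)) = ∅ := by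
      rw [Finset.eq_empty_iff_forall_notMem]
      intro C hC; exact hex ⟨C, hC⟩
    rw [this]; simp; positivity
  obtain ⟨C0, hC0⟩ := hex
  rw [mem_filter] at hC0
  obtain ⟨_, h0i, h0U⟩ := hC0
  -- the map `F`
  have hFex : ∃ F : ℕ → ℕ, ∀ σ ∈ Sl, (if σ ∈ C0 then w0 σ else w1 σ) ∈ U →
      F σ ∈ Sl ∧ wC w0 w1 C0 (F σ) = if σ ∈ C0 then w0 σ else w1 σ := by
    have : ∀ σ, ∃ τ, σ ∈ Sl → (if σ ∈ C0 then w0 σ else w1 σ) ∈ U →
        τ ∈ Sl ∧ wC w0 w1 C0 τ = if σ ∈ C0 then w0 σ else w1 σ := by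
      intro σ
      by_cases h : (if σ ∈ C0 then w0 σ else w1 σ) ∈ U
      · have h2 := h
        rw [← h0U, mem_image] at h2
        obtain ⟨τ, h3, h4⟩ := h2
        exact ⟨τ, fun _ _ => ⟨h3, h4⟩⟩
      · exact ⟨0, fun _ h' => absurd h' h⟩
    choose F hF using this
    exact ⟨F, fun σ h1 h2 => hF σ h1 h2⟩
  obtain ⟨F, hF⟩ := hFex
  set B := Sl.filter (fun σ => w0 σ ≠ w1 σ) with hB
  have c1 := count_aux Sl w0 w1 U C0 (fun n => (n : ℤ)) (fun a b h => by simpa using h) F hF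
  have c2 := count_aux Sl w0 w1 U C0 (fun n => -(n : ℤ)) (fun a b h => by simpa using h) F hF
  rw [← hB] at c1 c2
  have hdisj : (B.filter (fun σ => ((F σ : ℕ) : ℤ) < ((σ : ℕ) : ℤ))).card +
      (B.filter (fun σ => -((F σ : ℕ) : ℤ) < -((σ : ℕ) : ℤ))).card ≤ B.card := by
    rw [← card_union_of_disjoint]
    · apply card_le_card
      intro σ hσ
      rw [mem_union] at hσ
      rcases hσ with h | h <;> exact (mem_filter.1 h).1
    · rw [disjoint_left]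
      intro σ h1 h2
      rw [mem_filter] at h1 h2
      have := h1.2; have := h2.2; omega
  have hsum : (Sl.filter (fun σ => ¬ w0 σ ≠ w1 σ)).card + B.card = Sl.card := by
    rw [hB, add_comm]; exact Finset.card_filter_add_card_filter_not _
  have fin : ∀ t, 2 * t ≤ B.card → (Sl.powerset.filter (fun C =>
      (∀ σ ∈ Sl, ∀ τ ∈ Sl, wC w0 w1 C σ = wC w0 w1 C τ → σ = τ) ∧
        Sl.image (wC w0 w1 C) = U)).card ≤
      2 ^ (Sl.filter (fun σ => ¬ w0 σ ≠ w1 σ)).card * 2 ^ t →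
      ((Sl.powerset.filter (fun C =>
      (∀ σ ∈ Sl, ∀ τ ∈ Sl, wC w0 w1 C σ = wC w0 w1 C τ → σ = τ) ∧
        Sl.image (wC w0 w1 C) = U)).card : ℝ) ≤ 2 ^ Sl.card * (3 / 4 : ℝ) ^ B.card := by
    intro t ht hc
    have h1 : ((Sl.powerset.filter (fun C =>
      (∀ σ ∈ Sl, ∀ τ ∈ Sl, wC w0 w1 C σ = wC w0 w1 C τ → σ = τ) ∧
        Sl.image (wC w0 w1 C) = U)).card : ℝ) ≤
      2 ^ (Sl.filter (fun σ => ¬ w0 σ ≠ w1 σ)).card * 2 ^ t := by exact_mod_cast hc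
    refine h1.trans ?_
    rw [← hsum, pow_add, mul_assoc]
    exact mul_le_mul_of_nonneg_left (half_pow_le _ _ ht) (by positivity)
  rcases Nat.lt_or_ge B.card (2 * (B.filter (fun σ => ((F σ : ℕ) : ℤ) < ((σ : ℕ) : ℤ))).card)
    with h | h
  · exact fin _ (by omega) c2
  · exact fin _ h c1

end Pool.Agent.Helper791.Seq
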