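import Mathlib

set_option autoImplicit false

/-!
# Graphs with prescribed set of sequential parameters (MP_288a40_co): definitions

The vertex set of the graph is a set of natural numbers (the labels in one fixed numbering), every
number `w` which is not a vertex (`isE w`) is realised as a difference `(lo w + w) - lo w` of two
vertices. For most `w` there are two ways to do this (`base w` and `link w`); a set `C` of
numbers says where the second one is chosen.
-/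

namespace Pool.Agent.Helper791.Seq

open Finset Classical

/-- Parameters of the construction. `S` is the target set, `k1` its minimum and `K` its maximum. -/
structure Par where
  S : Finset ℕ
  k1 : ℕ
  K : ℕ
  prv : ℕ → ℕ
  nxt : ℕ → ℕ
  m : ℕ
  D : ℕ
  k1_pos : 1 ≤ k1
  k1_mem : k1 ∈ S
  K_mem : K ∈ S
  k1_le : ∀ k ∈ S, k1 ≤ k
  le_K : ∀ k ∈ S, k ≤ K
  prv_mem : ∀ z, k1 ≤ z → z < K → prv z ∈ S
  prv_le : ∀ z, k1 ≤ z → z < K → prv z ≤ z
  nxt_mem : ∀ z, k1 ≤ z → z < K → nxt z ∈ S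
  lt_nxt : ∀ z, k1 ≤ z → z < K → z < nxt z
  gap : ∀ z, k1 ≤ z → z < K → ∀ k ∈ S, k ≤ prv z ∨ nxt z ≤ k
  hm : 2 * K + 2 ≤ m
  hD : 100 * (m + 1) ^ 2 ≤ D

variable (p : Par)

namespace Par

def H0 : ℕ := 4 * p.m + 4
def H : ℕ := p.H0 + 2 * (p.K - p.k1)
def kap (n : ℕ) : ℕ := n + p.nxt (p.k1 + n)

/-- first half of the (palindromic) sequence of gaps -/
def G (l : ℕ) : ℕ :=
  if l < p.H0 then p.D + (l / 2) % 2
  else if (l - p.H0) % 2 = 0 then p.D else p.D + p.kap ((l - p.H0) / 2)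

/-- the gaps -/
def g (l : ℕ) : ℕ :=
  if l < p.H then p.G l else if l < 2 * p.H then p.G (2 * p.H - 1 - l) else p.D + 1

/-- the sequence of the vertices of the first kind -/
def r : ℕ → ℕ
  | 0 => p.D
  | l + 1 => r l + p.g l

/-- first element of the big interval `[x0, top)` of vertices of the second kind -/
def x0 : ℕ := p.r (2 * p.H + 1)
def top : ℕ := p.x0 + 2 * p.D
/-- number of vertices plus number of edges -/
def N : ℕ := p.top - p.k1

/-- the two hubs of gadget number `n` -/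
def ah (n : ℕ) : ℕ := p.r (p.H0 + 2 * n + 2)
def bh (n : ℕ) : ℕ := p.r (2 * p.H - p.H0 - 2 * n)

/-- vertices of the first two kinds -/
def bulk (v : ℕ) : Prop := (∃ j, j ≤ 2 * p.H ∧ v = p.r j) ∨ (p.x0 ≤ v ∧ v < p.top)
/-- all vertices -/
def isV (v : ℕ) : Prop := (p.k1 ≤ v ∧ v < p.K) ∨ p.bulk v
/-- labels of edges -/
def isE (w : ℕ) : Prop := p.K ≤ w ∧ w < p.x0 ∧ ∀ j, j ≤ 2 * p.H → w ≠ p.r j

def holeAt (z w : ℕ) : Prop :=
  p.k1 ≤ z ∧ z < p.K ∧ (w + z = p.ah (p.prv z - p.k1) ∨ w + z = p.bh (p.prv z - p.k1))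
def isHole (w : ℕ) : Prop := ∃ z, p.holeAt z w

noncomputable def lev (w : ℕ) : ℕ := Nat.findGreatest (fun l => p.r l ≤ w) (2 * p.H)
noncomputable def base (w : ℕ) : ℕ := if w < p.D then p.x0 else p.r (2 * p.H - p.lev w)
noncomputable def link (w : ℕ) : ℕ :=
  if w < p.D then p.x0 + p.D - w else p.r (2 * p.H - p.lev w + 1)

/-- edge labels with a free choice -/
def isSlot (w : ℕ) : Prop :=
  p.isE w ∧ ¬ p.isHole w ∧ ((w < p.D ∧ w % 2 = 1) ∨ (p.D < w ∧ p.link w + w < p.top))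
noncomputable def Slots : Finset ℕ := (range p.x0).filter (fun w => p.isSlot w)

/-- the lower end of the edge with label `w` (in the fixed numbering) -/
noncomputable def lo (C : Finset ℕ) (w : ℕ) : ℕ :=
  if h : p.isHole w then Classical.choose h else if w ∈ C then p.link w else p.base w

/-- `w` is broken for `F` -/
def brk (F : ℕ → ℤ) (w : ℕ) : Prop :=
  |F (p.base w) - F (p.base w + w)| ≠ |F (p.link w) - F (p.link w + w)|
noncomputable def bnum (F : ℕ → ℤ) : ℕ := (p.Slots.filter (fun w => p.brk F w)).card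

def Affine (F : ℕ → ℤ) : Prop := ∃ δ c : ℤ, ∀ v, p.bulk v → F v = c + δ * v
def InjB (F : ℕ → ℤ) : Prop := ∀ u v, p.bulk u → p.bulk v → F u = F v → u = v
def Good (F : ℕ → ℤ) : Prop :=
  (∀ j, j ≤ 2 * p.H → p.g j = p.D → F (p.r (j + 1)) - F (p.r j) = F (p.r 1) - F (p.r 0)) ∧
  (∀ j, j ≤ 2 * p.H → p.g j = p.D + 1 → F (p.r (j + 1)) - F (p.r j) = F (p.r 3) - F (p.r 2))

end Par

/-- label of edge `w` under `F` -/
def elb (l : ℕ → ℕ) (F : ℕ → ℕ) (w : ℕ) : ℕ := ((F (l w) : ℤ) - (F (l w + w) : ℤ)).natAbs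

/-- `F` is a `k`-sequential numbering of the graph given by `l`. -/
def Valid (l : ℕ → ℕ) (k : ℕ) (F : ℕ → ℕ) : Prop :=
  (∀ u v, p.isV u → p.isV v → F u = F v → u = v) ∧
  (∀ w w', p.isE w → p.isE w' → elb l F w = elb l F w' → w = w') ∧
  (∀ w v, p.isE w → p.isV v → elb l F w ≠ F v) ∧
  (∀ n, (k ≤ n ∧ n ≤ k + p.N - 1) ↔
    ((∃ v, p.isV v ∧ F v = n) ∨ (∃ w, p.isE w ∧ elb l F w = n)))

/-- the graph given by `l` -/
def Gr (l : ℕ → ℕ) : SimpleGraph {v : ℕ // p.isV v} :=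
  SimpleGraph.fromRel (fun u v => ∃ w, p.isE w ∧ (u : ℕ) = l w ∧ (v : ℕ) = l w + w)

end Pool.Agent.Helper791.Seq
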