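import Pool.Agent.Helper791Seq.Bridge

set_option autoImplicit false

/-! # The complete graph on four vertices has no sequential numbering -/

namespace Pool.Agent.Helper791.Seq

open Finset Classical

/-- all ten labels of a numbering of `K₄` -/
def labs (f : Fin 4 → ℕ) : Fin 10 → ℕ :=
  ![f 0, f 1, f 2, f 3, ((f 0 : ℤ) - f 1).natAbs, ((f 0 : ℤ) - f 2).natAbs,
    ((f 0 : ℤ) - f 3).natAbs, ((f 1 : ℤ) - f 2).natAbs, ((f 1 : ℤ) - f 3).natAbs,
    ((f 2 : ℤ) - f 3).natAbs]

theorem ncard_K4 : (⊤ : SimpleGraph (Fin 4)).edgeSet.ncard = 6 := by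
  rw [Set.ncard_eq_toFinset_card', ← SimpleGraph.edgeFinset,
    SimpleGraph.card_edgeFinset_top_eq_card_choose_two]
  decide

theorem labs_range (f : Fin 4 → ℕ) :
    Set.range f ∪ {x : ℕ | ∃ u v : Fin 4, (⊤ : SimpleGraph (Fin 4)).Adj u v ∧
      ((f u : ℤ) - (f v : ℤ)).natAbs = x} = Set.range (labs f) := by
  ext n
  constructor
  · rintro (⟨v, rfl⟩ | ⟨u, v, huv, rfl⟩)
    · fin_cases v
      · exact ⟨0, rfl⟩
      · exact ⟨1, rfl⟩
      · exact ⟨2, rfl⟩
      · exact ⟨3, rfl⟩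
    · rw [SimpleGraph.top_adj] at huv
      have hsym : ∀ a b : ℕ, ((a : ℤ) - b).natAbs = ((b : ℤ) - a).natAbs := by
        intro a b; omega
      fin_cases u <;> fin_cases v
      · exact absurd rfl huv
      · exact ⟨4, rfl⟩
      · exact ⟨5, rfl⟩
      · exact ⟨6, rfl⟩
      · rw [hsym]; exact ⟨4, rfl⟩
      · exact absurd rfl huv
      · exact ⟨7, rfl⟩
      · exact ⟨8, rfl⟩
      · rw [hsym]; exact ⟨5, rfl⟩
      · rw [hsym]; exact ⟨7, rfl⟩
      · exact absurd rfl huv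
      · exact ⟨9, rfl⟩
      · rw [hsym]; exact ⟨6, rfl⟩
      · rw [hsym]; exact ⟨8, rfl⟩
      · rw [hsym]; exact ⟨9, rfl⟩
      · exact absurd rfl huv
  · rintro ⟨i, rfl⟩
    fin_cases i
    · left; exact ⟨0, rfl⟩
    · left; exact ⟨1, rfl⟩
    · left; exact ⟨2, rfl⟩
    · left; exact ⟨3, rfl⟩
    · right; exact ⟨0, 1, by simp, rfl⟩
    · right; exact ⟨0, 2, by simp, rfl⟩
    · right; exact ⟨0, 3, by simp, rfl⟩
    · right; exact ⟨1, 2, by simp, rfl⟩
    · right; exact ⟨1, 3, by simp, rfl⟩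
    · right; exact ⟨2, 3, by simp, rfl⟩

theorem K4_not (k : ℕ) : ¬ HasSeq (⊤ : SimpleGraph (Fin 4)) k := by
  rintro ⟨f, -, -, -, h⟩
  rw [labs_range, ncard_K4, Nat.card_eq_fintype_card, Fintype.card_fin] at h
  have hI : univ.image (labs f) = Icc k (k + 9) := by
    ext n
    have := Set.ext_iff.1 h n
    rw [Set.mem_range, Set.mem_Icc] at this
    rw [mem_image, mem_Icc]
    constructor
    · rintro ⟨i, _, hi⟩
      have := this.1 ⟨i, hi⟩
      omega
    · intro hn
      obtain ⟨i, hi⟩ := this.2 (by omega)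
      exact ⟨i, mem_univ _, hi⟩
  have hc : (univ.image (labs f)).card = (univ : Finset (Fin 10)).card := by
    rw [hI, Nat.card_Icc, card_univ, Fintype.card_fin]; omega
  have hinj := Finset.card_image_iff.1 hc
  have hs : ∑ x ∈ univ.image (labs f), x = ∑ i, labs f i :=
    Finset.sum_image (fun a ha b hb hab => hinj ha hb hab)
  rw [hI] at hs
  have h1 : ∑ x ∈ Icc k (k + 9), x = 10 * k + 45 := by
    have e : Icc k (k + 9) = Ico k (k + 10) := by
      ext x; rw [mem_Icc, mem_Ico]; omega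
    rw [e, Finset.sum_Ico_eq_sum_range, show k + 10 - k = 10 by omega]
    simp only [Finset.sum_range_succ, Finset.sum_range_zero]
    ring
  rw [h1] at hs
  simp only [Fin.sum_univ_succ, Fin.sum_univ_zero, labs] at hs
  simp at hs
  omega

end Pool.Agent.Helper791.Seq
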