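import Mathlib

set_option autoImplicit false

/-! # The encoding lemma -/

namespace Pool.Agent.Helper791.Seq

open Finset Classical

theorem encode {α : Type*} (𝓕 : Finset α) (ev : α → ℕ → ℕ) (M : ℕ) (St Rt : Finset ℕ)
    (Q : α → Finset ℕ) (b : α → ℕ) (B m2 : ℕ) (hM0 : 1 ≤ M)
    (hM : ∀ x ∈ 𝓕, ∀ v, ev x v < M) (hQ : ∀ x ∈ 𝓕, Q x ⊆ St)
    (hdet : ∀ x ∈ 𝓕, ∀ y ∈ 𝓕, Q x = Q y → (∀ v ∈ Rt ∪ Q x, ev x v = ev y v) → x = y)
    (hb1 : ∀ x ∈ 𝓕, B ≤ b x) (hb2 : ∀ x ∈ 𝓕, m2 * (Q x).card ≤ b x) :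
    ∑ x ∈ 𝓕, (3 / 4 : ℝ) ^ (b x) ≤
      (7 / 8 : ℝ) ^ B * (M : ℝ) ^ Rt.card * (1 + (M : ℝ) * (7 / 8) ^ m2) ^ St.card := by
  have h1 : ∀ x ∈ 𝓕, (3 / 4 : ℝ) ^ (b x) ≤ (7 / 8 : ℝ) ^ B * ((7 / 8 : ℝ) ^ m2) ^ (Q x).card := by
    intro x hx
    have e1 : (3 / 4 : ℝ) ^ (b x) ≤ ((7 / 8 : ℝ) * (7 / 8)) ^ (b x) :=
      pow_le_pow_left₀ (by norm_num) (by norm_num) _
    rw [mul_pow] at e1
    refine e1.trans ?_
    rw [← pow_mul]
    apply mul_le_mul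
    · exact pow_le_pow_of_le_one (by norm_num) (by norm_num) (hb1 x hx)
    · exact pow_le_pow_of_le_one (by norm_num) (by norm_num) (hb2 x hx)
    · positivity
    · positivity
  refine (Finset.sum_le_sum h1).trans ?_
  rw [← Finset.sum_fiberwise_of_maps_to (s := 𝓕) (t := St.powerset) (g := Q)
    (fun x hx => mem_powerset.2 (hQ x hx))]
  have h2 : ∀ q ∈ St.powerset, ∑ x ∈ 𝓕 with Q x = q,
      (7 / 8 : ℝ) ^ B * ((7 / 8 : ℝ) ^ m2) ^ (Q x).card ≤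
      ((7 / 8 : ℝ) ^ B * (M : ℝ) ^ Rt.card) * (((M : ℝ) * (7 / 8 : ℝ) ^ m2) ^ q.card * 1 ^ (St.card - q.card)) := by
    intro q _
    have e1 : ∑ x ∈ 𝓕 with Q x = q, (7 / 8 : ℝ) ^ B * ((7 / 8 : ℝ) ^ m2) ^ (Q x).card =
        ∑ x ∈ 𝓕 with Q x = q, (7 / 8 : ℝ) ^ B * ((7 / 8 : ℝ) ^ m2) ^ q.card := by
      apply Finset.sum_congr rfl
      intro x hx
      rw [(mem_filter.1 hx).2]
    rw [e1, sum_const, nsmul_eq_mul]
    have hc : (𝓕.filter (fun x => Q x = q)).card ≤ M ^ (Rt ∪ q).card := by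
      have e2 : M ^ (Rt ∪ q).card =
          (Fintype.piFinset (fun _ : ↥(Rt ∪ q) => range M)).card := by
        rw [Fintype.card_piFinset]; simp
      rw [e2]
      apply card_le_card_of_injOn (fun x => fun v : ↥(Rt ∪ q) => ev x (v : ℕ))
      · intro x hx
        rw [mem_coe, Fintype.mem_piFinset]
        intro v
        rw [mem_range]
        exact hM x (mem_filter.1 (mem_coe.1 hx)).1 _
      · intro x hx y hy h
        have hx' := mem_filter.1 (mem_coe.1 hx)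
        have hy' := mem_filter.1 (mem_coe.1 hy)
        apply hdet x hx'.1 y hy'.1 (hx'.2.trans hy'.2.symm)
        intro v hv
        rw [hx'.2] at hv
        exact congrFun h ⟨v, hv⟩
    have hc2 : M ^ (Rt ∪ q).card ≤ M ^ (Rt.card + q.card) :=
      Nat.pow_le_pow_right hM0 (card_union_le _ _)
    have hc3 : ((𝓕.filter (fun x => Q x = q)).card : ℝ) ≤ (M : ℝ) ^ (Rt.card + q.card) := by
      exact_mod_cast hc.trans hc2
    calc ((𝓕.filter (fun x => Q x = q)).card : ℝ) * ((7 / 8 : ℝ) ^ B * ((7 / 8 : ℝ) ^ m2) ^ q.card)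
        ≤ (M : ℝ) ^ (Rt.card + q.card) * ((7 / 8 : ℝ) ^ B * ((7 / 8 : ℝ) ^ m2) ^ q.card) :=
          mul_le_mul_of_nonneg_right hc3 (by positivity)
      _ = _ := by rw [pow_add, mul_pow, one_pow]; ring
  refine (Finset.sum_le_sum h2).trans ?_
  rw [← Finset.mul_sum, Finset.sum_pow_mul_eq_add_pow]
  rw [add_comm]

end Pool.Agent.Helper791.Seq
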