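import Pool.Agent.Helper791Seq.Planted

set_option autoImplicit false

/-! # Affine numberings are planted numberings -/

namespace Pool.Agent.Helper791.Seq

open Finset Classical

variable (p : Par)

namespace Par

theorem r1_eq : p.r 1 = 2 * p.D := by
  rw [show (1 : ℕ) = 0 + 1 from rfl, p.r_succ, p.r_zero, p.g0]; omega

theorem r2_eq : p.r 2 = 3 * p.D := by
  rw [show (2 : ℕ) = 1 + 1 from rfl, p.r_succ, p.r1_eq, p.g1]; omega

/-- numbers in the first two levels are edge labels and not holes -/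
theorem low_level {x : ℕ} (h1 : p.D < x) (h2 : x < p.r 2) (h3 : x ≠ p.r 1) :
    p.isE x ∧ ¬ p.isHole x := by
  have hH := p.H_pos
  have hH0 := p.H0_pos
  rcases Nat.lt_or_ge x (p.r 1) with h | h
  · refine ⟨p.isE_lat (l := 0) (by omega) h1 h, fun hh => ?_⟩
    have := (p.hole_lev hh (l := 0) (by rw [p.r_zero]; omega) h).1
    omega
  · refine ⟨p.isE_lat (l := 1) (by omega) (by omega) h2, fun hh => ?_⟩
    have := (p.hole_lev hh (l := 1) (by omega) h2).1
    omega

theorem elb_bulk_affine {C : Finset ℕ} (hC : C ⊆ p.Slots) {F : ℕ → ℕ} {δ c : ℤ}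
    (hδ : δ = 1 ∨ δ = -1)
    (hF : ∀ v, p.bulk v → (F v : ℤ) = c + δ * v) {w : ℕ} (hE : p.isE w) (hh : ¬ p.isHole w) :
    elb (p.lo C) F w = w := by
  have hb : p.bulk (p.lo C w) ∧ p.bulk (p.lo C w + w) := by
    by_cases hw : w ∈ C
    · rw [p.lo_mem hh hw]; exact p.link_bulk (p.mem_Slots.1 (hC hw))
    · rw [p.lo_not_mem hh hw]; exact p.base_bulk hE
  unfold elb
  rw [hF _ hb.1, hF _ hb.2]
  rcases hδ with h | h
  · subst h; push_cast; omega
  · subst h; push_cast; omega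

theorem affine_id {C : Finset ℕ} (hC : C ⊆ p.Slots) {k : ℕ} {F : ℕ → ℕ} (hk : 1 ≤ k)
    (hV : Valid p (p.lo C) k F) (hA : p.Affine (fun v => (F v : ℤ))) :
    (∀ v, p.bulk v → F v = v) ∧ (∀ w, p.isE w → ¬ p.isHole w → elb (p.lo C) F w = w) ∧
    k ≤ p.K := by
  obtain ⟨h1, h2, h3, h4⟩ := hV
  obtain ⟨δ, c, hF0⟩ := hA
  have hF : ∀ v, p.bulk v → (F v : ℤ) = c + δ * v := hF0
  have hK := p.K_pos
  have hKD := p.K_lt_D
  have hx := p.x0_lt_top
  have hDx : p.D < p.x0 := p.r_lt_x0 (Nat.zero_le _)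
  have hk1K := p.k1_le_K
  have hk1 := p.k1_pos
  have hsz := p.size2
  have hH := p.H_pos
  have htop : p.top = p.x0 + 2 * p.D := rfl
  have hN : p.N = p.top - p.k1 := rfl
  have hr1 := p.r1_eq
  have hr2 := p.r2_eq
  have hr2x : p.r 2 < p.x0 := p.r_lt_x0 (by omega)
  have hbD : p.bulk p.D := by have := p.bulk_r (j := 0) (by omega); rwa [p.r_zero] at this
  have hbt : p.bulk (p.top - 1) := by right; omega
  have hrange : ∀ v, p.bulk v → k ≤ F v ∧ F v ≤ k + p.N - 1 := fun v hv =>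
    (h4 (F v)).2 (Or.inl ⟨v, p.isV_of_bulk hv, rfl⟩)
  have eD := hF _ hbD
  have et := hF _ hbt
  have rD := hrange _ hbD
  have rt := hrange _ hbt
  rw [Nat.cast_sub (by omega)] at et
  push_cast at eD et
  have hspan : (p.top : ℤ) - 1 - p.D ≥ 1 := by omega
  have hδ : δ = 1 ∨ δ = -1 := by
    have hδ0 : δ ≠ 0 := by
      intro h
      rw [h] at eD et
      have : F p.D = F (p.top - 1) := by omega
      have := h1 _ _ (p.isV_of_bulk hbD) (p.isV_of_bulk hbt) this
      omega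
    have hdiff : (F (p.top - 1) : ℤ) - F p.D = δ * ((p.top : ℤ) - 1 - p.D) := by
      rw [et, eD]; ring
    by_contra hcon
    have hcases : δ ≥ 2 ∨ δ ≤ -2 := by omega
    rcases hcases with h | h
    · have : δ * ((p.top : ℤ) - 1 - p.D) ≥ 2 * ((p.top : ℤ) - 1 - p.D) :=
        mul_le_mul_of_nonneg_right h (by omega)
      omega
    · have : -δ * ((p.top : ℤ) - 1 - p.D) ≥ 2 * ((p.top : ℤ) - 1 - p.D) :=
        mul_le_mul_of_nonneg_right (by omega) (by omega)
      rw [neg_mul] at this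
      omega
  have helb : ∀ w, p.isE w → ¬ p.isHole w → elb (p.lo C) F w = w := fun w hw hh =>
    p.elb_bulk_affine hC hδ hF hw hh
  have hnot : ∀ v x, p.bulk v → F v = x → p.isE x → ¬ p.isHole x → False := by
    intro v x hv hvx hE hh
    exact h3 x v hE (p.isV_of_bulk hv) ((helb x hE hh).trans hvx.symm)
  have hKE : p.isE p.K := p.isE_small (le_refl _) hKD
  have hKh : ¬ p.isHole p.K := fun h => by have := p.hole_ge_D h; omega
  have hkK : k ≤ p.K := by
    have e := helb p.K hKE hKh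
    have := (h4 p.K).2 (Or.inr ⟨p.K, hKE, e⟩)
    exact this.1
  refine ⟨?_, helb, hkK⟩
  rcases hδ with h | h
  · -- `δ = 1`
    subst h
    have hc : c = 0 := by
      by_contra hc
      have hb1 : p.bulk (p.r 1) := p.bulk_r (by omega)
      have e1 := hF _ hb1
      have e2 : F (p.r 1) ≠ p.r 1 := by omega
      have := p.low_level (x := F (p.r 1)) (by omega) (by omega) e2
      exact hnot (p.r 1) _ hb1 rfl this.1 this.2
    intro v hv
    have := hF v hv
    omega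
  · -- `δ = -1`
    exfalso
    subst h
    -- the vertex with label `2 D - 1`
    have hc1 : (p.top : ℤ) ≤ c := by omega
    have hc2 : c ≤ p.top + p.D + k - p.k1 - 1 := by omega
    obtain ⟨v, hv⟩ : ∃ v : ℕ, (v : ℤ) = c - (2 * p.D - 1) := ⟨(c - (2 * p.D - 1)).toNat, by
      rw [Int.toNat_of_nonneg]; omega⟩
    have hbv : p.bulk v := by right; omega
    have e1 := hF v hbv
    have := p.low_level (x := F v) (by omega) (by omega) (by omega)
    exact hnot v _ hbv rfl this.1 this.2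

/-- hubs of gadgets are different -/
theorem hub_hole {z y x : ℕ} {a : ℤ} (hz1 : p.k1 ≤ z) (hz2 : z < p.K)
    (ha : a = p.ah (p.prv z - p.k1)) {t : ℤ} (ht1 : -(2 * p.K : ℤ) ≤ t) (ht2 : t ≤ 4 * p.K)
    (hx : (x : ℤ) = a - t) (hy : p.holeAt y x) :
    t = y ∧ p.prv y = p.prv z := by
  have hsz := p.size2
  have hHe := p.H_eq
  obtain ⟨y1, y2, y3⟩ := hy
  have b1 := p.prv_le z hz1 hz2
  have b2 := p.prv_le y y1 y2
  have b3 := p.k1_le _ (p.prv_mem z hz1 hz2)
  have b4 := p.k1_le _ (p.prv_mem y y1 y2)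
  have hr : ∀ i j, p.r i < p.r j + p.D → p.r j < p.r i + p.D → i = j := by
    intro i j h1 h2
    rcases lt_trichotomy i j with h | h | h
    · have := p.r_add_D_le h; omega
    · exact h
    · have := p.r_add_D_le h; omega
  unfold ah bh at *
  rcases y3 with y3 | y3
  · have := hr (p.H0 + 2 * (p.prv y - p.k1) + 2) (p.H0 + 2 * (p.prv z - p.k1) + 2)
      (by omega) (by omega)
    have e : p.prv y = p.prv z := by omega
    refine ⟨?_, e⟩
    rw [e] at y3
    omega
  · have := hr (2 * p.H - p.H0 - 2 * (p.prv y - p.k1)) (p.H0 + 2 * (p.prv z - p.k1) + 2)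
      (by omega) (by omega)
    omega

theorem hub_range {n : ℕ} (hn : n < p.K - p.k1) :
    p.r p.H0 ≤ p.ah n ∧ p.ah n + p.D ≤ p.bh n ∧ p.bh n ≤ p.r (2 * p.H - p.H0) := by
  have hHe := p.H_eq
  unfold ah bh
  exact ⟨p.r_le (by omega), p.r_add_D_le (by omega), p.r_le (by omega)⟩

theorem mid_span : p.r (2 * p.H - p.H0) < p.r p.H0 + p.r p.H0 := by
  have hsz := p.size2
  have hHe := p.H_eq
  have hH0 := p.H0_eq
  have hm := p.hm
  have key : ∀ t, p.r (p.H0 + t) ≤ p.r p.H0 + t * (2 * p.D) := by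
    intro t
    induction t with
    | zero => simp
    | succ t ih =>
      have e : p.r (p.H0 + (t + 1)) = p.r (p.H0 + t) + p.g (p.H0 + t) := p.r_succ _
      have := p.g_le (p.H0 + t)
      have e2 : (t + 1) * (2 * p.D) = t * (2 * p.D) + 2 * p.D := by ring
      omega
  have h1 := key (4 * (p.K - p.k1))
  rw [show p.H0 + 4 * (p.K - p.k1) = 2 * p.H - p.H0 by omega] at h1
  have h2 := p.r_lower p.H0
  have h3 : 4 * (p.K - p.k1) * (2 * p.D) ≤ p.H0 * p.D := by
    have : 4 * (p.K - p.k1) * 2 ≤ p.H0 := by omega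
    calc 4 * (p.K - p.k1) * (2 * p.D) = 4 * (p.K - p.k1) * 2 * p.D := by ring
      _ ≤ p.H0 * p.D := Nat.mul_le_mul_right _ this
  have h4 : (p.H0 + 1) * p.D = p.H0 * p.D + p.D := by ring
  have := p.D_pos
  omega

theorem hole_range {x : ℕ} (h : p.isHole x) : p.r p.H0 ≤ x ∧ x < p.r (2 * p.H - p.H0) := by
  obtain ⟨z, hz⟩ := h
  obtain ⟨l, a, b, e⟩ := p.hole_info hz
  have hz' := hz.2.1
  have hz1 := hz.1
  have := p.k1_pos
  have hK := p.K_lt_D
  have e1 := p.r_succ l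
  have := p.g_ge l
  have h1 := p.r_le a
  have h2 := p.r_le (show l + 1 ≤ 2 * p.H - p.H0 by omega)
  omega

/-- **Final analysis.** -/
theorem affine_mem {C : Finset ℕ} (hC : C ⊆ p.Slots) {k : ℕ} {F : ℕ → ℕ} (hk : 1 ≤ k)
    (hV : Valid p (p.lo C) k F) (hA : p.Affine (fun v => (F v : ℤ))) : k ∈ p.S := by
  obtain ⟨hid, helb, hkK⟩ := p.affine_id hC hk hV hA
  obtain ⟨h1, h2, h3, h4⟩ := hV
  have hK := p.K_pos
  have hKD := p.K_lt_D
  have hx := p.x0_lt_top
  have hDx : p.D < p.x0 := p.r_lt_x0 (Nat.zero_le _)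
  have hk1K := p.k1_le_K
  have hk1 := p.k1_pos
  have hsz := p.size2
  have hH := p.H_pos
  have hHe := p.H_eq
  have hH0 := p.H0_eq
  have htop : p.top = p.x0 + 2 * p.D := rfl
  have hN : p.N = p.top - p.k1 := rfl
  have hbt : p.bulk (p.top - 1) := by right; omega
  have hkk1 : p.k1 ≤ k := by
    have := (h4 (F (p.top - 1))).2 (Or.inl ⟨_, p.isV_of_bulk hbt, rfl⟩)
    rw [hid _ hbt] at this
    omega
  -- possible labels
  have hlab : ∀ x, k ≤ x → ¬ p.bulk x → ¬ (p.isE x ∧ ¬ p.isHole x) →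
      x < p.K ∨ p.top ≤ x ∨ p.isHole x := by
    intro x hxk hxb hxe
    by_cases c1 : x < p.K
    · exact Or.inl c1
    by_cases c2 : p.top ≤ x
    · exact Or.inr (Or.inl c2)
    right; right
    rcases p.isV_or_isE (v := x) (by omega) (by omega) with h | h
    · rcases h with h | h
      · omega
      · exact absurd h hxb
    · by_contra hh; exact hxe ⟨h, hh⟩
  have hlabV : ∀ z, p.k1 ≤ z → z < p.K → F z < p.K ∨ p.top ≤ F z ∨ p.isHole (F z) := by
    intro z z1 z2
    have hzV : p.isV z := Or.inl ⟨z1, z2⟩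
    have hr := (h4 (F z)).2 (Or.inl ⟨z, hzV, rfl⟩)
    apply hlab _ hr.1
    · intro hb
      have := h1 (F z) z (p.isV_of_bulk hb) hzV (hid _ hb)
      have hge := p.bulk_ge_D hb
      omega
    · rintro ⟨hE, hh⟩
      exact h3 (F z) z hE hzV (helb _ hE hh)
  have hlabE : ∀ w, p.isHole w → elb (p.lo C) F w < p.K ∨ p.top ≤ elb (p.lo C) F w ∨
      p.isHole (elb (p.lo C) F w) := by
    intro w hw
    have hwE := p.hole_isE hw
    have hr := (h4 (elb (p.lo C) F w)).2 (Or.inr ⟨w, hwE, rfl⟩)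
    apply hlab _ hr.1
    · intro hb
      exact h3 w _ hwE (p.isV_of_bulk hb) (hid _ hb).symm
    · rintro ⟨hE, hh⟩
      have := h2 _ _ hE hwE (helb _ hE hh)
      rw [this] at hh
      exact hh hw
  -- the two hole edges at `z`
  have hedge : ∀ z, p.k1 ≤ z → z < p.K →
      p.holeAt z (p.ah (p.prv z - p.k1) - z) ∧ p.holeAt z (p.bh (p.prv z - p.k1) - z) ∧
      elb (p.lo C) F (p.ah (p.prv z - p.k1) - z) = ((F z : ℤ) - p.ah (p.prv z - p.k1)).natAbs ∧
      elb (p.lo C) F (p.bh (p.prv z - p.k1) - z) = ((F z : ℤ) - p.bh (p.prv z - p.k1)).natAbs := by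
    intro z z1 z2
    have b1 := p.prv_le z z1 z2
    have b2 := p.k1_le _ (p.prv_mem z z1 z2)
    have hb := p.hub_bulk (n := p.prv z - p.k1) (by omega)
    have hg1 := p.bulk_ge_D hb.1
    have hg2 := p.bulk_ge_D hb.2
    have e1 : p.holeAt z (p.ah (p.prv z - p.k1) - z) := ⟨z1, z2, Or.inl (by omega)⟩
    have e2 : p.holeAt z (p.bh (p.prv z - p.k1) - z) := ⟨z1, z2, Or.inr (by omega)⟩
    refine ⟨e1, e2, ?_, ?_⟩
    · unfold elb
      rw [p.lo_hole e1, show z + (p.ah (p.prv z - p.k1) - z) = p.ah (p.prv z - p.k1) by omega,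
        hid _ hb.1]
    · unfold elb
      rw [p.lo_hole e2, show z + (p.bh (p.prv z - p.k1) - z) = p.bh (p.prv z - p.k1) by omega,
        hid _ hb.2]
  have hmid := p.mid_span
  -- the key claim
  have hpsi : ∀ z, p.k1 ≤ z → z < p.K → ∃ y, p.k1 ≤ y ∧ y < p.K ∧ p.prv y = p.prv z ∧
      ((F z = y ∧ k ≤ y) ∨ (F z + y = p.ah (p.prv z - p.k1) + p.bh (p.prv z - p.k1) ∧
        p.top ≤ F z ∧ F z + p.k1 < p.top + k)) := by
    intro z z1 z2
    have hzV : p.isV z := Or.inl ⟨z1, z2⟩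
    have hr := (h4 (F z)).2 (Or.inl ⟨z, hzV, rfl⟩)
    have b1 := p.prv_le z z1 z2
    have b2 := p.k1_le _ (p.prv_mem z z1 z2)
    have b3 := p.le_K _ (p.nxt_mem z z1 z2)
    have b4 := p.lt_nxt z z1 z2
    have hn : p.prv z - p.k1 < p.K - p.k1 := by omega
    have hs := p.hub_sum' z1 z2
    obtain ⟨g1, g2, g3⟩ := p.hub_range hn
    obtain ⟨e1, e2, e3, e4⟩ := hedge z z1 z2
    have hb := p.hub_bulk hn
    have hax : p.ah (p.prv z - p.k1) < p.x0 := p.r_lt_x0 (by omega)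
    have hbx : p.bh (p.prv z - p.k1) < p.x0 := p.r_lt_x0 (by omega)
    have hH0D := p.r_lower p.H0
    have hH0D2 : p.D ≤ (p.H0 + 1) * p.D := Nat.le_mul_of_pos_left _ (by omega)
    have l1 := hlabE _ ⟨z, e1⟩
    have l2 := hlabE _ ⟨z, e2⟩
    rw [e3] at l1
    rw [e4] at l2
    have hr1 := p.r_add_D_le (show 0 < p.H0 by omega)
    have hr0 := p.r_zero
    rcases hlabV z z1 z2 with hc | hc | hc
    · -- small label
      refine ⟨F z, ?_⟩
      rcases l1 with l1 | l1 | l1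
      · omega
      · omega
      · obtain ⟨y, hy⟩ := l1
        have := p.hub_hole z1 z2 (a := p.ah (p.prv z - p.k1)) rfl (t := (F z : ℤ)) (by omega)
          (by omega) (by omega) hy
        have hyz : F z = y := by omega
        rw [hyz]
        exact ⟨hy.1, hy.2.1, this.2, Or.inl ⟨rfl, by omega⟩⟩
    · -- large label
      rcases l2 with l2 | l2 | l2
      · omega
      · omega
      · obtain ⟨y, hy⟩ := l2
        have := p.hub_hole z1 z2 (a := p.ah (p.prv z - p.k1)) rfl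
          (t := (p.ah (p.prv z - p.k1) + p.bh (p.prv z - p.k1) : ℤ) - F z) (by omega)
          (by omega) (by omega) hy
        refine ⟨y, hy.1, hy.2.1, this.2, Or.inr ⟨by omega, by omega, by omega⟩⟩
    · -- hole label: impossible
      exfalso
      have hr' := p.hole_range hc
      have c1 : ∀ x, p.r p.H0 ≤ x → x ≤ p.r (2 * p.H - p.H0) →
          (((F z : ℤ) - x).natAbs < p.K ∨ p.top ≤ ((F z : ℤ) - x).natAbs ∨
            p.isHole ((F z : ℤ) - x).natAbs) → ((F z : ℤ) - x).natAbs < p.K := by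
        intro x hx1 hx2 h
        have hlt : ((F z : ℤ) - x).natAbs < p.r p.H0 := by omega
        have hlt2 : p.r p.H0 < p.x0 := p.r_lt_x0 (by omega)
        rcases h with h | h | h
        · exact h
        · omega
        · have := (p.hole_range h).1; omega
      have d1 := c1 _ g1 (by omega) l1
      have d2 := c1 _ (by omega) g3 l2
      omega
  choose! ψ hψ using hpsi
  -- `ψ` is injective on `[k1, K)`
  have hinj : ∀ z ∈ Ico p.k1 p.K, ∀ z' ∈ Ico p.k1 p.K, ψ z = ψ z' → z = z' := by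
    intro z hz z' hz' he
    rw [mem_Ico] at hz hz'
    obtain ⟨a1, a2, a3, a4⟩ := hψ z hz.1 hz.2
    obtain ⟨b1, b2, b3, b4⟩ := hψ z' hz'.1 hz'.2
    have hzV : p.isV z := Or.inl hz
    have hzV' : p.isV z' := Or.inl hz'
    have hpp : p.prv z = p.prv z' := by rw [← a3, ← b3, he]
    have c1 := p.prv_le z hz.1 hz.2
    have c2 := p.k1_le _ (p.prv_mem z hz.1 hz.2)
    have hn : p.prv z - p.k1 < p.K - p.k1 := by omega
    obtain ⟨g1, g2, g3⟩ := p.hub_range hn
    obtain ⟨e1, e2, e3, e4⟩ := hedge z hz.1 hz.2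
    obtain ⟨f1, f2, f3, f4⟩ := hedge z' hz'.1 hz'.2
    rw [← hpp] at b4 f1 f2 f3 f4
    have hH0D := p.r_lower p.H0
    have hH0D2 : p.D ≤ (p.H0 + 1) * p.D := Nat.le_mul_of_pos_left _ (by omega)
    have hs := p.hub_sum' hz.1 hz.2
    rcases a4 with a4 | a4 <;> rcases b4 with b4 | b4
    · exact h1 z z' hzV hzV' (by omega)
    · exfalso
      have := h2 _ _ (p.hole_isE ⟨z, e1⟩) (p.hole_isE ⟨z', f2⟩) (by rw [e3, f4]; omega)
      omega
    · exfalso
      have := h2 _ _ (p.hole_isE ⟨z, e2⟩) (p.hole_isE ⟨z', f1⟩) (by rw [e4, f3]; omega)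
      omega
    · exact h1 z z' hzV hzV' (by omega)
  have hmaps : ∀ z ∈ Ico p.k1 p.K, ψ z ∈ Ico p.k1 p.K := by
    intro z hz
    rw [mem_Ico] at hz ⊢
    obtain ⟨a1, a2, _⟩ := hψ z hz.1 hz.2
    exact ⟨a1, a2⟩
  have hsurj : ∀ y ∈ Ico p.k1 p.K, ∃ z ∈ Ico p.k1 p.K, ψ z = y := by
    intro y hy
    obtain ⟨z, hz, h⟩ := Finset.surj_on_of_inj_on_of_card_le (s := Ico p.k1 p.K)
      (t := Ico p.k1 p.K) (fun z _ => ψ z) hmaps
      (fun a b ha hb h => hinj a ha b hb h) (le_refl _) y hy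
    exact ⟨z, hz, h.symm⟩
  -- conclusion
  by_contra hkS
  have hk2 : k < p.K := lt_of_le_of_ne hkK (fun h => hkS (by rw [h]; exact p.K_mem))
  have a1 := p.prv_mem k hkk1 hk2
  have a2 := p.prv_le k hkk1 hk2
  have a3 := p.lt_nxt k hkk1 hk2
  have a4 := p.k1_le _ a1
  have a5 : p.prv k ≠ k := fun h => hkS (by rw [← h]; exact a1)
  obtain ⟨z, hz, hzy⟩ := hsurj (p.prv k) (by rw [mem_Ico]; omega)
  rw [mem_Ico] at hz
  obtain ⟨b1, b2, b3, b4⟩ := hψ z hz.1 hz.2
  rw [hzy] at b3 b4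
  have c1 := p.nxt_prv hkk1 hk2
  rw [c1.2] at b3
  have hs := p.hub_sum' hz.1 hz.2
  have c2 := p.nxt_prv hz.1 hz.2
  have c3 : p.nxt z = p.nxt k := by rw [← c2.1, ← b3, c1.1]
  rw [c3] at hs
  rcases b4 with b4 | b4
  · omega
  · rw [← b3] at b4 hs
    omega

end Par

end Pool.Agent.Helper791.Seq
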