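import Pool.Agent.Helper791Seq.Final

set_option autoImplicit false

/-! # Graceful numberings of the cone: definitions and final analysis -/

namespace Pool.Agent.Helper791.Seq

open Finset Classical

variable (p : Par)

namespace Par

/-- vertices of the cone: the apex `0` and the vertices of the graph -/
def isV' (v : ℕ) : Prop := v = 0 ∨ p.isV v
/-- edge labels of the cone -/
def isE' (w : ℕ) : Prop := p.k1 ≤ w ∧ w < p.top
noncomputable def lo' (C : Finset ℕ) (w : ℕ) : ℕ := if p.isV w then 0 else p.lo C w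

end Par

/-- `F` is a `k`-graceful numbering of the cone. -/
def GValid (l : ℕ → ℕ) (k : ℕ) (F : ℕ → ℕ) : Prop :=
  (∀ u v, p.isV' u → p.isV' v → F u = F v → u = v) ∧
  (∀ v, p.isV' v → F v < p.N + k) ∧
  (∀ m, k ≤ m → m < k + p.N → ∃ w, p.isE' w ∧ elb l F w = m)

variable {p}

theorem GValid.labels {l : ℕ → ℕ} {k : ℕ} {F : ℕ → ℕ} (h : GValid p l k F) :
    (∀ w, p.isE' w → k ≤ elb l F w ∧ elb l F w < k + p.N) ∧
    (∀ w w', p.isE' w → p.isE' w' → elb l F w = elb l F w' → w = w') := by
  have hsub : Ico k (k + p.N) ⊆ (Ico p.k1 p.top).image (elb l F) := by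
    intro m hm
    rw [mem_Ico] at hm
    obtain ⟨w, hw, he⟩ := h.2.2 m hm.1 hm.2
    rw [mem_image]
    exact ⟨w, mem_Ico.2 hw, he⟩
  have hc1 : (Ico k (k + p.N)).card = p.N := by rw [Nat.card_Ico]; omega
  have hc2 : (Ico p.k1 p.top).card = p.N := by rw [Nat.card_Ico]; rfl
  have hle : ((Ico p.k1 p.top).image (elb l F)).card ≤ (Ico k (k + p.N)).card := by
    rw [hc1, ← hc2]; exact card_image_le
  have heq := Finset.eq_of_subset_of_card_le hsub hle
  constructor
  · intro w hw
    have : elb l F w ∈ (Ico p.k1 p.top).image (elb l F) := mem_image_of_mem _ (mem_Ico.2 hw)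
    rw [← heq, mem_Ico] at this
    exact this
  · have hinj : Set.InjOn (elb l F) (Ico p.k1 p.top : Finset ℕ) := by
      rw [← Finset.card_image_iff, ← heq, hc1, hc2]
    intro w w' hw hw' he
    exact hinj (mem_coe.2 (mem_Ico.2 hw)) (mem_coe.2 (mem_Ico.2 hw')) he

variable (p)

namespace Par

theorem isE'_iff {w : ℕ} : p.isE' w ↔ p.isV w ∨ p.isE w := by
  constructor
  · rintro ⟨h1, h2⟩; exact p.isV_or_isE h1 h2
  · rintro (h | h)
    · exact ⟨p.isV_ge_k1 h, p.isV_lt_top h⟩
    · exact ⟨le_trans p.k1_le_K h.1, p.isE_lt_top h⟩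

theorem isV_pos {v : ℕ} (h : p.isV v) : 1 ≤ v := le_trans p.k1_pos (p.isV_ge_k1 h)

theorem lo'_V {C : Finset ℕ} {w : ℕ} (h : p.isV w) : p.lo' C w = 0 := by
  unfold lo'; rw [if_pos h]

theorem lo'_E {C : Finset ℕ} {w : ℕ} (h : p.isE w) : p.lo' C w = p.lo C w := by
  unfold lo'; rw [if_neg (p.isE_not_isV h)]

theorem elb'_V {C : Finset ℕ} {F : ℕ → ℕ} {w : ℕ} (h : p.isV w) :
    elb (p.lo' C) F w = ((F 0 : ℤ) - (F w : ℤ)).natAbs := by
  unfold elb; rw [p.lo'_V h, zero_add]

theorem elb'_E {C : Finset ℕ} {F : ℕ → ℕ} {w : ℕ} (h : p.isE w) :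
    elb (p.lo' C) F w = elb (p.lo C) F w := by
  unfold elb; rw [p.lo'_E h]

/-- if all vertices lie on the same side of the apex we get a sequential numbering -/
theorem gvalid_valid {C : Finset ℕ} (hC : C ⊆ p.Slots) {k : ℕ} {F F' : ℕ → ℕ} (hk : 1 ≤ k)
    (hV : GValid p (p.lo' C) k F) (hside : ∀ v, p.isV v → F 0 ≤ F v)
    (hF' : ∀ v, F' v = F v - F 0) :
    Valid p (p.lo C) k F' := by
  obtain ⟨hl1, hl2⟩ := hV.labels
  obtain ⟨h1, h2, h3⟩ := hV
  have hlab : ∀ v, p.isV v → elb (p.lo' C) F v = F' v := by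
    intro v hv
    have := hside v hv
    have := hF' v
    rw [p.elb'_V hv]; omega
  have hlabE : ∀ w, p.isE w → elb (p.lo C) F' w = elb (p.lo' C) F w := by
    intro w hw
    have h := p.lo_isV hC hw
    have s1 := hside _ h.1
    have s2 := hside _ h.2
    have s3 := hF' (p.lo C w)
    have s4 := hF' (p.lo C w + w)
    rw [p.elb'_E hw]
    unfold elb
    omega
  refine ⟨?_, ?_, ?_, ?_⟩
  · intro u v hu hv h
    have s1 := hside _ hu
    have s2 := hside _ hv
    have s3 := hF' u
    have s4 := hF' v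
    exact h1 u v (Or.inr hu) (Or.inr hv) (by omega)
  · intro w w' hw hw' h
    rw [hlabE w hw, hlabE w' hw'] at h
    exact hl2 w w' (p.isE'_iff.2 (Or.inr hw)) (p.isE'_iff.2 (Or.inr hw')) h
  · intro w v hw hv h
    rw [hlabE w hw, ← hlab v hv] at h
    have := hl2 w v (p.isE'_iff.2 (Or.inr hw)) (p.isE'_iff.2 (Or.inl hv)) h
    subst this
    exact p.isE_not_isV hw hv
  · intro n
    constructor
    · intro hn
      obtain ⟨w, hw, he⟩ := h3 n (by omega) (by omega)
      rcases p.isE'_iff.1 hw with h | h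
      · left; exact ⟨w, h, by rw [← hlab w h]; exact he⟩
      · right; exact ⟨w, h, by rw [hlabE w h]; exact he⟩
    · rintro (⟨v, hv, he⟩ | ⟨w, hw, he⟩)
      · have := hl1 v (p.isE'_iff.2 (Or.inl hv))
        rw [hlab v hv] at this
        omega
      · have := hl1 w (p.isE'_iff.2 (Or.inr hw))
        rw [← hlabE w hw, he] at this
        omega

/-- reflection of a graceful numbering -/
theorem gvalid_reflect {C : Finset ℕ} (hC : C ⊆ p.Slots) {k : ℕ} {F F' : ℕ → ℕ}
    (hV : GValid p (p.lo' C) k F) (hF' : ∀ v, F' v = p.N + k - 1 - F v) :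
    GValid p (p.lo' C) k F' := by
  obtain ⟨h1, h2, h3⟩ := hV
  refine ⟨?_, ?_, ?_⟩
  · intro u v hu hv h
    have s1 := h2 _ hu
    have s2 := h2 _ hv
    have s3 := hF' u
    have s4 := hF' v
    exact h1 u v hu hv (by omega)
  · intro v hv
    have s1 := h2 _ hv
    have s3 := hF' v
    omega
  · intro m hm1 hm2
    obtain ⟨w, hw, he⟩ := h3 m hm1 hm2
    refine ⟨w, hw, ?_⟩
    have h0 := h2 0 (Or.inl rfl)
    have s0 := hF' 0
    rcases p.isE'_iff.1 hw with h | h
    · have hv := h2 w (Or.inr h)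
      have s1 := hF' w
      rw [p.elb'_V h] at he ⊢
      omega
    · have hlo := p.lo_isV hC h
      have s1 := h2 _ (Or.inr hlo.1)
      have s2 := h2 _ (Or.inr hlo.2)
      have s3 := hF' (p.lo C w)
      have s4 := hF' (p.lo C w + w)
      rw [p.elb'_E h] at he ⊢
      unfold elb at he ⊢
      omega

/-- final analysis, orientation preserving case -/
theorem g_affine_pos {C : Finset ℕ} (hC : C ⊆ p.Slots) {k : ℕ} {F : ℕ → ℕ} (hk : 1 ≤ k)
    (hV : GValid p (p.lo' C) k F) {c : ℤ} (hF : ∀ v, p.bulk v → (F v : ℤ) = c + v) :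
    k ∈ p.S := by
  obtain ⟨hl1, hl2⟩ := hV.labels
  have hV' := hV
  obtain ⟨h1, h2, h3⟩ := hV
  have hK := p.K_pos
  have hKD := p.K_lt_D
  have hx := p.x0_lt_top
  have hDx : p.D < p.x0 := p.r_lt_x0 (Nat.zero_le _)
  have hk1K := p.k1_le_K
  have hk1 := p.k1_pos
  have hsz := p.size2
  have hH := p.H_pos
  have hH0 := p.H0_pos
  have htop : p.top = p.x0 + 2 * p.D := rfl
  have hN : p.N = p.top - p.k1 := rfl
  have hr1 := p.r1_eq
  have hr2 := p.r2_eq
  have hbD : p.bulk p.D := by have := p.bulk_r (j := 0) (by omega); rwa [p.r_zero] at this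
  have hbt : p.bulk (p.top - 1) := by right; omega
  have helb : ∀ w, p.isE w → ¬ p.isHole w → elb (p.lo' C) F w = w := by
    intro w hw hh
    rw [p.elb'_E hw]
    exact p.elb_bulk_affine hC (Or.inl rfl) (fun v hv => by rw [hF v hv]; ring) hw hh
  have hkK : k ≤ p.K := by
    have hKE : p.isE p.K := p.isE_small (le_refl _) hKD
    have hKh : ¬ p.isHole p.K := fun h => by have := p.hole_ge_D h; omega
    have e := helb p.K hKE hKh
    have := (hl1 p.K (p.isE'_iff.2 (Or.inr hKE))).1
    omega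
  -- apex labels avoid edge labels
  have hav : ∀ v x : ℕ, p.bulk v → ((F 0 : ℤ) - (F v : ℤ)).natAbs = x → p.isE x →
      ¬ p.isHole x → False := by
    intro v x hv hx' hE hh
    have e1 := p.elb'_V (C := C) (F := F) (p.isV_of_bulk hv)
    rw [hx'] at e1
    have e2 := helb x hE hh
    have := hl2 v x (p.isE'_iff.2 (Or.inl (p.isV_of_bulk hv))) (p.isE'_iff.2 (Or.inr hE))
      (e1.trans e2.symm)
    subst this
    exact p.isE_not_isV hE (p.isV_of_bulk hv)
  have eD := hF _ hbD
  have et := hF _ hbt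
  have rt := h2 _ (Or.inr (p.isV_of_bulk hbt))
  have r0 := h2 0 (Or.inl rfl)
  have h2D1 : p.isE (2 * p.D - 1) ∧ ¬ p.isHole (2 * p.D - 1) :=
    p.low_level (by omega) (by omega) (by omega)
  have hnb : ∀ v, p.bulk v → (F 0 : ℤ) ≠ c + v := by
    intro v hv h
    have := h1 0 v (Or.inl rfl) (Or.inr (p.isV_of_bulk hv)) (by have := hF v hv; omega)
    have := p.bulk_ge_D hv
    omega
  -- the apex is to the left
  have he : (F 0 : ℤ) ≤ c := by
    by_contra hcon
    obtain ⟨e, he⟩ : ∃ e : ℕ, (F 0 : ℤ) = c + e := ⟨((F 0 : ℤ) - c).toNat, by omega⟩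
    have hee : ∀ v, p.bulk v → v ≠ e := fun v hv h => hnb v hv (by rw [h]; exact he)
    have he0 : 1 ≤ e := by omega
    rcases Nat.lt_or_ge e p.top with hlt | hge
    · rcases Nat.lt_or_ge e p.x0 with hlt2 | hge2
      · rcases Nat.lt_or_ge (2 * p.D) e with h2De | h2De
        · -- `y = x0 - e`
          rcases Nat.lt_or_ge p.D (p.x0 - e) with hy | hy
          · -- level of `y`
            have hx2 := p.x0_eq
            obtain ⟨l, hl1', hl2'⟩ : ∃ l, p.r l ≤ p.x0 - e ∧ p.x0 - e < p.r (l + 1) := by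
              have ex : ∃ l, p.x0 - e < p.r (l + 1) :=
                ⟨2 * p.H, by have : p.r (2 * p.H + 1) = p.x0 := rfl; omega⟩
              refine ⟨Nat.find ex, ?_, Nat.find_spec ex⟩
              rcases Nat.eq_zero_or_pos (Nat.find ex) with h0 | h0
              · rw [h0, p.r_zero]; omega
              · have := Nat.find_min ex (m := Nat.find ex - 1) (by omega)
                rw [show Nat.find ex - 1 + 1 = Nat.find ex by omega] at this
                omega
            have hlH : l + 1 ≤ 2 * p.H := by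
              by_contra h
              have := p.r_le (show 2 * p.H ≤ l by omega)
              omega
            have hg := p.g_le l
            have hrs := p.r_succ l
            have hrs2 := p.r_succ (l + 1)
            have hg2 := p.g_ge (l + 1)
            have hE : p.isE (p.r (l + 1) + 1) :=
              p.isE_lat (l := l + 1) hlH (by omega) (by omega)
            have hh : ¬ p.isHole (p.r (l + 1) + 1) := by
              intro hh
              have := (p.hole_lev hh (l := l + 1) (by omega) (by omega)).2.2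
              omega
            have hbv : p.bulk (e + (p.r (l + 1) + 1)) := by right; omega
            exact hav _ (p.r (l + 1) + 1) hbv (by rw [hF _ hbv]; push_cast; omega) hE hh
          · have hbv : p.bulk (e + (2 * p.D - 1)) := by right; omega
            exact hav _ (2 * p.D - 1) hbv (by rw [hF _ hbv]; push_cast; omega) h2D1.1 h2D1.2
        · have hx2 := p.x0_eq
          have hE : p.isE (p.x0 - 1) := p.isE_lat (l := 2 * p.H) (le_refl _) (by omega) (by
            have : p.r (2 * p.H + 1) = p.x0 := rfl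
            omega)
          have hh : ¬ p.isHole (p.x0 - 1) := by
            intro hh
            have := (p.hole_lev hh (l := 2 * p.H) (by omega) (by
              have : p.r (2 * p.H + 1) = p.x0 := rfl
              omega)).2.1
            omega
          have hbv : p.bulk (e + (p.x0 - 1)) := by right; omega
          exact hav _ (p.x0 - 1) hbv (by rw [hF _ hbv]; push_cast; omega) hE hh
      · exact hee e (Or.inr ⟨hge2, hlt⟩) rfl
    · have hbv : p.bulk (e - (2 * p.D - 1)) := by right; omega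
      exact hav _ (2 * p.D - 1) hbv (by rw [hF _ hbv]; omega) h2D1.1 h2D1.2
  -- everything is to the right of the apex
  have hside : ∀ v, p.isV v → F 0 ≤ F v := by
    intro v hv
    by_contra hcon
    rcases hv with hz | hb
    · have hzV : p.isV v := Or.inl hz
      have := (hl1 v (p.isE'_iff.2 (Or.inl hzV))).1
      rw [p.elb'_V hzV] at this
      omega
    · have := hF v hb
      omega
  have hval := p.gvalid_valid (F' := fun v => F v - F 0) hC hk hV' hside (fun v => rfl)
  apply p.affine_mem hC hk hval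
  refine ⟨1, c - F 0, ?_⟩
  intro v hv
  have e1 := hF v hv
  have e2 := hside v (p.isV_of_bulk hv)
  show (((F v - F 0 : ℕ)) : ℤ) = c - F 0 + 1 * v
  rw [Nat.cast_sub e2, e1]; ring

/-- **Final analysis for the cone.** -/
theorem g_affine_mem {C : Finset ℕ} (hC : C ⊆ p.Slots) {k : ℕ} {F : ℕ → ℕ} (hk : 1 ≤ k)
    (hV : GValid p (p.lo' C) k F) (hA : p.Affine (fun v => (F v : ℤ))) : k ∈ p.S := by
  obtain ⟨δ, c, hF0⟩ := hA
  have hF : ∀ v, p.bulk v → (F v : ℤ) = c + δ * v := hF0
  obtain ⟨hl1, hl2⟩ := hV.labels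
  have hK := p.K_pos
  have hKD := p.K_lt_D
  have hx := p.x0_lt_top
  have hDx : p.D < p.x0 := p.r_lt_x0 (Nat.zero_le _)
  have hk1K := p.k1_le_K
  have hk1 := p.k1_pos
  have hsz := p.size2
  have hH := p.H_pos
  have htop : p.top = p.x0 + 2 * p.D := rfl
  have hN : p.N = p.top - p.k1 := rfl
  have hr2 := p.r2_eq
  have hr2x : p.r 2 < p.x0 := p.r_lt_x0 (by omega)
  have hbD : p.bulk p.D := by have := p.bulk_r (j := 0) (by omega); rwa [p.r_zero] at this
  have hbt : p.bulk (p.top - 1) := by right; omega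
  have eD := hF _ hbD
  have et := hF _ hbt
  have rD := hV.2.1 _ (Or.inr (p.isV_of_bulk hbD))
  have rt := hV.2.1 _ (Or.inr (p.isV_of_bulk hbt))
  rw [Nat.cast_sub (by omega)] at et
  push_cast at eD et
  -- the edge with label `K`
  have hKE : p.isE p.K := p.isE_small (le_refl _) hKD
  have hKh : ¬ p.isHole p.K := fun h => by have := p.hole_ge_D h; omega
  have hKb : p.bulk (p.lo C p.K) ∧ p.bulk (p.lo C p.K + p.K) := by
    by_cases hw : p.K ∈ C
    · rw [p.lo_mem hKh hw]; exact p.link_bulk (p.mem_Slots.1 (hC hw))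
    · rw [p.lo_not_mem hKh hw]; exact p.base_bulk hKE
  have hKlab : (elb (p.lo' C) F p.K : ℤ) = |δ| * p.K := by
    rw [p.elb'_E hKE]
    unfold elb
    rw [hF _ hKb.1, hF _ hKb.2, Int.natCast_natAbs]
    push_cast
    rw [show c + δ * (p.lo C p.K : ℤ) - (c + δ * ((p.lo C p.K : ℤ) + p.K)) = -(δ * p.K) by ring,
      abs_neg, abs_mul, Nat.abs_cast]
  have hkδ : (k : ℤ) ≤ |δ| * p.K := by
    have := (hl1 p.K (p.isE'_iff.2 (Or.inr hKE))).1
    rw [← hKlab]; exact_mod_cast this
  have hspan : (p.top : ℤ) - 1 - p.D ≥ 1 := by omega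
  have hδ0 : δ ≠ 0 := by
    intro h
    rw [h] at eD et
    have : F p.D = F (p.top - 1) := by omega
    have := hV.1 _ _ (Or.inr (p.isV_of_bulk hbD)) (Or.inr (p.isV_of_bulk hbt)) this
    omega
  have hdiff : (F (p.top - 1) : ℤ) - F p.D = δ * ((p.top : ℤ) - 1 - p.D) := by
    rw [et, eD]; ring
  have habs : |δ| * ((p.top : ℤ) - 1 - p.D) ≤ p.N + k - 1 := by
    have h1 : |δ| * ((p.top : ℤ) - 1 - p.D) = |(F (p.top - 1) : ℤ) - F p.D| := by
      rw [hdiff, abs_mul, abs_of_nonneg (show (0 : ℤ) ≤ (p.top : ℤ) - 1 - p.D by omega)]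
    rw [h1, abs_le]
    omega
  have hδ1 : |δ| ≤ 1 := by
    by_contra hcon
    have h2 : (2 : ℤ) ≤ |δ| := by omega
    have h3 : |δ| * ((p.top : ℤ) - 1 - p.D - p.K) ≤ (p.top : ℤ) := by
      have : |δ| * ((p.top : ℤ) - 1 - p.D - p.K) =
          |δ| * ((p.top : ℤ) - 1 - p.D) - |δ| * p.K := by ring
      rw [this]; omega
    have h4 : 2 * ((p.top : ℤ) - 1 - p.D - p.K) ≤ |δ| * ((p.top : ℤ) - 1 - p.D - p.K) :=
      mul_le_mul_of_nonneg_right h2 (by omega)
    omega
  have hδ : δ = 1 ∨ δ = -1 := by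
    rw [abs_le] at hδ1
    omega
  rcases hδ with h | h
  · subst h
    exact p.g_affine_pos hC hk hV (c := c) (fun v hv => by rw [hF v hv]; ring)
  · subst h
    have hR := p.gvalid_reflect (F' := fun v => p.N + k - 1 - F v) hC hV (fun v => rfl)
    apply p.g_affine_pos hC hk hR (c := (p.N + k - 1 : ℤ) - c)
    intro v hv
    have h1 := hF v hv
    have h2 := hV.2.1 v (Or.inr (p.isV_of_bulk hv))
    show (((p.N + k - 1 - F v : ℕ)) : ℤ) = _
    omega

end Par

end Pool.Agent.Helper791.Seq
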