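import Mathlib

set_option autoImplicit false

/-! # Numerical estimates -/

namespace Pool.Agent.Helper791.Seq

open Filter Topology

theorem ev_small (k : ℕ) (r ε : ℝ) (h0 : 0 ≤ r) (h1 : r < 1) (hε : 0 < ε) :
    ∀ᶠ n : ℕ in atTop, (n : ℝ) ^ k * r ^ n ≤ ε := by
  have h := tendsto_pow_const_mul_const_pow_of_abs_lt_one k (r := r) (by rwa [abs_of_nonneg h0])
  exact (h.eventually (gt_mem_nhds hε)).mono (fun n hn => hn.le)

theorem exists_n (K : ℕ) : ∃ n : ℕ, 2 * K + 3 ≤ n ∧ 2600 ≤ n ∧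
    (n : ℝ) ^ 45 * (7 / 8 : ℝ) ^ n ≤ 1 / 100 ∧
    (n : ℝ) ^ (16 + 12 * K) * (7 / 8 : ℝ) ^ n ≤ 1 / 100 ∧
    (n : ℝ) ^ 6 * (47 / 50 : ℝ) ^ n ≤ 1 / 400 ∧
    (n : ℝ) ^ 2 * (1 / 2 : ℝ) ^ n ≤ 1 / 4200 := by
  have e1 := ev_small 45 (7 / 8) (1 / 100) (by norm_num) (by norm_num) (by norm_num)
  have e2 := ev_small (16 + 12 * K) (7 / 8) (1 / 100) (by norm_num) (by norm_num) (by norm_num)
  have e3 := ev_small 6 (47 / 50) (1 / 400) (by norm_num) (by norm_num) (by norm_num)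
  have e4 := ev_small 2 (1 / 2) (1 / 4200) (by norm_num) (by norm_num) (by norm_num)
  have e5 := eventually_ge_atTop (2 * K + 3)
  have e6 := eventually_ge_atTop 2600
  obtain ⟨n, h1, h2, h3, h4, h5, h6⟩ :=
    (e5.and (e6.and (e1.and (e2.and (e3.and e4))))).exists
  exact ⟨n, h1, h2, h3, h4, h5, h6⟩

theorem numeric (K : ℕ) : ∃ m : ℕ, 2 * K + 2 ≤ m ∧ ∀ D H top : ℕ, D = 100 * (m + 1) ^ 2 →
    H ≤ 5 * m + 4 → top ≤ 1300 * (m + 1) ^ 3 →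
    (top : ℝ) * ((7 / 8 : ℝ) ^ (D - 2 * K - 2) * ((2 * top : ℕ) : ℝ) ^ (2 * H + 2 + K) *
        (1 + ((2 * top : ℕ) : ℝ) * (7 / 8) ^ ((m - 1) / 2)) ^ (2 * D) +
      (7 / 8 : ℝ) ^ (m - 1) * ((2 * top : ℕ) : ℝ) ^ (3 + 3 * K) *
        (1 + ((2 * top : ℕ) : ℝ) * (7 / 8) ^ ((m - 1) / 2)) ^ (2 * D)) +
      (2 * H + 1 + 2 * D) * (1 / 2 : ℝ) ^ m < 1 := by
  obtain ⟨n, h1, h2, h3, h4, h5, h6⟩ := exists_n K
  refine ⟨n - 1, by omega, ?_⟩
  intro D H top hD hH htop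
  have hn : n - 1 + 1 = n := by omega
  rw [hn] at hD htop
  have hnR : (2600 : ℝ) ≤ n := by exact_mod_cast h2
  have hn0 : (0 : ℝ) < n := by linarith
  have hn1 : (1 : ℝ) ≤ n := by linarith
  -- bound for `2 * top`
  have hM : ((2 * top : ℕ) : ℝ) ≤ (n : ℝ) ^ 4 := by
    have e1 : 2 * top ≤ 2600 * n ^ 3 := by omega
    have e2 : 2600 * n ^ 3 ≤ n * n ^ 3 := Nat.mul_le_mul_right _ h2
    have e3 : n * n ^ 3 = n ^ 4 := by ring
    have e4 : 2 * top ≤ n ^ 4 := by omega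
    exact_mod_cast e4
  have htopR : (top : ℝ) ≤ (n : ℝ) ^ 4 := by
    refine le_trans ?_ hM
    push_cast
    have : (0 : ℝ) ≤ top := Nat.cast_nonneg _
    linarith
  have hDR : (D : ℝ) = 100 * (n : ℝ) ^ 2 := by rw [hD]; push_cast; ring
  -- the common factor
  have hcf : (1 + ((2 * top : ℕ) : ℝ) * (7 / 8) ^ ((n - 1 - 1) / 2)) ^ (2 * D) ≤ 3 := by
    have a1 : ((7 / 8 : ℝ)) ^ ((n - 1 - 1) / 2) ≤ 2 * (47 / 50 : ℝ) ^ n := by
      have b1 : ((7 / 8 : ℝ)) ^ ((n - 1 - 1) / 2) ≤ ((47 / 50 : ℝ) ^ 2) ^ ((n - 1 - 1) / 2) :=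
        pow_le_pow_left₀ (by norm_num) (by norm_num) _
      rw [← pow_mul] at b1
      have b2 : (47 / 50 : ℝ) ^ (2 * ((n - 1 - 1) / 2)) ≤ (47 / 50 : ℝ) ^ (n - 3) :=
        pow_le_pow_of_le_one (by norm_num) (by norm_num) (by omega)
      have b3 : (47 / 50 : ℝ) ^ n = (47 / 50 : ℝ) ^ (n - 3) * (47 / 50 : ℝ) ^ 3 := by
        rw [← pow_add]; congr 1; omega
      have b4 : (47 / 50 : ℝ) ^ (n - 3) ≤ 2 * ((47 / 50 : ℝ) ^ (n - 3) * (47 / 50 : ℝ) ^ 3) := by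
        have : (0 : ℝ) ≤ (47 / 50 : ℝ) ^ (n - 3) := by positivity
        nlinarith
      rw [b3]
      exact b1.trans (b2.trans b4)
    have a2 : ((2 * top : ℕ) : ℝ) * (7 / 8) ^ ((n - 1 - 1) / 2) ≤
        (n : ℝ) ^ 4 * (2 * (47 / 50 : ℝ) ^ n) :=
      mul_le_mul hM a1 (by positivity) (by positivity)
    set x := ((2 * top : ℕ) : ℝ) * (7 / 8) ^ ((n - 1 - 1) / 2) with hx
    have hx0 : 0 ≤ x := by positivity
    have a3 : (2 * D : ℕ) * x ≤ 1 := by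
      push_cast
      rw [hDR]
      calc 2 * (100 * (n : ℝ) ^ 2) * x ≤ 2 * (100 * (n : ℝ) ^ 2) *
            ((n : ℝ) ^ 4 * (2 * (47 / 50 : ℝ) ^ n)) :=
            mul_le_mul_of_nonneg_left a2 (by positivity)
        _ = 400 * ((n : ℝ) ^ 6 * (47 / 50 : ℝ) ^ n) := by ring
        _ ≤ 400 * (1 / 400) := mul_le_mul_of_nonneg_left h5 (by norm_num)
        _ = 1 := by norm_num
    calc (1 + x) ^ (2 * D) ≤ (Real.exp x) ^ (2 * D) := by
          apply pow_le_pow_left₀ (by linarith)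
          have := Real.add_one_le_exp x
          linarith
      _ = Real.exp ((2 * D : ℕ) * x) := by rw [← Real.exp_nat_mul]
      _ ≤ Real.exp 1 := Real.exp_le_exp.2 a3
      _ ≤ 3 := by
        have := Real.exp_one_lt_d9
        linarith
  set cf := (1 + ((2 * top : ℕ) : ℝ) * (7 / 8) ^ ((n - 1 - 1) / 2)) ^ (2 * D) with hcfd
  have hcf0 : 0 ≤ cf := by positivity
  -- first term
  have t1 : (top : ℝ) * ((7 / 8 : ℝ) ^ (D - 2 * K - 2) *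
      ((2 * top : ℕ) : ℝ) ^ (2 * H + 2 + K) * cf) ≤ 3 / 100 := by
    have a1 : (7 / 8 : ℝ) ^ (D - 2 * K - 2) ≤ ((7 / 8 : ℝ) ^ n) ^ n := by
      rw [← pow_mul]
      apply pow_le_pow_of_le_one (by norm_num) (by norm_num)
      have : n * n ≤ D - 2 * K - 2 := by
        rw [hD]
        have : 2 * K + 2 ≤ n * n := by nlinarith
        have e : 100 * n ^ 2 = 100 * (n * n) := by ring
        omega
      exact this
    have a2 : ((2 * top : ℕ) : ℝ) ^ (2 * H + 2 + K) ≤ ((n : ℝ) ^ 44) ^ n := by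
      calc ((2 * top : ℕ) : ℝ) ^ (2 * H + 2 + K) ≤ ((n : ℝ) ^ 4) ^ (2 * H + 2 + K) :=
            pow_le_pow_left₀ (by positivity) hM _
        _ ≤ ((n : ℝ) ^ 4) ^ (11 * n) :=
            pow_le_pow_right₀ (one_le_pow₀ hn1) (by omega)
        _ = ((n : ℝ) ^ 44) ^ n := by rw [← pow_mul, ← pow_mul]; congr 1; ring
    have a3 : (top : ℝ) ≤ (n : ℝ) ^ n :=
      htopR.trans (pow_le_pow_right₀ hn1 (by omega))
    calc (top : ℝ) * ((7 / 8 : ℝ) ^ (D - 2 * K - 2) *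
          ((2 * top : ℕ) : ℝ) ^ (2 * H + 2 + K) * cf)
        ≤ (n : ℝ) ^ n * (((7 / 8 : ℝ) ^ n) ^ n * ((n : ℝ) ^ 44) ^ n * 3) := by
          apply mul_le_mul a3 _ (by positivity) (by positivity)
          apply mul_le_mul _ hcf hcf0 (by positivity)
          exact mul_le_mul a1 a2 (by positivity) (by positivity)
      _ = 3 * ((n : ℝ) ^ 45 * (7 / 8 : ℝ) ^ n) ^ n := by
          rw [mul_pow, show (n : ℝ) ^ 45 = n ^ 44 * n by ring, mul_pow]; ring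
      _ ≤ 3 * (1 / 100) ^ n := by
          apply mul_le_mul_of_nonneg_left _ (by norm_num)
          exact pow_le_pow_left₀ (by positivity) h3 _
      _ ≤ 3 * (1 / 100) ^ 1 := by
          apply mul_le_mul_of_nonneg_left _ (by norm_num)
          exact pow_le_pow_of_le_one (by norm_num) (by norm_num) (by omega)
      _ = 3 / 100 := by norm_num
  have t2 : (top : ℝ) * ((7 / 8 : ℝ) ^ (n - 1 - 1) *
      ((2 * top : ℕ) : ℝ) ^ (3 + 3 * K) * cf) ≤ 6 / 100 := by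
    have a1 : (7 / 8 : ℝ) ^ (n - 1 - 1) ≤ 2 * (7 / 8 : ℝ) ^ n := by
      have b3 : (7 / 8 : ℝ) ^ n = (7 / 8 : ℝ) ^ (n - 1 - 1) * (7 / 8 : ℝ) ^ 2 := by
        rw [← pow_add]; congr 1; omega
      rw [b3]
      have : (0 : ℝ) ≤ (7 / 8 : ℝ) ^ (n - 1 - 1) := by positivity
      nlinarith
    have a2 : ((2 * top : ℕ) : ℝ) ^ (3 + 3 * K) ≤ (n : ℝ) ^ (12 + 12 * K) := by
      calc ((2 * top : ℕ) : ℝ) ^ (3 + 3 * K) ≤ ((n : ℝ) ^ 4) ^ (3 + 3 * K) :=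
            pow_le_pow_left₀ (by positivity) hM _
        _ = (n : ℝ) ^ (12 + 12 * K) := by rw [← pow_mul]; congr 1; ring
    calc (top : ℝ) * ((7 / 8 : ℝ) ^ (n - 1 - 1) *
          ((2 * top : ℕ) : ℝ) ^ (3 + 3 * K) * cf)
        ≤ (n : ℝ) ^ 4 * ((2 * (7 / 8 : ℝ) ^ n) * (n : ℝ) ^ (12 + 12 * K) * 3) := by
          apply mul_le_mul htopR _ (by positivity) (by positivity)
          apply mul_le_mul _ hcf hcf0 (by positivity)
          exact mul_le_mul a1 a2 (by positivity) (by positivity)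
      _ = 6 * ((n : ℝ) ^ (16 + 12 * K) * (7 / 8 : ℝ) ^ n) := by
          rw [show 16 + 12 * K = 4 + (12 + 12 * K) by ring, pow_add (n : ℝ) 4]; ring
      _ ≤ 6 * (1 / 100) := mul_le_mul_of_nonneg_left h4 (by norm_num)
      _ = 6 / 100 := by norm_num
  have t3 : (2 * H + 1 + 2 * D) * (1 / 2 : ℝ) ^ (n - 1) ≤ 1 / 10 := by
    have a1 : (2 * (H : ℝ) + 1 + 2 * D) ≤ 210 * (n : ℝ) ^ 2 := by
      rw [hDR]
      have : (H : ℝ) ≤ 5 * (n : ℝ) := by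
        have : H ≤ 5 * n := by omega
        exact_mod_cast this
      nlinarith
    have a2 : (1 / 2 : ℝ) ^ (n - 1) = 2 * (1 / 2 : ℝ) ^ n := by
      have b3 : (1 / 2 : ℝ) ^ n = (1 / 2 : ℝ) ^ (n - 1) * (1 / 2 : ℝ) ^ 1 := by
        rw [← pow_add]; congr 1; omega
      rw [b3]; ring
    calc (2 * H + 1 + 2 * D) * (1 / 2 : ℝ) ^ (n - 1)
        ≤ 210 * (n : ℝ) ^ 2 * (1 / 2 : ℝ) ^ (n - 1) :=
          mul_le_mul_of_nonneg_right a1 (by positivity)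
      _ = 420 * ((n : ℝ) ^ 2 * (1 / 2 : ℝ) ^ n) := by rw [a2]; ring
      _ ≤ 420 * (1 / 4200) := mul_le_mul_of_nonneg_left h6 (by norm_num)
      _ = 1 / 10 := by norm_num
  rw [mul_add]
  linarith

end Pool.Agent.Helper791.Seq
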