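import Pool.Agent.Helper791Seq.Union
import Pool.Agent.Helper791Seq.Conn
import Pool.Agent.Helper791Seq.Numeric
import Pool.Agent.Helper791Seq.Empty

set_option autoImplicit false

/-! # The main theorem -/

namespace Pool.Agent.Helper791.Seq

open Finset Classical

theorem exists_par (S : Finset ℕ) (hS : ∀ k ∈ S, 1 ≤ k) (hne : S.Nonempty) (m : ℕ)
    (hm : 2 * S.max' hne + 2 ≤ m) :
    ∃ p : Par, p.S = S ∧ p.K = S.max' hne ∧ p.m = m ∧ p.D = 100 * (m + 1) ^ 2 := by
  set prv : ℕ → ℕ := fun z =>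
    if h : (S.filter (fun k => k ≤ z)).Nonempty then (S.filter (fun k => k ≤ z)).max' h else 0
    with hprv
  set nxt : ℕ → ℕ := fun z =>
    if h : (S.filter (fun k => z < k)).Nonempty then (S.filter (fun k => z < k)).min' h else 0
    with hnxt
  have hk1 := S.min'_mem hne
  have hK := S.max'_mem hne
  have e1 : ∀ z, S.min' hne ≤ z → (S.filter (fun k => k ≤ z)).Nonempty := fun z hz =>
    ⟨S.min' hne, mem_filter.2 ⟨hk1, hz⟩⟩
  have e2 : ∀ z, z < S.max' hne → (S.filter (fun k => z < k)).Nonempty := fun z hz =>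
    ⟨S.max' hne, mem_filter.2 ⟨hK, hz⟩⟩
  have p1 : ∀ z, S.min' hne ≤ z → prv z ∈ S ∧ prv z ≤ z ∧ ∀ k ∈ S, k ≤ z → k ≤ prv z := by
    intro z hz
    have e : prv z = (S.filter (fun k => k ≤ z)).max' (e1 z hz) := by
      rw [hprv]; simp only; rw [dif_pos (e1 z hz)]
    have h := mem_filter.1 ((S.filter (fun k => k ≤ z)).max'_mem (e1 z hz))
    rw [← e] at h
    refine ⟨h.1, h.2, ?_⟩
    intro k hk hkz
    rw [e]
    exact Finset.le_max' _ _ (mem_filter.2 ⟨hk, hkz⟩)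
  have n1 : ∀ z, z < S.max' hne → nxt z ∈ S ∧ z < nxt z ∧ ∀ k ∈ S, z < k → nxt z ≤ k := by
    intro z hz
    have e : nxt z = (S.filter (fun k => z < k)).min' (e2 z hz) := by
      rw [hnxt]; simp only; rw [dif_pos (e2 z hz)]
    have h := mem_filter.1 ((S.filter (fun k => z < k)).min'_mem (e2 z hz))
    rw [← e] at h
    refine ⟨h.1, h.2, ?_⟩
    intro k hk hkz
    rw [e]
    exact Finset.min'_le _ _ (mem_filter.2 ⟨hk, hkz⟩)
  exact ⟨{
    S := S
    k1 := S.min' hne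
    K := S.max' hne
    prv := prv
    nxt := nxt
    m := m
    D := 100 * (m + 1) ^ 2
    k1_pos := hS _ hk1
    k1_mem := hk1
    K_mem := hK
    k1_le := fun k hk => S.min'_le k hk
    le_K := fun k hk => S.le_max' k hk
    prv_mem := fun z h1 _ => (p1 z h1).1
    prv_le := fun z h1 _ => (p1 z h1).2.1
    nxt_mem := fun z _ h2 => (n1 z h2).1
    lt_nxt := fun z _ h2 => (n1 z h2).2.1
    gap := fun z h1 h2 k hk => by
      rcases Nat.lt_or_ge z k with h | h
      · right; exact (n1 z h2).2.2 k hk h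
      · left; exact (p1 z h1).2.2 k hk h
    hm := hm
    hD := le_refl _ }, rfl, rfl, rfl, rfl⟩

variable (p : Par)

theorem Par.top_le (hD : p.D = 100 * (p.m + 1) ^ 2) : p.top ≤ 1300 * (p.m + 1) ^ 3 := by
  have h1 := p.r_upper (2 * p.H + 1)
  have h2 := p.H_le
  have h3 := p.hm
  have h4 : p.top = p.r (2 * p.H + 1) + 2 * p.D := rfl
  have h5 : (2 * p.H + 1 + 1) * p.D + 2 * p.D = (2 * p.H + 4) * p.D := by ring
  have h6 : (2 * p.H + 4) * p.D ≤ (12 * (p.m + 1)) * p.D := Nat.mul_le_mul_right _ (by omega)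
  have h7 : (12 * (p.m + 1)) * p.D = 1200 * (p.m + 1) ^ 3 := by rw [hD]; ring
  have h8 : 2 * p.K * (2 * p.H + 1) ≤ (p.m + 1) * (10 * (p.m + 1)) :=
    Nat.mul_le_mul (by omega) (by omega)
  have h9 : (p.m + 1) * (10 * (p.m + 1)) ≤ 10 * (p.m + 1) ^ 3 := by
    have : 1 * (10 * ((p.m + 1) * (p.m + 1))) ≤ (p.m + 1) * (10 * ((p.m + 1) * (p.m + 1))) :=
      Nat.mul_le_mul_right _ (by omega)
    nlinarith [this]
  omega

theorem main_nonempty (S : Finset ℕ) (hS : ∀ k ∈ S, 1 ≤ k) (hne : S.Nonempty) :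
    ∃ (V : Type) (_ : Finite V) (G : SimpleGraph V), G.Connected ∧
      ∀ k : ℕ, 1 ≤ k → (HasSeq G k ↔ k ∈ S) := by
  obtain ⟨m, hm, hnum⟩ := numeric (S.max' hne)
  obtain ⟨p, hpS, hpK, hpm, hpD⟩ := exists_par S hS hne m hm
  subst hpm
  have hn := hnum p.D p.H p.top hpD p.H_le (p.top_le hpD)
  rw [← hpK] at hn
  have hbad := p.bad_count
  have hdisc := p.disc_count
  have hcf : p.cf = (1 + ((2 * p.top : ℕ) : ℝ) * (7 / 8) ^ ((p.m - 1) / 2)) ^ (2 * p.D) := rfl
  have hM : p.M = 2 * p.top := rfl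
  rw [hM, hcf] at hbad
  have hlt : (p.Bad.card : ℝ) + p.Disc.card < 2 ^ p.Slots.card := by
    have h2 : (0 : ℝ) < 2 ^ p.Slots.card := by positivity
    have h3 := mul_lt_mul_of_pos_left hn h2
    rw [mul_add, mul_one] at h3
    linarith
  have hlt' : p.Bad.card + p.Disc.card < 2 ^ p.Slots.card := by exact_mod_cast hlt
  have hex : ∃ C ∈ p.Slots.powerset, C ∉ p.Bad ∪ p.Disc := by
    by_contra hcon
    push Not at hcon
    have h1 : p.Slots.powerset ⊆ p.Bad ∪ p.Disc := fun C hC => hcon C hC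
    have h2 := card_le_card h1
    rw [card_powerset] at h2
    have h3 := card_union_le p.Bad p.Disc
    omega
  obtain ⟨C, hC, hCn⟩ := hex
  rw [mem_union, not_or] at hCn
  have hC' := mem_powerset.1 hC
  have hl : ∀ w, p.isE w → p.isV (p.lo C w) ∧ p.isV (p.lo C w + w) := fun w hw => p.lo_isV hC' hw
  refine ⟨{v : ℕ // p.isV v}, finite_V p, Gr p (p.lo C), ?_, ?_⟩
  · by_contra h
    exact hCn.2 (mem_filter.2 ⟨hC, h⟩)
  · intro k hk
    rw [hasSeq_iff p (p.lo C) hl k]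
    constructor
    · rintro ⟨F, hF⟩
      by_contra hkS
      exact hCn.1 (mem_filter.2 ⟨hC, k, F, hk, by rw [hpS]; exact hkS, hF⟩)
    · intro hkS
      exact ⟨_, p.planted hC' (by rw [hpS]; exact hkS)⟩

theorem main (S : Finset ℕ) (hS : ∀ k ∈ S, 1 ≤ k) :
    ∃ (V : Type) (_ : Finite V) (G : SimpleGraph V), G.Connected ∧
      ∀ k : ℕ, 1 ≤ k → (HasSeq G k ↔ k ∈ S) := by
  rcases S.eq_empty_or_nonempty with h | h
  · subst h
    refine ⟨Fin 4, inferInstance, ⊤, SimpleGraph.connected_top, ?_⟩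
    intro k _
    constructor
    · intro h; exact absurd h (K4_not k)
    · intro h; exact absurd h (by simp)
  · exact main_nonempty S hS h

end Pool.Agent.Helper791.Seq
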