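import Pool.Agent.Helper791Seq.GUnion
import Pool.Agent.Helper791Seq.Main

set_option autoImplicit false

/-! # Graphs with prescribed set of `k`-graceful values -/

namespace Pool.Agent.Helper791.Seq

open Finset Classical

/-- `G` has a `k`-graceful numbering. -/
def HasGr {V : Type} (G : SimpleGraph V) (k : ℕ) : Prop :=
  ∃ f : V → ℕ, Function.Injective f ∧
    (∀ v, f v < G.edgeSet.ncard + k) ∧
    ∀ m : ℕ, k ≤ m → m < k + G.edgeSet.ncard →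
      ∃ u v, G.Adj u v ∧ Int.natAbs ((f u : ℤ) - (f v : ℤ)) = m

theorem ncard_iso {V W : Type} {G : SimpleGraph V} {H : SimpleGraph W} (e : G ≃g H) :
    G.edgeSet.ncard = H.edgeSet.ncard := by
  rw [← Nat.card_coe_set_eq, ← Nat.card_coe_set_eq]
  exact Nat.card_congr e.mapEdgeSet

theorem hasGr_iso {V W : Type} {G : SimpleGraph V} {H : SimpleGraph W} (e : G ≃g H) {k : ℕ}
    (h : HasGr G k) : HasGr H k := by
  obtain ⟨f, h1, h2, h3⟩ := h
  rw [ncard_iso e] at h2 h3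
  refine ⟨fun w => f (e.symm w), ?_, ?_, ?_⟩
  · intro a b hab
    exact e.symm.injective (h1 hab)
  · intro w; exact h2 _
  · intro m hm1 hm2
    obtain ⟨u, v, huv, he⟩ := h3 m hm1 hm2
    refine ⟨e u, e v, e.map_adj_iff.2 huv, ?_⟩
    simp only [RelIso.symm_apply_apply]
    exact he

variable (p : Par)

/-- the cone -/
def GrC (l : ℕ → ℕ) : SimpleGraph {v : ℕ // p.isV' v} :=
  SimpleGraph.fromRel (fun u v => ∃ w, p.isE' w ∧ (u : ℕ) = l w ∧ (v : ℕ) = l w + w)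

theorem grC_adj_iff (l : ℕ → ℕ) (u v : {v : ℕ // p.isV' v}) :
    (GrC p l).Adj u v ↔ ∃ w, p.isE' w ∧ (((u : ℕ) = l w ∧ (v : ℕ) = l w + w) ∨
      ((v : ℕ) = l w ∧ (u : ℕ) = l w + w)) := by
  unfold GrC
  rw [SimpleGraph.fromRel_adj]
  constructor
  · rintro ⟨hne, ⟨w, hw, h1, h2⟩ | ⟨w, hw, h1, h2⟩⟩
    · exact ⟨w, hw, Or.inl ⟨h1, h2⟩⟩
    · exact ⟨w, hw, Or.inr ⟨h1, h2⟩⟩
  · rintro ⟨w, hw, h⟩
    have hpos : 1 ≤ w := le_trans p.k1_pos hw.1
    refine ⟨?_, ?_⟩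
    · intro he
      rw [he] at h
      rcases h with ⟨h1, h2⟩ | ⟨h1, h2⟩ <;> omega
    · rcases h with ⟨h1, h2⟩ | ⟨h1, h2⟩
      · exact Or.inl ⟨w, hw, h1, h2⟩
      · exact Or.inr ⟨w, hw, h1, h2⟩

theorem card_E' : Nat.card {w : ℕ // p.isE' w} = p.N := by
  have h : Nat.card {w : ℕ // p.isE' w} = (Ico p.k1 p.top).card :=
    Nat.subtype_card (Ico p.k1 p.top) (fun w => mem_Ico)
  rw [h, Nat.card_Ico]
  rfl

/-- the edge with label `w` -/
def edgeC (l : ℕ → ℕ) (hl : ∀ w, p.isE' w → p.isV' (l w) ∧ p.isV' (l w + w))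
    (w : {w : ℕ // p.isE' w}) : Sym2 {v : ℕ // p.isV' v} :=
  s(⟨l w, (hl w w.2).1⟩, ⟨l w + w, (hl w w.2).2⟩)

theorem edgeC_inj (l : ℕ → ℕ) (hl : ∀ w, p.isE' w → p.isV' (l w) ∧ p.isV' (l w + w)) :
    Function.Injective (edgeC p l hl) := by
  rintro ⟨w, hw⟩ ⟨w', hw'⟩ h
  unfold edgeC at h
  have hpos : 1 ≤ w := le_trans p.k1_pos hw.1
  have hpos' : 1 ≤ w' := le_trans p.k1_pos hw'.1
  rw [Sym2.eq_iff] at h
  simp only [Subtype.mk.injEq] at h
  apply Subtype.ext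
  simp only
  omega

theorem edgeSetC_eq (l : ℕ → ℕ) (hl : ∀ w, p.isE' w → p.isV' (l w) ∧ p.isV' (l w + w)) :
    (GrC p l).edgeSet = Set.range (edgeC p l hl) := by
  ext e
  induction e using Sym2.ind with
  | _ u v =>
    rw [SimpleGraph.mem_edgeSet, grC_adj_iff, Set.mem_range]
    constructor
    · rintro ⟨w, hw, h⟩
      refine ⟨⟨w, hw⟩, ?_⟩
      unfold edgeC
      rcases h with ⟨h1, h2⟩ | ⟨h1, h2⟩
      · have e1 : u = ⟨l w, (hl w hw).1⟩ := Subtype.ext h1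
        have e2 : v = ⟨l w + w, (hl w hw).2⟩ := Subtype.ext h2
        rw [e1, e2]
      · have e1 : v = ⟨l w, (hl w hw).1⟩ := Subtype.ext h1
        have e2 : u = ⟨l w + w, (hl w hw).2⟩ := Subtype.ext h2
        rw [e1, e2]
        exact Sym2.eq_swap
    · rintro ⟨⟨w, hw⟩, h⟩
      unfold edgeC at h
      rw [Sym2.eq_iff] at h
      refine ⟨w, hw, ?_⟩
      rcases h with ⟨h1, h2⟩ | ⟨h1, h2⟩
      · left
        rw [← h1, ← h2]
        exact ⟨rfl, rfl⟩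
      · right
        rw [← h1, ← h2]
        exact ⟨rfl, rfl⟩

theorem cardC (l : ℕ → ℕ) (hl : ∀ w, p.isE' w → p.isV' (l w) ∧ p.isV' (l w + w)) :
    (GrC p l).edgeSet.ncard = p.N := by
  rw [edgeSetC_eq p l hl, ← Nat.card_coe_set_eq, Nat.card_range_of_injective (edgeC_inj p l hl)]
  exact card_E' p

theorem hasGr_iff (l : ℕ → ℕ) (hl : ∀ w, p.isE' w → p.isV' (l w) ∧ p.isV' (l w + w)) (k : ℕ) :
    HasGr (GrC p l) k ↔ ∃ F : ℕ → ℕ, GValid p l k F := by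
  unfold HasGr
  rw [cardC p l hl]
  constructor
  · rintro ⟨f, h1, h2, h3⟩
    set F : ℕ → ℕ := fun v => if h : p.isV' v then f ⟨v, h⟩ else 0 with hF
    have hFv : ∀ v (h : p.isV' v), F v = f ⟨v, h⟩ := by
      intro v h; rw [hF]; simp only; rw [dif_pos h]
    refine ⟨F, ?_, ?_, ?_⟩
    · intro u v hu hv h
      rw [hFv u hu, hFv v hv] at h
      exact congrArg Subtype.val (h1 h)
    · intro v hv; rw [hFv v hv]; exact h2 _
    · intro m hm1 hm2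
      obtain ⟨u, v, huv, he⟩ := h3 m hm1 hm2
      rw [grC_adj_iff] at huv
      obtain ⟨w, hw, h'⟩ := huv
      refine ⟨w, hw, ?_⟩
      rw [← he]
      unfold elb
      rw [hFv _ (hl w hw).1, hFv _ (hl w hw).2]
      rcases h' with ⟨a, b⟩ | ⟨a, b⟩
      · have e1 : u = ⟨l w, (hl w hw).1⟩ := Subtype.ext a
        have e2 : v = ⟨l w + w, (hl w hw).2⟩ := Subtype.ext b
        rw [e1, e2]
      · have e1 : v = ⟨l w, (hl w hw).1⟩ := Subtype.ext a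
        have e2 : u = ⟨l w + w, (hl w hw).2⟩ := Subtype.ext b
        rw [e1, e2]
        omega
  · rintro ⟨F, h1, h2, h3⟩
    refine ⟨fun v => F v, ?_, ?_, ?_⟩
    · intro u v h
      exact Subtype.ext (h1 u v u.2 v.2 h)
    · intro v; exact h2 v v.2
    · intro m hm1 hm2
      obtain ⟨w, hw, he⟩ := h3 m hm1 hm2
      refine ⟨⟨l w, (hl w hw).1⟩, ⟨l w + w, (hl w hw).2⟩, ?_, he⟩
      rw [grC_adj_iff]; exact ⟨w, hw, Or.inl ⟨rfl, rfl⟩⟩

theorem finite_V' : Finite {v : ℕ // p.isV' v} := by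
  apply Set.Finite.subset (s := Set.Iio p.top) (Set.finite_Iio _)
  rintro v (rfl | hv)
  · have := p.x0_lt_top
    exact Set.mem_Iio.2 (by omega)
  · exact p.isV_lt_top hv

theorem lo'_isV' {C : Finset ℕ} (hC : C ⊆ p.Slots) {w : ℕ} (hw : p.isE' w) :
    p.isV' (p.lo' C w) ∧ p.isV' (p.lo' C w + w) := by
  rcases p.isE'_iff.1 hw with h | h
  · rw [p.lo'_V h, zero_add]
    exact ⟨Or.inl rfl, Or.inr h⟩
  · rw [p.lo'_E h]
    have := p.lo_isV hC h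
    exact ⟨Or.inr this.1, Or.inr this.2⟩

/-- **Main theorem for graceful numberings.** -/
theorem gmain (S : Finset ℕ) (hne : S.Nonempty) (hS : ∀ k ∈ S, 0 < k) :
    ∃ (n : ℕ) (G : SimpleGraph (Fin n)), ∀ k : ℕ, 0 < k → (HasGr G k ↔ k ∈ S) := by
  obtain ⟨m, hm, hnum⟩ := numeric (S.max' hne + 1)
  obtain ⟨p, hpS, hpK, hpm, hpD⟩ := exists_par S hS hne m (by omega)
  subst hpm
  have hn := hnum p.D p.H p.top hpD p.H_le (p.top_le hpD)
  rw [← hpK] at hn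
  have hbad := p.gbad_count
  have hcf : p.cf = (1 + ((2 * p.top : ℕ) : ℝ) * (7 / 8) ^ ((p.m - 1) / 2)) ^ (2 * p.D) := rfl
  have hM : p.M = 2 * p.top := rfl
  have hcf0 := p.cf_nonneg
  rw [← hcf, ← hM] at hn
  have hle : (7 / 8 : ℝ) ^ (p.D - 2 * p.K - 2) ≤ (7 / 8 : ℝ) ^ (p.D - 2 * (p.K + 1) - 2) :=
    pow_le_pow_of_le_one (by norm_num) (by norm_num) (by omega)
  have hlt : (p.GBad.card : ℝ) < 2 ^ p.Slots.card := by
    have h2 : (0 : ℝ) < 2 ^ p.Slots.card := by positivity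
    refine lt_of_le_of_lt hbad ?_
    rw [mul_lt_iff_lt_one_right h2]
    refine lt_of_le_of_lt ?_ hn
    have h5 : (0 : ℝ) ≤ (2 * (p.H : ℝ) + 1 + 2 * p.D) * (1 / 2 : ℝ) ^ p.m := by positivity
    have h6 : (p.top : ℝ) *
        ((7 / 8 : ℝ) ^ (p.D - 2 * p.K - 2) * (p.M : ℝ) ^ (2 * p.H + 2 + (p.K + 1)) * p.cf +
         (7 / 8 : ℝ) ^ (p.m - 1) * (p.M : ℝ) ^ (3 + 3 * (p.K + 1)) * p.cf) ≤
        (p.top : ℝ) *
        ((7 / 8 : ℝ) ^ (p.D - 2 * (p.K + 1) - 2) * (p.M : ℝ) ^ (2 * p.H + 2 + (p.K + 1)) * p.cf +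
         (7 / 8 : ℝ) ^ (p.m - 1) * (p.M : ℝ) ^ (3 + 3 * (p.K + 1)) * p.cf) := by
      apply mul_le_mul_of_nonneg_left _ (by positivity)
      apply add_le_add _ (le_refl _)
      apply mul_le_mul_of_nonneg_right _ hcf0
      apply mul_le_mul_of_nonneg_right hle (by positivity)
    linarith
  have hlt' : p.GBad.card < 2 ^ p.Slots.card := by exact_mod_cast hlt
  have hex : ∃ C ∈ p.Slots.powerset, C ∉ p.GBad := by
    by_contra hcon
    push Not at hcon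
    have h1 : p.Slots.powerset ⊆ p.GBad := fun C hC => hcon C hC
    have h2 := card_le_card h1
    rw [card_powerset] at h2
    omega
  obtain ⟨C, hC, hCn⟩ := hex
  have hC' := mem_powerset.1 hC
  have hl : ∀ w, p.isE' w → p.isV' (p.lo' C w) ∧ p.isV' (p.lo' C w + w) :=
    fun w hw => lo'_isV' p hC' hw
  have hfin := finite_V' p
  obtain ⟨n, ⟨e⟩⟩ := Finite.exists_equiv_fin {v : ℕ // p.isV' v}
  have iso : GrC p (p.lo' C) ≃g (GrC p (p.lo' C)).comap e.symm :=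
    ⟨e, by intro a b; simp [SimpleGraph.comap_adj]⟩
  refine ⟨n, (GrC p (p.lo' C)).comap e.symm, ?_⟩
  intro k hk
  have h1 : HasGr ((GrC p (p.lo' C)).comap e.symm) k ↔ HasGr (GrC p (p.lo' C)) k :=
    ⟨fun h => hasGr_iso iso.symm h, fun h => hasGr_iso iso h⟩
  rw [h1, hasGr_iff p (p.lo' C) hl k]
  constructor
  · rintro ⟨F, hF⟩
    by_contra hkS
    exact hCn (mem_filter.2 ⟨hC, k, F, hk, by rw [hpS]; exact hkS, hF⟩)
  · intro hkS
    exact ⟨_, p.gplanted hC' (by rw [hpS]; exact hkS)⟩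

end Pool.Agent.Helper791.Seq
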