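import Pool.Agent.Helper791Seq.Union
import Pool.Agent.Helper791Seq.GFinal

set_option autoImplicit false

/-! # The union bound for the cone -/

namespace Pool.Agent.Helper791.Seq

open Finset Classical

variable (p : Par)

namespace Par

theorem slot_isE' {w : ℕ} (hw : w ∈ p.Slots) : p.isE' w :=
  p.isE'_iff.2 (Or.inr (p.mem_Slots.1 hw).1)

theorem lo'_eq_wC {C : Finset ℕ} {F : ℕ → ℕ} {w : ℕ} (hw : w ∈ p.Slots) :
    elb (p.lo' C) F w = wC (elb p.base F) (elb p.link F) C w := by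
  rw [p.elb'_E (p.mem_Slots.1 hw).1, p.lo_eq_wC hw]

theorem lo'_nonslot {C : Finset ℕ} (hC : C ⊆ p.Slots) {w : ℕ} (hw : w ∉ p.Slots) :
    p.lo' C w = p.lo' ∅ w := by
  unfold lo'
  by_cases h : p.isV w
  · rw [if_pos h, if_pos h]
  · rw [if_neg h, if_neg h, p.lo_nonslot hC hw]

theorem gvalid_count (F : ℕ → ℕ) (k : ℕ) :
    ((p.Slots.powerset.filter (fun C => GValid p (p.lo' C) k F)).card : ℝ) ≤
      2 ^ p.Slots.card * (3 / 4 : ℝ) ^ (p.bnum (fun v => (F v : ℤ))) := by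
  set U : Finset ℕ := (Ico k (k + p.N)).filter (fun n =>
    ¬ ∃ w, p.isE' w ∧ w ∉ p.Slots ∧ elb (p.lo' ∅) F w = n) with hU
  have h1 := count_le p.Slots (elb p.base F) (elb p.link F) U
  have hb : p.bnum (fun v => (F v : ℤ)) =
      (p.Slots.filter (fun σ => elb p.base F σ ≠ elb p.link F σ)).card := by
    unfold bnum
    congr 1
    apply filter_congr
    intro σ _
    unfold brk elb
    rw [not_iff_not, Int.abs_eq_natAbs, Int.abs_eq_natAbs]
    exact Int.natCast_inj
  rw [hb]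
  refine le_trans ?_ h1
  norm_cast
  apply card_le_card
  intro C hC
  rw [mem_filter] at hC ⊢
  obtain ⟨hC1, hV⟩ := hC
  obtain ⟨hl1, hl2⟩ := hV.labels
  refine ⟨hC1, ?_, ?_⟩
  · intro σ hσ τ hτ h
    rw [← p.lo'_eq_wC hσ, ← p.lo'_eq_wC hτ] at h
    exact hl2 σ τ (p.slot_isE' hσ) (p.slot_isE' hτ) h
  · rw [mem_powerset] at hC1
    ext n
    rw [mem_image, hU, mem_filter, mem_Ico]
    constructor
    · rintro ⟨σ, hσ, rfl⟩
      have hE := p.slot_isE' hσ
      rw [← p.lo'_eq_wC hσ]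
      refine ⟨hl1 σ hE, ?_⟩
      rintro ⟨w, hw, hwS, he⟩
      have e2 : elb (p.lo' C) F w = elb (p.lo' ∅) F w := by
        unfold elb; rw [p.lo'_nonslot hC1 hwS]
      rw [← e2] at he
      have := hl2 w σ hw hE he
      rw [this] at hwS
      exact hwS hσ
    · rintro ⟨hn, hw⟩
      obtain ⟨w, hwE, he⟩ := hV.2.2 n hn.1 hn.2
      by_cases hwS : w ∈ p.Slots
      · exact ⟨w, hwS, by rw [← p.lo'_eq_wC hwS]; exact he⟩
      · exfalso
        apply hw
        refine ⟨w, hwE, hwS, ?_⟩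
        rw [← he]; unfold elb; rw [p.lo'_nonslot hC1 hwS]

noncomputable def GFam : Finset (Fin p.top → Fin p.M) :=
  univ.filter (fun x => (∀ v, ¬ p.isV' v → p.ev x v = 0) ∧ p.InjB (fun v => (p.ev x v : ℤ)))
noncomputable def GFam1 : Finset (Fin p.top → Fin p.M) :=
  p.GFam.filter (fun x => ¬ p.Good (fun v => (p.ev x v : ℤ)))
noncomputable def GFam2 : Finset (Fin p.top → Fin p.M) :=
  p.GFam.filter (fun x => p.Good (fun v => (p.ev x v : ℤ)) ∧
    ¬ p.Affine (fun v => (p.ev x v : ℤ)))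

theorem gdet_all {x y : Fin p.top → Fin p.M} (hx : x ∈ p.GFam) (hy : y ∈ p.GFam)
    (hQ : p.QF (fun v => (p.ev x v : ℤ)) = p.QF (fun v => (p.ev y v : ℤ)))
    (hQv : ∀ v ∈ p.QF (fun v => (p.ev x v : ℤ)), p.ev x v = p.ev y v)
    (hr : ∀ j, j ≤ 2 * p.H + 1 → p.ev x (p.r j) = p.ev y (p.r j))
    (hZ : ∀ z ∈ Ico p.k1 p.K, p.ev x z = p.ev y z) (h0 : p.ev x 0 = p.ev y 0) : x = y := by
  have hst := p.QF_det (fun v => (p.ev x v : ℤ)) (fun v => (p.ev y v : ℤ)) hQ
    (fun j hj => by rw [hr j hj]) (fun v hv => by rw [hQv v hv])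
  apply p.ev_ext
  intro v hv
  by_cases hV : p.isV' v
  · rcases hV with rfl | h | ⟨j, hj, rfl⟩ | h
    · exact h0
    · exact hZ v (mem_Ico.2 h)
    · exact hr j (by omega)
    · rcases Nat.eq_or_lt_of_le h.1 with h0 | h0
      · rw [← h0]; exact hr (2 * p.H + 1) (le_refl _)
      · have := hst v (by unfold St; rw [mem_Ico]; exact ⟨h0, h.2⟩)
        exact_mod_cast this
  · rw [((mem_filter.1 hx).2.1 v hV), ((mem_filter.1 hy).2.1 v hV)]

theorem gRt1_card : ({0} ∪ p.Rt1).card ≤ 2 * p.H + 2 + (p.K + 1) := by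
  have h1 := card_union_le ({0} : Finset ℕ) p.Rt1
  have h2 := p.Rt1_card
  have h3 : ({0} : Finset ℕ).card = 1 := card_singleton _
  omega

theorem gRt2_card : ({0} ∪ p.Rt2).card ≤ 3 + 3 * (p.K + 1) := by
  have h1 := card_union_le ({0} : Finset ℕ) p.Rt2
  have h2 := p.Rt2_card
  have h3 : ({0} : Finset ℕ).card = 1 := card_singleton _
  omega

theorem gsum1 : ∑ x ∈ p.GFam1, (3 / 4 : ℝ) ^ (p.bnum (fun v => (p.ev x v : ℤ))) ≤
    (7 / 8 : ℝ) ^ (p.D - 2 * p.K - 2) * (p.M : ℝ) ^ (2 * p.H + 2 + (p.K + 1)) * p.cf := by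
  have h := encode p.GFam1 p.ev p.M p.St ({0} ∪ p.Rt1) (fun x => p.QF (fun v => (p.ev x v : ℤ)))
    (fun x => p.bnum (fun v => (p.ev x v : ℤ))) (p.D - 2 * p.K - 2) ((p.m - 1) / 2) p.M_pos
    (fun x _ v => p.ev_lt x v) (fun x _ => filter_subset _ _)
    (by
      intro x hx y hy hQ hv
      have hx' := (mem_filter.1 hx).1
      have hy' := (mem_filter.1 hy).1
      apply p.gdet_all hx' hy' hQ (fun v h => hv v (mem_union_right _ h))
      · intro j hj
        apply hv
        apply mem_union_left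
        apply mem_union_right
        unfold Rt1
        exact mem_union_left _ (mem_image_of_mem _ (mem_range.2 (by omega)))
      · intro z hz
        apply hv
        apply mem_union_left
        apply mem_union_right
        unfold Rt1
        exact mem_union_right _ hz
      · apply hv
        apply mem_union_left
        apply mem_union_left
        exact mem_singleton_self _)
    (by
      intro x hx
      have hx' := (mem_filter.1 (mem_filter.1 hx).1).2
      exact p.not_good _ hx'.2 (mem_filter.1 hx).2)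
    (by
      intro x hx
      have hx' := (mem_filter.1 (mem_filter.1 hx).1).2
      exact p.QF_card _ (p.injB_r hx'.2))
  refine h.trans ?_
  apply mul_le_mul _ p.cf_ge (by positivity) (by positivity)
  apply mul_le_mul_of_nonneg_left _ (by positivity)
  exact pow_le_pow_right₀ (by exact_mod_cast p.M_pos) p.gRt1_card

theorem gsum2 : ∑ x ∈ p.GFam2, (3 / 4 : ℝ) ^ (p.bnum (fun v => (p.ev x v : ℤ))) ≤
    (7 / 8 : ℝ) ^ (p.m - 1) * (p.M : ℝ) ^ (3 + 3 * (p.K + 1)) * p.cf := by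
  have h := encode p.GFam2 p.ev p.M p.St ({0} ∪ p.Rt2) (fun x => p.QF (fun v => (p.ev x v : ℤ)))
    (fun x => p.bnum (fun v => (p.ev x v : ℤ))) (p.m - 1) ((p.m - 1) / 2) p.M_pos
    (fun x _ v => p.ev_lt x v) (fun x _ => filter_subset _ _)
    (by
      intro x hx y hy hQ hv
      have hx' := (mem_filter.1 hx).1
      have hy' := (mem_filter.1 hy).1
      have hxG := (mem_filter.1 hx).2.1
      have hyG := (mem_filter.1 hy).2.1
      have hroot := p.det_root2 _ _ hxG hyG (fun v h => by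
        rw [hv v (mem_union_left _ (mem_union_right _ h))])
      apply p.gdet_all hx' hy' hQ (fun v h => hv v (mem_union_right _ h))
      · intro j hj
        have := hroot j hj
        exact_mod_cast this
      · intro z hz
        apply hv
        apply mem_union_left
        apply mem_union_right
        unfold Rt2
        exact mem_union_right _ hz
      · apply hv
        apply mem_union_left
        apply mem_union_left
        exact mem_singleton_self _)
    (by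
      intro x hx
      have hx' := (mem_filter.1 (mem_filter.1 hx).1).2
      have hx2 := (mem_filter.1 hx).2
      by_contra hlt
      exact hx2.2 (p.good_affine _ hx'.2 hx2.1 (not_le.1 hlt)))
    (by
      intro x hx
      have hx' := (mem_filter.1 (mem_filter.1 hx).1).2
      exact p.QF_card _ (p.injB_r hx'.2))
  refine h.trans ?_
  apply mul_le_mul _ p.cf_ge (by positivity) (by positivity)
  apply mul_le_mul_of_nonneg_left _ (by positivity)
  exact pow_le_pow_right₀ (by exact_mod_cast p.M_pos) p.gRt2_card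

theorem gvalid_congr {C : Finset ℕ} (hC : C ⊆ p.Slots) {k : ℕ} {F F' : ℕ → ℕ}
    (h : ∀ v, p.isV' v → F v = F' v) (hV : GValid p (p.lo' C) k F) :
    GValid p (p.lo' C) k F' := by
  obtain ⟨h1, h2, h3⟩ := hV
  refine ⟨?_, ?_, ?_⟩
  · intro u v hu hv e
    rw [← h u hu, ← h v hv] at e
    exact h1 u v hu hv e
  · intro v hv; rw [← h v hv]; exact h2 v hv
  · intro m hm1 hm2
    obtain ⟨w, hw, he⟩ := h3 m hm1 hm2
    refine ⟨w, hw, ?_⟩
    rw [← he]
    rcases p.isE'_iff.1 hw with h' | h'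
    · rw [p.elb'_V h', p.elb'_V h', h 0 (Or.inl rfl), h w (Or.inr h')]
    · have hlo := p.lo_isV hC h'
      rw [p.elb'_E h', p.elb'_E h']
      unfold elb
      rw [h _ (Or.inr hlo.1), h _ (Or.inr hlo.2)]

theorem gvalid_bound {C : Finset ℕ} (hC : C ⊆ p.Slots) {k : ℕ} {F : ℕ → ℕ}
    (hV : GValid p (p.lo' C) k F) : k < p.top ∧ ∀ v, p.isV' v → F v < p.M := by
  obtain ⟨hl1, hl2⟩ := hV.labels
  have hKE : p.isE p.K := p.isE_small (le_refl _) p.K_lt_D
  have hlo := p.lo_isV hC hKE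
  have a1 := hl1 _ (p.isE'_iff.2 (Or.inl hlo.1))
  have a2 := hl1 _ (p.isE'_iff.2 (Or.inl hlo.2))
  have a3 := hl1 _ (p.isE'_iff.2 (Or.inr hKE))
  rw [p.elb'_V hlo.1] at a1
  rw [p.elb'_V hlo.2] at a2
  rw [p.elb'_E hKE] at a3
  unfold elb at a3
  have hN : p.N = p.top - p.k1 := rfl
  have hx := p.x0_lt_top
  have : p.k1 < p.top := by
    have := p.k1_le_K; have := p.K_lt_D; have : p.D < p.x0 := p.r_lt_x0 (Nat.zero_le _)
    omega
  have hk : k < p.top := by omega
  refine ⟨hk, ?_⟩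
  intro v hv
  have := hV.2.1 v hv
  unfold M
  omega

/-- the bad choices for the cone -/
noncomputable def GBad : Finset (Finset ℕ) :=
  p.Slots.powerset.filter (fun C => ∃ k F, 1 ≤ k ∧ k ∉ p.S ∧ GValid p (p.lo' C) k F)

theorem gbad_sub : p.GBad ⊆ (range p.top ×ˢ (p.GFam1 ∪ p.GFam2)).biUnion
    (fun q => p.Slots.powerset.filter (fun C => GValid p (p.lo' C) q.1 (p.ev q.2))) := by
  intro C hC
  unfold GBad at hC
  rw [mem_filter, mem_powerset] at hC
  obtain ⟨hC1, k, F, hk, hkS, hV⟩ := hC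
  obtain ⟨b1, b2⟩ := p.gvalid_bound hC1 hV
  set x : Fin p.top → Fin p.M := fun v =>
    ⟨if p.isV' (v : ℕ) then F v else 0, by
      split_ifs with h
      · exact b2 _ h
      · exact p.M_pos⟩ with hx
  have hev : ∀ v, p.ev x v = if p.isV' v then F v else 0 := by
    intro v
    unfold ev
    split_ifs with h1 h2 h2
    · rw [hx]; simp only; rw [if_pos h2]
    · rw [hx]; simp only; rw [if_neg h2]
    · exfalso
      rcases h2 with h2 | h2
      · have := p.x0_lt_top; omega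
      · exact h1 (p.isV_lt_top h2)
    · rfl
  have hV' : GValid p (p.lo' C) k (p.ev x) := p.gvalid_congr hC1 (fun v hv => by
    rw [hev, if_pos hv]) hV
  have hInj : p.InjB (fun v => (p.ev x v : ℤ)) := by
    intro u v hu hv h
    have h' : (p.ev x u : ℤ) = p.ev x v := h
    exact hV'.1 u v (Or.inr (p.isV_of_bulk hu)) (Or.inr (p.isV_of_bulk hv)) (by exact_mod_cast h')
  have hFam : x ∈ p.GFam := by
    unfold GFam
    rw [mem_filter]
    exact ⟨mem_univ _, fun v hv => by rw [hev, if_neg hv], hInj⟩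
  have hna : ¬ p.Affine (fun v => (p.ev x v : ℤ)) := fun h =>
    hkS (p.g_affine_mem hC1 hk hV' h)
  rw [mem_biUnion]
  refine ⟨(k, x), ?_, ?_⟩
  · rw [mem_product, mem_range, mem_union]
    refine ⟨b1, ?_⟩
    by_cases hG : p.Good (fun v => (p.ev x v : ℤ))
    · right; exact mem_filter.2 ⟨hFam, hG, hna⟩
    · left; exact mem_filter.2 ⟨hFam, hG⟩
  · rw [mem_filter, mem_powerset]
    exact ⟨hC1, hV'⟩

theorem gbad_count : (p.GBad.card : ℝ) ≤ 2 ^ p.Slots.card * (p.top *
    ((7 / 8 : ℝ) ^ (p.D - 2 * p.K - 2) * (p.M : ℝ) ^ (2 * p.H + 2 + (p.K + 1)) * p.cf +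
     (7 / 8 : ℝ) ^ (p.m - 1) * (p.M : ℝ) ^ (3 + 3 * (p.K + 1)) * p.cf)) := by
  have h1 : p.GBad.card ≤ ∑ q ∈ range p.top ×ˢ (p.GFam1 ∪ p.GFam2),
      (p.Slots.powerset.filter (fun C => GValid p (p.lo' C) q.1 (p.ev q.2))).card :=
    (card_le_card p.gbad_sub).trans card_biUnion_le
  have h2 : (p.GBad.card : ℝ) ≤ ∑ q ∈ range p.top ×ˢ (p.GFam1 ∪ p.GFam2),
      2 ^ p.Slots.card * (3 / 4 : ℝ) ^ (p.bnum (fun v => (p.ev q.2 v : ℤ))) := by
    have h1' : (p.GBad.card : ℝ) ≤ ∑ q ∈ range p.top ×ˢ (p.GFam1 ∪ p.GFam2),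
      ((p.Slots.powerset.filter (fun C => GValid p (p.lo' C) q.1 (p.ev q.2))).card : ℝ) := by
      exact_mod_cast h1
    refine le_trans h1' ?_
    apply Finset.sum_le_sum
    intro q _
    exact p.gvalid_count _ _
  refine h2.trans ?_
  simp only [Finset.sum_product, Finset.sum_const, card_range, nsmul_eq_mul]
  rw [← Finset.mul_sum]
  rw [show (p.top : ℝ) * (2 ^ p.Slots.card * ∑ q ∈ p.GFam1 ∪ p.GFam2,
      (3 / 4 : ℝ) ^ (p.bnum (fun v => (p.ev q v : ℤ)))) =
      2 ^ p.Slots.card * (p.top * ∑ q ∈ p.GFam1 ∪ p.GFam2,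
      (3 / 4 : ℝ) ^ (p.bnum (fun v => (p.ev q v : ℤ)))) by ring]
  apply mul_le_mul_of_nonneg_left _ (by positivity)
  apply mul_le_mul_of_nonneg_left _ (by positivity)
  have h3 : ∑ q ∈ p.GFam1 ∪ p.GFam2, (3 / 4 : ℝ) ^ (p.bnum (fun v => (p.ev q v : ℤ))) ≤
      ∑ q ∈ p.GFam1, (3 / 4 : ℝ) ^ (p.bnum (fun v => (p.ev q v : ℤ))) +
      ∑ q ∈ p.GFam2, (3 / 4 : ℝ) ^ (p.bnum (fun v => (p.ev q v : ℤ))) := by
    rw [← Finset.sum_union_inter]
    have : (0 : ℝ) ≤ ∑ q ∈ p.GFam1 ∩ p.GFam2,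
        (3 / 4 : ℝ) ^ (p.bnum (fun v => (p.ev q v : ℤ))) :=
      Finset.sum_nonneg (fun _ _ => by positivity)
    linarith
  refine h3.trans (add_le_add p.gsum1 p.gsum2)

/-- the planted graceful numbering -/
noncomputable def gplant (k v : ℕ) : ℕ := if v = 0 then 0 else p.plant k v

theorem gplanted {C : Finset ℕ} (hC : C ⊆ p.Slots) {k : ℕ} (hk : k ∈ p.S) :
    GValid p (p.lo' C) k (p.gplant k) := by
  have hV := p.planted hC hk
  obtain ⟨h1, h2, h3, h4⟩ := hV
  have hk1 := p.k1_pos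
  have hkk := p.k1_le k hk
  have e0 : p.gplant k 0 = 0 := by unfold gplant; rw [if_pos rfl]
  have ev : ∀ v, p.isV v → p.gplant k v = p.plant k v := by
    intro v hv
    have := p.isV_pos hv
    unfold gplant; rw [if_neg (by omega)]
  have hr : ∀ v, p.isV v → k ≤ p.plant k v ∧ p.plant k v ≤ k + p.N - 1 := fun v hv =>
    (h4 _).2 (Or.inl ⟨v, hv, rfl⟩)
  refine ⟨?_, ?_, ?_⟩
  · rintro u v (rfl | hu) (rfl | hv) h
    · rfl
    · rw [e0, ev v hv] at h
      have := hr v hv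
      omega
    · rw [e0, ev u hu] at h
      have := hr u hu
      omega
    · rw [ev u hu, ev v hv] at h
      exact h1 u v hu hv h
  · rintro v (rfl | hv)
    · rw [e0]; omega
    · rw [ev v hv]
      have := hr v hv
      omega
  · intro m hm1 hm2
    rcases (h4 m).1 ⟨hm1, by omega⟩ with ⟨v, hv, he⟩ | ⟨w, hw, he⟩
    · refine ⟨v, p.isE'_iff.2 (Or.inl hv), ?_⟩
      rw [p.elb'_V hv, e0, ev v hv]
      omega
    · refine ⟨w, p.isE'_iff.2 (Or.inr hw), ?_⟩
      have hlo := p.lo_isV hC hw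
      rw [p.elb'_E hw, ← he]
      unfold elb
      rw [ev _ hlo.1, ev _ hlo.2]

end Par

end Pool.Agent.Helper791.Seq
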