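import Pool.Agent.Helper791Seq.Basic

set_option autoImplicit false

/-! # The planted numberings -/

namespace Pool.Agent.Helper791.Seq

open Finset Classical

variable (p : Par)

namespace Par

theorem block {y z : ℕ} (hz1 : p.k1 ≤ z) (hz2 : z < p.K) (hy1 : p.k1 ≤ y) (hy2 : y < p.K)
    (h1 : p.prv z ≤ y) (h2 : y < p.nxt z) : p.prv y = p.prv z ∧ p.nxt y = p.nxt z := by
  have a1 := p.prv_le y hy1 hy2
  have a2 := p.lt_nxt y hy1 hy2
  have a3 := p.prv_le z hz1 hz2
  have a4 := p.lt_nxt z hz1 hz2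
  have b1 := p.gap z hz1 hz2 _ (p.prv_mem y hy1 hy2)
  have b2 := p.gap z hz1 hz2 _ (p.nxt_mem y hy1 hy2)
  have b3 := p.gap y hy1 hy2 _ (p.prv_mem z hz1 hz2)
  have b4 := p.gap y hy1 hy2 _ (p.nxt_mem z hz1 hz2)
  omega

/-- reflection inside a block -/
def inv (z : ℕ) : ℕ := p.prv z + p.nxt z - 1 - z

theorem inv_range {z : ℕ} (hz1 : p.k1 ≤ z) (hz2 : z < p.K) :
    p.prv z ≤ p.inv z ∧ p.inv z < p.nxt z ∧ p.k1 ≤ p.inv z ∧ p.inv z < p.K := by
  have a3 := p.prv_le z hz1 hz2
  have a4 := p.lt_nxt z hz1 hz2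
  have a5 := p.k1_le _ (p.prv_mem z hz1 hz2)
  have a6 := p.le_K _ (p.nxt_mem z hz1 hz2)
  unfold inv; omega

theorem inv_block {z : ℕ} (hz1 : p.k1 ≤ z) (hz2 : z < p.K) :
    p.prv (p.inv z) = p.prv z ∧ p.nxt (p.inv z) = p.nxt z := by
  obtain ⟨h1, h2, h3, h4⟩ := p.inv_range hz1 hz2
  exact p.block hz1 hz2 h3 h4 h1 h2

theorem inv_inv {z : ℕ} (hz1 : p.k1 ≤ z) (hz2 : z < p.K) : p.inv (p.inv z) = z := by
  obtain ⟨h1, h2⟩ := p.inv_block hz1 hz2
  have a3 := p.prv_le z hz1 hz2
  have a4 := p.lt_nxt z hz1 hz2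
  unfold inv at *
  rw [h1, h2]; omega

/-- `nxt` of the start of the block -/
theorem nxt_prv {z : ℕ} (hz1 : p.k1 ≤ z) (hz2 : z < p.K) :
    p.nxt (p.prv z) = p.nxt z ∧ p.prv (p.prv z) = p.prv z := by
  have a3 := p.prv_le z hz1 hz2
  have a4 := p.lt_nxt z hz1 hz2
  have a5 := p.k1_le _ (p.prv_mem z hz1 hz2)
  have := p.block hz1 hz2 (y := p.prv z) a5 (by omega) (le_refl _) (by omega)
  exact ⟨this.2, this.1⟩

theorem kap_prv {z : ℕ} (hz1 : p.k1 ≤ z) (hz2 : z < p.K) :
    p.kap (p.prv z - p.k1) = p.prv z - p.k1 + p.nxt z := by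
  unfold kap
  have a5 := p.k1_le _ (p.prv_mem z hz1 hz2)
  rw [show p.k1 + (p.prv z - p.k1) = p.prv z by omega, (p.nxt_prv hz1 hz2).1]

theorem hub_sum' {z : ℕ} (hz1 : p.k1 ≤ z) (hz2 : z < p.K) :
    p.ah (p.prv z - p.k1) + p.bh (p.prv z - p.k1) + 1 = p.top + (p.prv z - p.k1 + p.nxt z) := by
  have a3 := p.prv_le z hz1 hz2
  rw [p.hub_sum (by omega), p.kap_prv hz1 hz2]

noncomputable def plant (k v : ℕ) : ℕ := if v < k then p.top - p.k1 + p.inv v else v

theorem plant_bulk {k v : ℕ} (hk : k ≤ p.K) (hv : p.bulk v) : p.plant k v = v := by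
  have := p.bulk_ge_D hv; have := p.K_lt_D
  unfold plant; rw [if_neg (by omega)]

theorem hub_bulk {n : ℕ} (hn : n < p.K - p.k1) : p.bulk (p.ah n) ∧ p.bulk (p.bh n) := by
  have := p.H_eq
  exact ⟨p.bulk_r (by omega), p.bulk_r (by omega)⟩

/-- edge labels of the planted numbering, outside the holes -/
theorem elb_plant {C : Finset ℕ} (hC : C ⊆ p.Slots) {k w : ℕ} (hk : k ≤ p.K) (hE : p.isE w)
    (hh : ¬ p.isHole w) : elb (p.lo C) (p.plant k) w = w := by
  have hb : p.bulk (p.lo C w) ∧ p.bulk (p.lo C w + w) := by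
    by_cases hw : w ∈ C
    · rw [p.lo_mem hh hw]; exact p.link_bulk (p.mem_Slots.1 (hC hw))
    · rw [p.lo_not_mem hh hw]; exact p.base_bulk hE
  unfold elb
  rw [p.plant_bulk hk hb.1, p.plant_bulk hk hb.2]
  push_cast; omega

theorem elb_hole {C : Finset ℕ} {k z w : ℕ} (hk : k ≤ p.K) (h : p.holeAt z w) :
    elb (p.lo C) (p.plant k) w = if z < k then
      p.ah (p.prv z - p.k1) + p.bh (p.prv z - p.k1) - 2 * z - w else w := by
  have hz := h
  obtain ⟨h1, h2, h3⟩ := h
  have a3 := p.prv_le z h1 h2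
  have a4 := p.lt_nxt z h1 h2
  have a5 := p.k1_le _ (p.prv_mem z h1 h2)
  have hn : p.prv z - p.k1 < p.K - p.k1 := by omega
  have hb := p.hub_bulk hn
  have hs := p.hub_sum' h1 h2
  have hbig : p.D ≤ p.ah (p.prv z - p.k1) ∧ p.D ≤ p.bh (p.prv z - p.k1) :=
    ⟨p.bulk_ge_D hb.1, p.bulk_ge_D hb.2⟩
  have hKD := p.K_lt_D
  have hbb : p.bulk (z + w) := by
    rcases h3 with h3 | h3
    · rw [show z + w = w + z by omega, h3]; exact hb.1
    · rw [show z + w = w + z by omega, h3]; exact hb.2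
  have htop := p.x0_lt_top
  have htop2 := p.r_lt_x0 (Nat.zero_le _)
  have hr0 := p.r_zero
  unfold elb
  rw [p.lo_hole hz, p.plant_bulk hk hbb]
  unfold plant inv
  split_ifs with hc
  · rcases h3 with h3 | h3 <;> omega
  · rcases h3 with h3 | h3 <;> omega

/-- the other hole of the same vertex -/
theorem hole_swap {z w : ℕ} (h : p.holeAt z w) :
    p.holeAt z (p.ah (p.prv z - p.k1) + p.bh (p.prv z - p.k1) - 2 * z - w) := by
  obtain ⟨h1, h2, h3⟩ := h
  have a3 := p.prv_le z h1 h2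
  have hn : p.prv z - p.k1 < p.K - p.k1 := by
    have := p.k1_le _ (p.prv_mem z h1 h2); omega
  have hb := p.hub_bulk hn
  have hbig : p.D ≤ p.ah (p.prv z - p.k1) ∧ p.D ≤ p.bh (p.prv z - p.k1) :=
    ⟨p.bulk_ge_D hb.1, p.bulk_ge_D hb.2⟩
  have hKD := p.K_lt_D
  refine ⟨h1, h2, ?_⟩
  rcases h3 with h3 | h3
  · right; omega
  · left; omega

theorem elb_involutive {C : Finset ℕ} (hC : C ⊆ p.Slots) {k w : ℕ} (hk : k ≤ p.K) (hE : p.isE w) :
    p.isE (elb (p.lo C) (p.plant k) w) ∧
    elb (p.lo C) (p.plant k) (elb (p.lo C) (p.plant k) w) = w := by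
  by_cases hh : p.isHole w
  · obtain ⟨z, hz⟩ := hh
    by_cases hc : z < k
    · have e1 := p.elb_hole (C := C) hk hz
      rw [if_pos hc] at e1
      have hz' := p.hole_swap hz
      rw [← e1] at hz'
      refine ⟨p.hole_isE ⟨z, hz'⟩, ?_⟩
      rw [p.elb_hole hk hz', if_pos hc, e1]
      have hz'' := p.hole_swap hz
      obtain ⟨h1, h2, h3⟩ := hz
      have a3 := p.prv_le z h1 h2
      have hn : p.prv z - p.k1 < p.K - p.k1 := by
        have := p.k1_le _ (p.prv_mem z h1 h2); omega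
      have hb := p.hub_bulk hn
      have hbig : p.D ≤ p.ah (p.prv z - p.k1) ∧ p.D ≤ p.bh (p.prv z - p.k1) :=
        ⟨p.bulk_ge_D hb.1, p.bulk_ge_D hb.2⟩
      have hKD := p.K_lt_D
      omega
    · have e1 := p.elb_hole (C := C) hk hz
      rw [if_neg hc] at e1
      rw [e1, e1]; exact ⟨hE, rfl⟩
  · have e1 := p.elb_plant hC hk hE hh
    rw [e1, e1]; exact ⟨hE, rfl⟩

theorem planted {C : Finset ℕ} (hC : C ⊆ p.Slots) {k : ℕ} (hk : k ∈ p.S) :
    Valid p (p.lo C) k (p.plant k) := by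
  have hkK := p.le_K k hk
  have hkk1 := p.k1_le k hk
  have hKD := p.K_lt_D
  have hx := p.x0_lt_top
  have hDx : p.D < p.x0 := p.r_lt_x0 (Nat.zero_le _)
  have hk1 := p.k1_pos
  have hk1K := p.k1_le_K
  -- values on small vertices
  have hsmall : ∀ z, p.k1 ≤ z → z < p.K → z < k → p.top ≤ p.plant k z ∧
      p.plant k z = p.top - p.k1 + p.inv z ∧ p.inv z < k := by
    intro z h1 h2 h3
    obtain ⟨b1, b2, b3, b4⟩ := p.inv_range h1 h2
    have b5 := p.gap z h1 h2 k hk
    have b6 := p.prv_le z h1 h2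
    unfold plant
    rw [if_pos h3]
    omega
  refine ⟨?_, ?_, ?_, ?_⟩
  · -- injectivity
    intro u v hu hv h
    have hu1 := p.isV_ge_k1 hu
    have hv1 := p.isV_ge_k1 hv
    have hut := p.isV_lt_top hu
    have hvt := p.isV_lt_top hv
    by_cases c1 : u < k <;> by_cases c2 : v < k
    · have a := hsmall u hu1 (by omega) c1
      have b := hsmall v hv1 (by omega) c2
      have e : p.inv u = p.inv v := by omega
      rw [← p.inv_inv hu1 (by omega), e, p.inv_inv hv1 (by omega)]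
    · have a := hsmall u hu1 (by omega) c1
      have : p.plant k v = v := by unfold plant; rw [if_neg c2]
      omega
    · have a := hsmall v hv1 (by omega) c2
      have : p.plant k u = u := by unfold plant; rw [if_neg c1]
      omega
    · have e1 : p.plant k v = v := by unfold plant; rw [if_neg c2]
      have e2 : p.plant k u = u := by unfold plant; rw [if_neg c1]
      omega
  · intro w w' hw hw' h
    rw [← (p.elb_involutive hC hkK hw).2, h, (p.elb_involutive hC hkK hw').2]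
  · intro w v hw hv h
    have e1 := (p.elb_involutive hC hkK hw).1
    have hv1 := p.isV_ge_k1 hv
    by_cases c : v < k
    · have a := hsmall v hv1 (by omega) c
      have := e1.2.1
      omega
    · have e2 : p.plant k v = v := by unfold plant; rw [if_neg c]
      rw [h, e2] at e1
      exact p.isE_not_isV e1 hv
  · intro n
    constructor
    · rintro ⟨h1, h2⟩
      unfold N at h2
      by_cases hn : n < p.top
      · rcases p.isV_or_isE (v := n) (by omega) hn with h | h
        · left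
          exact ⟨n, h, by unfold plant; rw [if_neg (by omega)]⟩
        · right
          exact ⟨_, (p.elb_involutive hC hkK h).1, (p.elb_involutive hC hkK h).2⟩
      · left
        have hy1 : p.k1 ≤ n - p.top + p.k1 := by omega
        have hy2 : n - p.top + p.k1 < p.K := by omega
        obtain ⟨b1, b2, b3, b4⟩ := p.inv_range hy1 hy2
        have b5 := p.gap _ hy1 hy2 k hk
        have b6 := p.prv_le _ hy1 hy2
        refine ⟨p.inv (n - p.top + p.k1), Or.inl ⟨b3, b4⟩, ?_⟩
        unfold plant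
        rw [if_pos (by omega), p.inv_inv hy1 hy2]
        omega
    · rintro (⟨v, hv, rfl⟩ | ⟨w, hw, rfl⟩)
      · have hv1 := p.isV_ge_k1 hv
        have hvt := p.isV_lt_top hv
        unfold N
        by_cases c : v < k
        · have a := hsmall v hv1 (by omega) c
          omega
        · have e2 : p.plant k v = v := by unfold plant; rw [if_neg c]
          omega
      · have e1 := (p.elb_involutive hC hkK hw).1
        have := e1.1; have := e1.2.1
        unfold N
        omega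

end Par

end Pool.Agent.Helper791.Seq
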