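import Pool.Agent.Helper791Seq.Steps

set_option autoImplicit false

/-! # Rigidity -/

namespace Pool.Agent.Helper791.Seq

open Finset Classical

variable (p : Par)

namespace Par

/-- a family of slots with at most one unbroken member gives many broken slots -/
theorem many_broken (F : ℕ → ℤ) (n : ℕ) (s : ℕ → ℕ) (hs : ∀ a, a < n → p.isSlot (s a))
    (hinj : ∀ a b, a < n → b < n → s a = s b → a = b)
    (hone : ∀ a b, a < n → b < n → ¬ p.brk F (s a) → ¬ p.brk F (s b) → a = b) :
    n - 1 ≤ p.bnum F := by
  have hsum : ((range n).filter (fun a => p.brk F (s a))).card +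
      ((range n).filter (fun a => ¬ p.brk F (s a))).card = n := by
    rw [Finset.card_filter_add_card_filter_not]; simp
  have h1 : ((range n).filter (fun a => ¬ p.brk F (s a))).card ≤ 1 := by
    rw [card_le_one]
    intro a ha b hb
    rw [mem_filter, mem_range] at ha hb
    exact hone a b ha.1 hb.1 ha.2 hb.2
  have h2 : ((range n).filter (fun a => p.brk F (s a))).card ≤ p.bnum F := by
    unfold bnum
    apply card_le_card_of_injOn s
    · intro a ha
      rw [mem_coe, mem_filter, mem_range] at ha
      rw [mem_coe, mem_filter]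
      exact ⟨p.mem_Slots.2 (hs a ha.1), ha.2⟩
    · intro a ha b hb h
      rw [mem_coe, mem_filter, mem_range] at ha hb
      exact hinj a b ha.1 hb.1 h
  omega

/-- the slot at level `j` and column `i`, broken or not -/
theorem brk_small (F : ℕ → ℤ) {i j : ℕ} (hj : j ≤ 2 * p.H) (hi : i + 2 * p.K + 1 ≤ p.D) :
    ¬ p.brk F (p.x0 + i - p.r j) ↔
      (F (p.x0 + i + p.g j) - F (p.x0 + i) = F (p.r (j + 1)) - F (p.r j) ∨
       F (p.x0 + i + p.g j) + F (p.x0 + i) = F (p.r (j + 1)) + F (p.r j)) := by
  obtain ⟨e0, e1, e2, e3, e4⟩ := p.slot_small hj hi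
  unfold brk
  rw [e2, e4, e1, e3, ne_eq, not_not, abs_eq_abs]
  constructor
  · rintro (h | h)
    · left; linarith
    · right; linarith
  · rintro (h | h)
    · left; linarith
    · right; linarith

theorem two_levels (F : ℕ → ℤ) (hF : p.InjB F) {j j' : ℕ} (hj : j ≤ 2 * p.H) (hj' : j' ≤ 2 * p.H)
    (hg : p.g j = p.g j') (hG : F (p.r (j + 1)) - F (p.r j) ≠ F (p.r (j' + 1)) - F (p.r j'))
    (hS : F (p.r (j + 1)) + F (p.r j) ≠ F (p.r (j' + 1)) + F (p.r j')) :
    p.D - 2 * p.K - 2 ≤ p.bnum F := by
  set I := range (p.D - 2 * p.K) with hI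
  have hsum : (I.filter (fun i => p.brk F (p.x0 + i - p.r j) ∨ p.brk F (p.x0 + i - p.r j'))).card +
      (I.filter (fun i => ¬ (p.brk F (p.x0 + i - p.r j) ∨ p.brk F (p.x0 + i - p.r j')))).card =
      p.D - 2 * p.K := by
    rw [Finset.card_filter_add_card_filter_not, hI, card_range]
  have hsz := p.size2
  -- at most two columns are unbroken on both levels
  have h2 : (I.filter (fun i => ¬ (p.brk F (p.x0 + i - p.r j) ∨
      p.brk F (p.x0 + i - p.r j')))).card ≤ 2 := by
    have hsub : (I.filter (fun i => ¬ (p.brk F (p.x0 + i - p.r j) ∨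
        p.brk F (p.x0 + i - p.r j')))) ⊆
        (I.filter (fun i => 2 * F (p.x0 + i) = (F (p.r (j' + 1)) + F (p.r j')) -
          (F (p.r (j + 1)) - F (p.r j)))) ∪
        (I.filter (fun i => 2 * F (p.x0 + i) = (F (p.r (j + 1)) + F (p.r j)) -
          (F (p.r (j' + 1)) - F (p.r j')))) := by
      intro i hi
      rw [mem_filter] at hi
      obtain ⟨hiI, hi2⟩ := hi
      push Not at hi2
      have hi3 : i + 2 * p.K + 1 ≤ p.D := by rw [hI, mem_range] at hiI; omega
      have h1 := (p.brk_small F hj hi3).1 hi2.1
      have h2 := (p.brk_small F hj' hi3).1 hi2.2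
      rw [← hg] at h2
      rw [mem_union, mem_filter, mem_filter]
      rcases h1 with h1 | h1 <;> rcases h2 with h2 | h2
      · exact absurd (h1.symm.trans h2) hG
      · left; exact ⟨hiI, by linarith⟩
      · right; exact ⟨hiI, by linarith⟩
      · exact absurd (h1.symm.trans h2) hS
    have hone : ∀ t : ℤ, (I.filter (fun i => 2 * F (p.x0 + i) = t)).card ≤ 1 := by
      intro t
      rw [card_le_one]
      intro a ha b hb
      rw [mem_filter, hI, mem_range] at ha hb
      have := hF _ _ (p.bulk_x (i := a) (by omega)) (p.bulk_x (i := b) (by omega)) (by linarith)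
      omega
    refine (card_le_card hsub).trans ((card_union_le _ _).trans ?_)
    have := hone ((F (p.r (j' + 1)) + F (p.r j')) - (F (p.r (j + 1)) - F (p.r j)))
    have := hone ((F (p.r (j + 1)) + F (p.r j)) - (F (p.r (j' + 1)) - F (p.r j')))
    omega
  have h3 : (I.filter (fun i => p.brk F (p.x0 + i - p.r j) ∨
      p.brk F (p.x0 + i - p.r j'))).card ≤ p.bnum F := by
    unfold bnum
    apply card_le_card_of_injOn (fun i => if p.brk F (p.x0 + i - p.r j) then p.x0 + i - p.r j
      else p.x0 + i - p.r j')
    · intro i hi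
      rw [mem_coe, mem_filter, hI, mem_range] at hi
      rw [mem_coe, mem_filter, mem_Slots]
      by_cases hb : p.brk F (p.x0 + i - p.r j)
      · simp only [hb, if_true]
        exact ⟨(p.slot_small hj (by omega)).1, trivial⟩
      · simp only [hb, if_false]
        refine ⟨(p.slot_small hj' (by omega)).1, ?_⟩
        rcases hi.2 with h | h
        · exact absurd h hb
        · exact h
    · intro a ha b hb h
      rw [mem_coe, mem_filter, hI, mem_range] at ha hb
      simp only at h
      split_ifs at h
      · exact (p.col_inj (by omega) (by omega) hj hj h).1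
      · exact (p.col_inj (by omega) (by omega) hj hj' h).1
      · exact (p.col_inj (by omega) (by omega) hj' hj h).1
      · exact (p.col_inj (by omega) (by omega) hj' hj' h).1
  omega

/-- not good implies many broken slots -/
theorem not_good (F : ℕ → ℤ) (hF : p.InjB F) (hG : ¬ p.Good F) :
    p.D - 2 * p.K - 2 ≤ p.bnum F := by
  have hH := p.H_pos
  unfold Good at hG
  rw [not_and_or] at hG
  have core : ∀ e, e + 1 ≤ 2 * p.H → p.g e = p.g (e + 1) → ∀ j, j ≤ 2 * p.H → p.g j = p.g e →
      F (p.r (j + 1)) - F (p.r j) ≠ F (p.r (e + 1)) - F (p.r e) →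
      p.D - 2 * p.K - 2 ≤ p.bnum F := by
    intro e he hge j hj hgj hne
    have hS : F (p.r (e + 1 + 1)) + F (p.r (e + 1)) ≠ F (p.r (e + 1)) + F (p.r e) := by
      intro h
      have h1 : F (p.r (e + 1 + 1)) = F (p.r e) := by linarith
      have h2 := hF _ _ (p.bulk_r (by omega)) (p.bulk_r (by omega)) h1
      have := p.r_inj h2
      omega
    by_cases h1 : F (p.r (j + 1)) + F (p.r j) = F (p.r (e + 1)) + F (p.r e)
    · by_cases h2 : F (p.r (j + 1)) - F (p.r j) = F (p.r (e + 1 + 1)) - F (p.r (e + 1))
      · apply p.two_levels F hF (j := e + 1) (j' := e) he (by omega) hge.symm _ hS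
        rw [← h2]; exact hne
      · apply p.two_levels F hF (j := j) (j' := e + 1) hj he (hgj.trans hge) h2
        rw [h1]; exact hS.symm
    · exact p.two_levels F hF hj (by omega) hgj hne h1
  rcases hG with hG | hG
  · push Not at hG
    obtain ⟨j, hj, hgj, hne⟩ := hG
    exact core 0 (by omega) (by rw [p.g0, p.g1]) j hj (by rw [p.g0]; exact hgj) hne
  · push Not at hG
    obtain ⟨j, hj, hgj, hne⟩ := hG
    exact core 2 (by omega) (by rw [p.g2, p.g3]) j hj (by rw [p.g2]; exact hgj) hne

/-- good and few broken slots imply affine -/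
theorem good_affine (F : ℕ → ℤ) (hF : p.InjB F) (hG : p.Good F) (hb : p.bnum F < p.m - 1) :
    p.Affine F := by
  obtain ⟨hG0, hG1⟩ := hG
  have hH := p.H_pos
  have hH0 := p.H0_eq
  have hHH := p.H0_le_H
  have hD := p.D_pos
  have hsz := p.size2
  have hK := p.K_pos
  set Δ := F (p.r 1) - F (p.r 0) with hΔ
  set Δ' := F (p.r 3) - F (p.r 2) with hΔ'
  -- step A
  have hA : ∀ i, i + 2 ≤ p.D → F (p.x0 + i + (p.D + 1)) = F (p.x0 + i) + Δ' := by
    intro i hi
    by_contra hne
    apply absurd hb
    rw [not_lt]
    apply p.many_broken F p.m (fun a => p.x0 + i - p.r (4 * a + 2))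
    · intro a ha; exact (p.slot_J1 ha.le hi).1
    · intro a b ha hb' h
      have := (p.col_inj (by omega) (by omega) (by omega) (by omega) h).2
      omega
    · intro a b ha hb' h1 h2
      have key : ∀ a, a < p.m → ¬ p.brk F (p.x0 + i - p.r (4 * a + 2)) →
          F (p.x0 + i + (p.D + 1)) + F (p.x0 + i) = 2 * F (p.r (4 * a + 2)) + Δ' := by
        intro a ha h
        obtain ⟨e0, e1, e2, e3, e4⟩ := p.slot_J1 (i := i) (a := a) ha.le hi
        have hgj : p.g (4 * a + 2) = p.D + 1 := by rw [g_lt_H0 p (by omega)]; omega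
        have h3 := hG1 (4 * a + 2) (by omega) hgj
        rw [show 4 * a + 2 + 1 = 4 * a + 3 by omega] at h3
        unfold brk at h
        rw [e2, e4, e1, e3, ne_eq, not_not, abs_eq_abs] at h
        rcases h with h | h
        · exfalso; apply hne; linarith
        · linarith
      have k1 := key a ha h1
      have k2 := key b hb' h2
      have := hF _ _ (p.bulk_r (j := 4 * a + 2) (by omega)) (p.bulk_r (j := 4 * b + 2) (by omega))
        (by linarith)
      have := p.r_inj this
      omega
  -- step B
  have hB : ∀ i, i + 1 ≤ p.D → F (p.x0 + i + p.D) = F (p.x0 + i) + Δ := by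
    intro i hi
    by_contra hne
    apply absurd hb
    rw [not_lt]
    apply p.many_broken F p.m (fun a => p.x0 + i - p.r (4 * (a + 1)))
    · intro a ha; exact (p.slot_J0 (by omega) (by omega) hi).1
    · intro a b ha hb' h
      have := (p.col_inj (by omega) (by omega) (by omega) (by omega) h).2
      omega
    · intro a b ha hb' h1 h2
      have key : ∀ a, a < p.m → ¬ p.brk F (p.x0 + i - p.r (4 * (a + 1))) →
          F (p.x0 + i + p.D) + F (p.x0 + i) = 2 * F (p.r (4 * (a + 1))) + Δ := by
        intro a ha h
        obtain ⟨e0, e1, e2, e3, e4⟩ :=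
          p.slot_J0 (i := i) (a := a + 1) (by omega) (by omega) hi
        have hgj : p.g (4 * (a + 1)) = p.D := by rw [g_lt_H0 p (by omega)]; omega
        have h3 := hG0 (4 * (a + 1)) (by omega) hgj
        unfold brk at h
        rw [e2, e4, e1, e3, ne_eq, not_not, abs_eq_abs] at h
        rcases h with h | h
        · exfalso; apply hne; linarith
        · linarith
      have k1 := key a ha h1
      have k2 := key b hb' h2
      have := hF _ _ (p.bulk_r (j := 4 * (a + 1)) (by omega))
        (p.bulk_r (j := 4 * (b + 1)) (by omega)) (by linarith)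
      have := p.r_inj this
      omega
  set δ := Δ' - Δ with hδ
  have hC : ∀ i : ℕ, i + 1 ≤ p.D → F (p.x0 + i) = F p.x0 + i * δ := by
    intro i
    induction i with
    | zero => intro _; simp
    | succ i ih =>
      intro hi
      have e1 := hA i (by omega)
      have e2 := hB (i + 1) hi
      rw [show p.x0 + (i + 1) + p.D = p.x0 + i + (p.D + 1) by omega] at e2
      have e3 := ih (by omega)
      push_cast
      linarith
  have hδ0 : δ ≠ 0 := by
    intro h
    have e1 := hC 1 (by omega)
    rw [h] at e1
    have := hF _ _ (p.bulk_x (i := 1) (by omega)) (p.bulk_x (i := 0) (by omega))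
      (by rw [e1]; simp)
    omega
  -- step D: the small slots
  have hΔD : Δ = p.D * δ := by
    by_contra hne
    apply absurd hb
    rw [not_lt]
    apply p.many_broken F p.m (fun a => 2 * a + (2 * p.K + 1))
    · intro a ha; exact (p.slot_w (by omega) (by omega) (by omega)).1
    · intro a b ha hb' h; omega
    · intro a b ha hb' h1 h2
      have key : ∀ a : ℕ, a < p.m → ¬ p.brk F (2 * a + (2 * p.K + 1)) →
          Δ = (p.D - 2 * (2 * a + (2 * p.K + 1) : ℤ)) * δ := by
        intro a ha h
        have hw : 2 * a + (2 * p.K + 1) < p.D := by omega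
        obtain ⟨e0, e1, e2, e3⟩ :=
          p.slot_w (w := 2 * a + (2 * p.K + 1)) (by omega) hw (by omega)
        unfold brk at h
        have hB0 := hB 0 (by omega)
        simp only [Nat.add_zero] at hB0
        rw [e3, e1, e2, ne_eq, not_not, abs_eq_abs, hB0,
          hC (2 * a + (2 * p.K + 1)) (by omega),
          show p.x0 + p.D - (2 * a + (2 * p.K + 1)) = p.x0 + (p.D - (2 * a + (2 * p.K + 1))) by
            omega, hC (p.D - (2 * a + (2 * p.K + 1))) (by omega)] at h
        rw [Nat.cast_sub hw.le] at h
        push_cast at h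
        rcases h with h | h
        · exfalso; apply hne
          linear_combination h
        · linear_combination -h
      have k1 := key a ha h1
      have k2 := key b hb' h2
      rw [k1] at k2
      have := mul_right_cancel₀ hδ0 k2
      omega
  have hX : ∀ i : ℕ, i < 2 * p.D → F (p.x0 + i) = F p.x0 + i * δ := by
    intro i hi
    by_cases h : i + 1 ≤ p.D
    · exact hC i h
    · have e1 := hB (i - p.D) (by omega)
      rw [show p.x0 + (i - p.D) + p.D = p.x0 + i by omega, hC (i - p.D) (by omega), hΔD,
        Nat.cast_sub (by omega)] at e1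
      rw [e1]; ring
  -- all gaps
  have hgap : ∀ j, j ≤ 2 * p.H → F (p.r (j + 1)) - F (p.r j) = p.g j * δ := by
    intro j hj
    by_contra hne
    apply absurd hb
    rw [not_lt]
    apply p.many_broken F p.m (fun a => p.x0 + a - p.r j)
    · intro a ha; exact (p.slot_small hj (by omega)).1
    · intro a b ha hb' h
      exact (p.col_inj (by omega) (by omega) (by omega) (by omega) h).1
    · intro a b ha hb' h1 h2
      have hgl := p.g_le j
      have key : ∀ a : ℕ, a < p.m → ¬ p.brk F (p.x0 + a - p.r j) →
          2 * F p.x0 + (2 * a + p.g j) * δ = F (p.r (j + 1)) + F (p.r j) := by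
        intro a ha h
        have h3 := (p.brk_small F hj (by omega)).1 h
        rw [show p.x0 + a + p.g j = p.x0 + (a + p.g j) by omega, hX a (by omega),
          hX (a + p.g j) (by omega)] at h3
        push_cast at h3
        rcases h3 with h3 | h3
        · exfalso; apply hne; linear_combination -h3
        · linear_combination h3
      have k1 := key a ha h1
      have k2 := key b hb' h2
      have k3 : (2 * (a : ℤ) - 2 * b) * δ = 0 := by linear_combination k1 - k2
      rcases mul_eq_zero.1 k3 with h | h
      · omega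
      · exact absurd h hδ0
  have hR : ∀ j, j ≤ 2 * p.H + 1 → F (p.r j) = F (p.r 0) + δ * ((p.r j : ℤ) - p.r 0) := by
    intro j
    induction j with
    | zero => intro _; ring
    | succ j ih =>
      intro hj
      have e1 := ih (by omega)
      have e2 := hgap j (by omega)
      have e3 : (p.r (j + 1) : ℤ) = p.r j + p.g j := by rw [p.r_succ]; push_cast; ring
      rw [e3]
      linear_combination e1 + e2
  refine ⟨δ, F (p.r 0) - δ * p.r 0, ?_⟩
  rintro v (⟨j, hj, rfl⟩ | hv)
  · rw [hR j (by omega)]; ring
  · have e1 := hX (v - p.x0) (by have := hv.2; unfold top at this; omega)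
    rw [show p.x0 + (v - p.x0) = v by omega, Nat.cast_sub hv.1] at e1
    have e2 := hR (2 * p.H + 1) (le_refl _)
    have e3 : p.r (2 * p.H + 1) = p.x0 := rfl
    rw [e3] at e2
    rw [e1, e2]; ring

end Par

end Pool.Agent.Helper791.Seq
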