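import Pool.Agent.Helper791Seq.Basic

set_option autoImplicit false

/-! # The propagation steps -/

namespace Pool.Agent.Helper791.Seq

open Finset Classical

/-- if many relations `|c - p a| = q a` hold then `c` is the popular value -/
noncomputable def popc {m : ℕ} (P Q : Fin m → ℤ) : ℤ :=
  if h : ∃ c : ℤ, m + 1 < 2 * (univ.filter (fun a : Fin m => |c - P a| = Q a)).card
  then Classical.choose h else 0

theorem pop {m : ℕ} (P Q : Fin m → ℤ) (hP : Function.Injective P) (c : ℤ) (hc : c ≠ popc P Q) :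
    (m - 1) / 2 ≤ (univ.filter (fun a : Fin m => |c - P a| ≠ Q a)).card := by
  have hsum : (univ.filter (fun a : Fin m => |c - P a| = Q a)).card +
      (univ.filter (fun a : Fin m => |c - P a| ≠ Q a)).card = m := by
    rw [Finset.card_filter_add_card_filter_not]; simp
  by_contra hcon
  have hbig : m + 1 < 2 * (univ.filter (fun a : Fin m => |c - P a| = Q a)).card := by omega
  have hex : ∃ c : ℤ, m + 1 < 2 * (univ.filter (fun a : Fin m => |c - P a| = Q a)).card :=
    ⟨c, hbig⟩
  have hpc : popc P Q = Classical.choose hex := by unfold popc; rw [dif_pos hex]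
  have hs := Classical.choose_spec hex
  rw [← hpc] at hs
  generalize popc P Q = d at *
  have hinter : ((univ.filter (fun a : Fin m => |c - P a| = Q a)) ∩
      (univ.filter (fun a : Fin m => |d - P a| = Q a))).card ≤ 1 := by
    rw [card_le_one]
    intro a ha b hb
    simp only [mem_inter, mem_filter, mem_univ, true_and] at ha hb
    apply hP
    have h1 := ha.1.trans ha.2.symm
    have h2 := hb.1.trans hb.2.symm
    rw [abs_eq_abs] at h1 h2
    have : c ≠ d := hc
    omega
  have hunion := card_union_add_card_inter (univ.filter (fun a : Fin m => |c - P a| = Q a))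
    (univ.filter (fun a : Fin m => |d - P a| = Q a))
  have hle : ((univ.filter (fun a : Fin m => |c - P a| = Q a)) ∪
      (univ.filter (fun a : Fin m => |d - P a| = Q a))).card ≤ m := by
    have := card_le_univ ((univ.filter (fun a : Fin m => |c - P a| = Q a)) ∪
      (univ.filter (fun a : Fin m => |d - P a| = Q a)))
    simpa using this
  omega

variable (p : Par)

namespace Par

noncomputable def St : Finset ℕ := Ico (p.x0 + 1) (p.x0 + 2 * p.D)

def par (v : ℕ) : ℕ :=
  if v < p.x0 + p.D then v + p.D else if v = p.x0 + p.D then p.x0 else v - (p.D + 1)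
/-- the known end of the slot edge containing the child -/
def stP (v a : ℕ) : ℕ :=
  if v < p.x0 + p.D then p.r (4 * (a + 1)) else if v = p.x0 + p.D then p.r (4 * (a + 1) + 1)
  else p.r (4 * a + 3)
def stQ (v a : ℕ) : ℕ :=
  if v < p.x0 + p.D then p.r (4 * (a + 1) + 1) else if v = p.x0 + p.D then p.r (4 * (a + 1))
  else p.r (4 * a + 2)
def sl (v a : ℕ) : ℕ :=
  if v < p.x0 + p.D then p.x0 + (v - p.x0) - p.r (4 * (a + 1))
  else if v = p.x0 + p.D then p.x0 + 0 - p.r (4 * (a + 1))
  else p.x0 + (v - p.x0 - p.D - 1) - p.r (4 * a + 2)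
def rk (v : ℕ) : ℕ :=
  if v < p.x0 + p.D then 2 * (v - p.x0) else if v = p.x0 + p.D then 1
  else 2 * (v - p.x0 - p.D - 1) + 1

theorem rk_par {v : ℕ} (hv : v ∈ p.St) : p.rk (p.par v) < p.rk v := by
  unfold St at hv; rw [mem_Ico] at hv
  have := p.D_pos
  unfold rk par
  split_ifs <;> omega

theorem par_mem {v : ℕ} (hv : v ∈ p.St) : p.par v = p.x0 ∨ p.par v ∈ p.St := by
  unfold St at hv ⊢; rw [mem_Ico] at hv
  have := p.D_pos
  unfold par
  split_ifs <;> rw [mem_Ico] <;> omega

theorem sl_spec {v : ℕ} (hv : v ∈ p.St) {a : ℕ} (ha : a < p.m) (F : ℕ → ℤ) :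
    p.isSlot (p.sl v a) ∧ (p.brk F (p.sl v a) ↔ |F v - F (p.stP v a)| ≠
      |F (p.par v) - F (p.stQ v a)|) := by
  unfold St at hv; rw [mem_Ico] at hv
  have hD := p.D_pos
  unfold sl stP stQ par
  split_ifs with h1 h2
  · obtain ⟨e0, e1, e2, e3, e4⟩ :=
      p.slot_J0 (i := v - p.x0) (a := a + 1) (by omega) (by omega) (by omega)
    refine ⟨e0, ?_⟩
    unfold brk
    rw [e2, e4, e1, e3, show p.x0 + (v - p.x0) = v by omega,
      abs_sub_comm (F (p.r (4 * (a + 1)))) (F v),
      abs_sub_comm (F (p.r (4 * (a + 1) + 1))) (F (v + p.D))]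
  · obtain ⟨e0, e1, e2, e3, e4⟩ :=
      p.slot_J0 (i := 0) (a := a + 1) (by omega) (by omega) (by omega)
    refine ⟨e0, ?_⟩
    unfold brk
    rw [e2, e4, e1, e3, show p.x0 + 0 = p.x0 by omega, show p.x0 + p.D = v by omega,
      abs_sub_comm (F (p.r (4 * (a + 1)))) (F p.x0),
      abs_sub_comm (F (p.r (4 * (a + 1) + 1))) (F v)]
    exact ne_comm
  · obtain ⟨e0, e1, e2, e3, e4⟩ :=
      p.slot_J1 (i := v - p.x0 - p.D - 1) (a := a) (by omega) (by omega)
    refine ⟨e0, ?_⟩
    unfold brk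
    rw [e2, e4, e1, e3, show p.x0 + (v - p.x0 - p.D - 1) + (p.D + 1) = v by omega,
      show p.x0 + (v - p.x0 - p.D - 1) = v - (p.D + 1) by omega,
      abs_sub_comm (F (p.r (4 * a + 2))) (F (v - (p.D + 1))),
      abs_sub_comm (F (p.r (4 * a + 3))) (F v)]
    exact ne_comm

theorem col_inj {i i' j j' : ℕ} (hi : i < p.D) (hi' : i' < p.D) (hj : j ≤ 2 * p.H)
    (hj' : j' ≤ 2 * p.H) (h : p.x0 + i - p.r j = p.x0 + i' - p.r j') : i = i' ∧ j = j' := by
  have h1 := p.r_lt_x0 hj
  have h2 := p.r_lt_x0 hj'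
  rcases lt_trichotomy j j' with hl | hl | hl
  · have := p.r_add_D_le hl; omega
  · subst hl; exact ⟨by omega, rfl⟩
  · have := p.r_add_D_le hl; omega

theorem sl_inj {v v' a a' : ℕ} (hv : v ∈ p.St) (hv' : v' ∈ p.St) (ha : a < p.m) (ha' : a' < p.m)
    (h : p.sl v a = p.sl v' a') : v = v' ∧ a = a' := by
  unfold St at hv hv'; rw [mem_Ico] at hv hv'
  have hD := p.D_pos
  have h0 := p.H0_eq
  have hH := p.H0_le_H
  unfold sl at h
  split_ifs at h with h1 h2 h3 h4 h5 h6 h7 h8
  all_goals
    have := p.col_inj (by omega) (by omega) (by omega) (by omega) h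
    constructor <;> omega

theorem stP_inj {v : ℕ} {a a' : ℕ} (h : p.stP v a = p.stP v a') : a = a' := by
  unfold stP at h
  split_ifs at h <;> have := p.r_inj h <;> omega

theorem stPQ_r {v a : ℕ} (ha : a < p.m) :
    (∃ j, j ≤ 2 * p.H ∧ p.stP v a = p.r j) ∧ (∃ j, j ≤ 2 * p.H ∧ p.stQ v a = p.r j) := by
  have h0 := p.H0_eq
  have hH := p.H0_le_H
  unfold stP stQ
  split_ifs <;> exact ⟨⟨_, by omega, rfl⟩, ⟨_, by omega, rfl⟩⟩

noncomputable def c0 (F : ℕ → ℤ) (v : ℕ) : ℤ :=
  popc (m := p.m) (fun a => F (p.stP v a)) (fun a => |F (p.par v) - F (p.stQ v a)|)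

noncomputable def QF (F : ℕ → ℤ) : Finset ℕ := p.St.filter (fun v => F v ≠ p.c0 F v)

/-- The exceptional children cost many broken slots. -/
theorem QF_card (F : ℕ → ℤ) (hF : ∀ i j, i ≤ 2 * p.H → j ≤ 2 * p.H → F (p.r i) = F (p.r j) → i = j) :
    (p.m - 1) / 2 * (p.QF F).card ≤ p.bnum F := by
  have h1 : ∀ v ∈ p.QF F, (p.m - 1) / 2 ≤
      (univ.filter (fun a : Fin p.m => p.brk F (p.sl v a))).card := by
    intro v hv
    unfold QF at hv
    rw [mem_filter] at hv
    have := pop (m := p.m) (fun a => F (p.stP v a)) (fun a => |F (p.par v) - F (p.stQ v a)|)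
      (by
        intro a b hab
        obtain ⟨⟨j, hj, e⟩, _⟩ := p.stPQ_r (v := v) a.2
        obtain ⟨⟨j', hj', e'⟩, _⟩ := p.stPQ_r (v := v) b.2
        simp only [e, e'] at hab
        have := hF _ _ hj hj' hab
        rw [this] at e
        exact Fin.ext (p.stP_inj (e.trans e'.symm))) (F v) hv.2
    refine this.trans (le_of_eq ?_)
    congr 1
    apply filter_congr
    intro a _
    exact (p.sl_spec hv.1 a.2 F).2.symm
  have h2 : (p.m - 1) / 2 * (p.QF F).card ≤
      ((p.QF F).sigma (fun v => univ.filter (fun a : Fin p.m => p.brk F (p.sl v a)))).card := by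
    rw [card_sigma]
    have := Finset.sum_le_sum h1
    rw [sum_const, smul_eq_mul, mul_comm] at this
    exact this
  refine h2.trans ?_
  unfold bnum
  apply card_le_card_of_injOn (fun x => p.sl x.1 x.2)
  · rintro ⟨v, a⟩ hx
    simp only [coe_sigma, Set.mem_sigma_iff, mem_coe, mem_filter, mem_univ, true_and] at hx
    rw [mem_coe, mem_filter]
    have hv := (mem_filter.1 hx.1).1
    exact ⟨p.mem_Slots.2 (p.sl_spec hv a.2 F).1, hx.2⟩
  · rintro ⟨v, a⟩ hx ⟨v', a'⟩ hx' h
    simp only [coe_sigma, Set.mem_sigma_iff, mem_coe, mem_filter, mem_univ, true_and] at hx hx'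
    have hv := (mem_filter.1 hx.1).1
    have hv' := (mem_filter.1 hx'.1).1
    obtain ⟨e1, e2⟩ := p.sl_inj hv hv' a.2 a'.2 h
    subst e1
    have : a = a' := Fin.ext e2
    subst this
    rfl

/-- determination along the steps -/
theorem QF_det (F F' : ℕ → ℤ) (hQ : p.QF F = p.QF F')
    (hr : ∀ j, j ≤ 2 * p.H + 1 → F (p.r j) = F' (p.r j)) (hQv : ∀ v ∈ p.QF F, F v = F' v) :
    ∀ v ∈ p.St, F v = F' v := by
  have hx : F p.x0 = F' p.x0 := hr (2 * p.H + 1) (le_refl _)
  have main : ∀ n, ∀ v ∈ p.St, p.rk v ≤ n → F v = F' v := by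
    intro n
    induction n with
    | zero =>
      intro v hv h
      have := p.rk_par hv
      omega
    | succ n ih =>
      intro v hv h
      have hpar : F (p.par v) = F' (p.par v) := by
        rcases p.par_mem hv with h' | h'
        · rw [h', hx]
        · exact ih _ h' (by have := p.rk_par hv; omega)
      by_cases hvq : v ∈ p.QF F
      · exact hQv v hvq
      · have hvq' : v ∉ p.QF F' := by rw [← hQ]; exact hvq
        unfold QF at hvq hvq'
        rw [mem_filter] at hvq hvq'
        have e1 : F v = p.c0 F v := by by_contra h'; exact hvq ⟨hv, h'⟩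
        have e2 : F' v = p.c0 F' v := by by_contra h'; exact hvq' ⟨hv, h'⟩
        rw [e1, e2]
        unfold c0
        congr 1
        · funext a
          obtain ⟨⟨j, hj, e⟩, _⟩ := p.stPQ_r (v := v) a.2
          rw [e]; exact hr _ (by omega)
        · funext a
          obtain ⟨_, ⟨j, hj, e⟩⟩ := p.stPQ_r (v := v) a.2
          rw [e, hpar, hr _ (by omega)]
  intro v hv
  exact main _ v hv (le_refl _)

end Par

end Pool.Agent.Helper791.Seq
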