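import Pool.Agent.Helper791Seq.Counting
import Pool.Agent.Helper791Seq.Encode
import Pool.Agent.Helper791Seq.Rigid
import Pool.Agent.Helper791Seq.Final

set_option autoImplicit false

/-! # The union bound -/

namespace Pool.Agent.Helper791.Seq

open Finset Classical

variable (p : Par)

namespace Par

theorem lo_eq_wC {C : Finset ℕ} {F : ℕ → ℕ} {w : ℕ} (hw : w ∈ p.Slots) :
    elb (p.lo C) F w = wC (elb p.base F) (elb p.link F) C w := by
  have hh : ¬ p.isHole w := (p.mem_Slots.1 hw).2.1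
  unfold wC elb
  by_cases h : w ∈ C
  · rw [if_pos h, p.lo_mem hh h]
  · rw [if_neg h, p.lo_not_mem hh h]

theorem lo_nonslot {C : Finset ℕ} (hC : C ⊆ p.Slots) {w : ℕ} (hw : w ∉ p.Slots) :
    p.lo C w = p.lo ∅ w := by
  by_cases hh : p.isHole w
  · obtain ⟨z, hz⟩ := hh
    rw [p.lo_hole hz, p.lo_hole hz]
  · rw [p.lo_not_mem hh (fun h => hw (hC h)), p.lo_not_mem hh (by simp)]

theorem valid_count (F : ℕ → ℕ) (k : ℕ) :
    ((p.Slots.powerset.filter (fun C => Valid p (p.lo C) k F)).card : ℝ) ≤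
      2 ^ p.Slots.card * (3 / 4 : ℝ) ^ (p.bnum (fun v => (F v : ℤ))) := by
  set U : Finset ℕ := (Icc k (k + p.N - 1)).filter (fun n =>
    (¬ ∃ v, p.isV v ∧ F v = n) ∧ ¬ ∃ w, p.isE w ∧ w ∉ p.Slots ∧ elb (p.lo ∅) F w = n) with hU
  have h1 := count_le p.Slots (elb p.base F) (elb p.link F) U
  have hb : p.bnum (fun v => (F v : ℤ)) =
      (p.Slots.filter (fun σ => elb p.base F σ ≠ elb p.link F σ)).card := by
    unfold bnum
    congr 1
    apply filter_congr
    intro σ _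
    unfold brk elb
    rw [not_iff_not, Int.abs_eq_natAbs, Int.abs_eq_natAbs]
    exact Int.natCast_inj
  rw [hb]
  refine le_trans ?_ h1
  norm_cast
  apply card_le_card
  intro C hC
  rw [mem_filter] at hC ⊢
  obtain ⟨hC1, h1, h2, h3, h4⟩ := hC
  refine ⟨hC1, ?_, ?_⟩
  · intro σ hσ τ hτ h
    rw [← p.lo_eq_wC hσ, ← p.lo_eq_wC hτ] at h
    exact h2 σ τ (p.mem_Slots.1 hσ).1 (p.mem_Slots.1 hτ).1 h
  · rw [mem_powerset] at hC1
    ext n
    rw [mem_image, hU, mem_filter, mem_Icc]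
    constructor
    · rintro ⟨σ, hσ, rfl⟩
      have hE := (p.mem_Slots.1 hσ).1
      rw [← p.lo_eq_wC hσ]
      refine ⟨(h4 _).2 (Or.inr ⟨σ, hE, rfl⟩), ?_, ?_⟩
      · rintro ⟨v, hv, he⟩
        exact h3 σ v hE hv he.symm
      · rintro ⟨w, hw, hwS, he⟩
        have e2 : elb (p.lo C) F w = elb (p.lo ∅) F w := by
          unfold elb; rw [p.lo_nonslot hC1 hwS]
        rw [← e2] at he
        have := h2 w σ hw hE he
        rw [this] at hwS
        exact hwS hσ
    · rintro ⟨hn, hv, hw⟩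
      rcases (h4 n).1 hn with h | ⟨w, hwE, he⟩
      · exact absurd h hv
      · by_cases hwS : w ∈ p.Slots
        · exact ⟨w, hwS, by rw [← p.lo_eq_wC hwS]; exact he⟩
        · exfalso
          apply hw
          refine ⟨w, hwE, hwS, ?_⟩
          rw [← he]; unfold elb; rw [p.lo_nonslot hC1 hwS]

/-- bound for labels -/
def M : ℕ := 2 * p.top

def ev (x : Fin p.top → Fin p.M) (v : ℕ) : ℕ := if h : v < p.top then (x ⟨v, h⟩ : ℕ) else 0

noncomputable def Fam : Finset (Fin p.top → Fin p.M) :=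
  univ.filter (fun x => (∀ v, ¬ p.isV v → p.ev x v = 0) ∧ p.InjB (fun v => (p.ev x v : ℤ)))
noncomputable def Fam1 : Finset (Fin p.top → Fin p.M) :=
  p.Fam.filter (fun x => ¬ p.Good (fun v => (p.ev x v : ℤ)))
noncomputable def Fam2 : Finset (Fin p.top → Fin p.M) :=
  p.Fam.filter (fun x => p.Good (fun v => (p.ev x v : ℤ)) ∧
    ¬ p.Affine (fun v => (p.ev x v : ℤ)))

theorem M_pos : 1 ≤ p.M := by
  have := p.x0_lt_top; unfold M; omega

theorem ev_lt (x : Fin p.top → Fin p.M) (v : ℕ) : p.ev x v < p.M := by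
  unfold ev
  split_ifs with h
  · exact (x ⟨v, h⟩).2
  · exact p.M_pos

theorem ev_ext {x y : Fin p.top → Fin p.M} (h : ∀ v, v < p.top → p.ev x v = p.ev y v) : x = y := by
  funext v
  have := h v v.2
  unfold ev at this
  rw [dif_pos v.2, dif_pos v.2] at this
  exact Fin.ext this

/-- roots of the first family -/
noncomputable def Rt1 : Finset ℕ := (range (2 * p.H + 2)).image p.r ∪ Ico p.k1 p.K

noncomputable def Rt2 : Finset ℕ :=
  ((({p.r 0, p.r 1, p.r 3} : Finset ℕ) ∪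
    (range (p.K - p.k1)).image (fun n => p.r (p.H0 + 2 * n + 2))) ∪
    (range (p.K - p.k1)).image (fun n => p.r (2 * p.H - 1 - (p.H0 + 2 * n + 1) + 1))) ∪
    Ico p.k1 p.K

theorem Rt1_card : p.Rt1.card ≤ 2 * p.H + 2 + p.K := by
  unfold Rt1
  refine (card_union_le _ _).trans ?_
  have h1 := card_image_le (s := range (2 * p.H + 2)) (f := p.r)
  rw [card_range] at h1
  rw [Nat.card_Ico]
  omega

theorem Rt2_card : p.Rt2.card ≤ 3 + 3 * p.K := by
  unfold Rt2
  have h0 : ({p.r 0, p.r 1, p.r 3} : Finset ℕ).card ≤ 3 := card_le_three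
  have h1 := card_image_le (s := range (p.K - p.k1)) (f := (fun n => p.r (p.H0 + 2 * n + 2)))
  have h2 := card_image_le (s := range (p.K - p.k1))
    (f := (fun n => p.r (2 * p.H - 1 - (p.H0 + 2 * n + 1) + 1)))
  rw [card_range] at h1 h2
  have h3 : (Ico p.k1 p.K).card = p.K - p.k1 := Nat.card_Ico _ _
  have h4 := card_union_le ((({p.r 0, p.r 1, p.r 3} : Finset ℕ) ∪
    (range (p.K - p.k1)).image (fun n => p.r (p.H0 + 2 * n + 2))) ∪
    (range (p.K - p.k1)).image (fun n => p.r (2 * p.H - 1 - (p.H0 + 2 * n + 1) + 1)))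
    (Ico p.k1 p.K)
  have h5 := card_union_le (({p.r 0, p.r 1, p.r 3} : Finset ℕ) ∪
    (range (p.K - p.k1)).image (fun n => p.r (p.H0 + 2 * n + 2)))
    ((range (p.K - p.k1)).image (fun n => p.r (2 * p.H - 1 - (p.H0 + 2 * n + 1) + 1)))
  have h6 := card_union_le ({p.r 0, p.r 1, p.r 3} : Finset ℕ)
    ((range (p.K - p.k1)).image (fun n => p.r (p.H0 + 2 * n + 2)))
  omega

theorem G_cases {l : ℕ} (hl : l < p.H) : p.G l = p.D ∨ p.G l = p.D + 1 ∨
    ∃ n, n < p.K - p.k1 ∧ l = p.H0 + 2 * n + 1 := by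
  have hH := p.H_eq
  unfold G
  split_ifs with h1 h2
  · omega
  · left; rfl
  · right; right
    exact ⟨(l - p.H0) / 2, by omega, by omega⟩

theorem g_cases (j : ℕ) : p.g j = p.D ∨ p.g j = p.D + 1 ∨
    ∃ n, n < p.K - p.k1 ∧ (j = p.H0 + 2 * n + 1 ∨ j = 2 * p.H - 1 - (p.H0 + 2 * n + 1)) := by
  unfold g
  split_ifs with h1 h2
  · rcases p.G_cases h1 with h | h | ⟨n, h, h'⟩
    · exact Or.inl h
    · exact Or.inr (Or.inl h)
    · exact Or.inr (Or.inr ⟨n, h, Or.inl h'⟩)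
  · rcases p.G_cases (l := 2 * p.H - 1 - j) (by omega) with h | h | ⟨n, h, h'⟩
    · exact Or.inl h
    · exact Or.inr (Or.inl h)
    · exact Or.inr (Or.inr ⟨n, h, Or.inr (by omega)⟩)
  · right; left; rfl

theorem det_root2 (F F' : ℕ → ℤ) (hG : p.Good F) (hG' : p.Good F')
    (h : ∀ v ∈ p.Rt2, F v = F' v) : ∀ j, j ≤ 2 * p.H + 1 → F (p.r j) = F' (p.r j) := by
  have hH := p.H_pos
  have h0 : F (p.r 0) = F' (p.r 0) := h _ (by simp [Rt2])
  have h1 : F (p.r 1) = F' (p.r 1) := h _ (by simp [Rt2])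
  have h3 : F (p.r 3) = F' (p.r 3) := h _ (by simp [Rt2])
  have e1 := hG.1 1 (by omega) p.g1
  have e1' := hG'.1 1 (by omega) p.g1
  simp only [Nat.reduceAdd] at e1 e1'
  have h2 : F (p.r 2) = F' (p.r 2) := by linarith
  intro j
  induction j with
  | zero => intro _; exact h0
  | succ j ih =>
    intro hj
    have ih := ih (by omega)
    rcases p.g_cases j with hg | hg | ⟨n, hn, hg⟩
    · have a := hG.1 j (by omega) hg
      have a' := hG'.1 j (by omega) hg
      linarith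
    · have a := hG.2 j (by omega) hg
      have a' := hG'.2 j (by omega) hg
      linarith
    · apply h
      unfold Rt2
      rcases hg with hg | hg
      · rw [mem_union, mem_union, mem_union]
        left; left; right
        rw [mem_image]
        exact ⟨n, mem_range.2 hn, by rw [hg]⟩
      · rw [mem_union, mem_union]
        left; right
        rw [mem_image]
        exact ⟨n, mem_range.2 hn, by rw [hg]⟩

theorem det_all {x y : Fin p.top → Fin p.M} (hx : x ∈ p.Fam) (hy : y ∈ p.Fam)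
    (hQ : p.QF (fun v => (p.ev x v : ℤ)) = p.QF (fun v => (p.ev y v : ℤ)))
    (hQv : ∀ v ∈ p.QF (fun v => (p.ev x v : ℤ)), p.ev x v = p.ev y v)
    (hr : ∀ j, j ≤ 2 * p.H + 1 → p.ev x (p.r j) = p.ev y (p.r j))
    (hZ : ∀ z ∈ Ico p.k1 p.K, p.ev x z = p.ev y z) : x = y := by
  have hst := p.QF_det (fun v => (p.ev x v : ℤ)) (fun v => (p.ev y v : ℤ)) hQ
    (fun j hj => by rw [hr j hj]) (fun v hv => by rw [hQv v hv])
  apply p.ev_ext
  intro v hv
  by_cases hV : p.isV v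
  · rcases hV with h | ⟨j, hj, rfl⟩ | h
    · exact hZ v (mem_Ico.2 h)
    · exact hr j (by omega)
    · rcases Nat.eq_or_lt_of_le h.1 with h0 | h0
      · rw [← h0]; exact hr (2 * p.H + 1) (le_refl _)
      · have := hst v (by unfold St; rw [mem_Ico]; exact ⟨h0, h.2⟩)
        exact_mod_cast this
  · rw [((mem_filter.1 hx).2.1 v hV), ((mem_filter.1 hy).2.1 v hV)]

theorem injB_r {F : ℕ → ℤ} (hF : p.InjB F) :
    ∀ i j, i ≤ 2 * p.H → j ≤ 2 * p.H → F (p.r i) = F (p.r j) → i = j := by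
  intro i j hi hj h
  exact p.r_inj (hF _ _ (p.bulk_r (by omega)) (p.bulk_r (by omega)) h)

theorem St_card : p.St.card ≤ 2 * p.D := by
  unfold St; rw [Nat.card_Ico]; omega

/-- the common factor -/
noncomputable def cf : ℝ := (1 + (p.M : ℝ) * (7 / 8) ^ ((p.m - 1) / 2)) ^ (2 * p.D)

theorem cf_ge : (1 + (p.M : ℝ) * (7 / 8) ^ ((p.m - 1) / 2)) ^ p.St.card ≤ p.cf := by
  unfold cf
  apply pow_le_pow_right₀ _ p.St_card
  have : (0 : ℝ) ≤ (p.M : ℝ) * (7 / 8) ^ ((p.m - 1) / 2) := by positivity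
  linarith

theorem cf_nonneg : 0 ≤ p.cf := by unfold cf; positivity

theorem sum1 : ∑ x ∈ p.Fam1, (3 / 4 : ℝ) ^ (p.bnum (fun v => (p.ev x v : ℤ))) ≤
    (7 / 8 : ℝ) ^ (p.D - 2 * p.K - 2) * (p.M : ℝ) ^ (2 * p.H + 2 + p.K) * p.cf := by
  have h := encode p.Fam1 p.ev p.M p.St p.Rt1 (fun x => p.QF (fun v => (p.ev x v : ℤ)))
    (fun x => p.bnum (fun v => (p.ev x v : ℤ))) (p.D - 2 * p.K - 2) ((p.m - 1) / 2) p.M_pos
    (fun x _ v => p.ev_lt x v) (fun x _ => filter_subset _ _)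
    (by
      intro x hx y hy hQ hv
      have hx' := (mem_filter.1 hx).1
      have hy' := (mem_filter.1 hy).1
      apply p.det_all hx' hy' hQ (fun v h => hv v (mem_union_right _ h))
      · intro j hj
        apply hv
        apply mem_union_left
        unfold Rt1
        exact mem_union_left _ (mem_image_of_mem _ (mem_range.2 (by omega)))
      · intro z hz
        apply hv
        apply mem_union_left
        unfold Rt1
        exact mem_union_right _ hz)
    (by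
      intro x hx
      have hx' := (mem_filter.1 (mem_filter.1 hx).1).2
      exact p.not_good _ hx'.2 (mem_filter.1 hx).2)
    (by
      intro x hx
      have hx' := (mem_filter.1 (mem_filter.1 hx).1).2
      exact p.QF_card _ (p.injB_r hx'.2))
  refine h.trans ?_
  apply mul_le_mul _ p.cf_ge (by positivity) (by positivity)
  apply mul_le_mul_of_nonneg_left _ (by positivity)
  exact pow_le_pow_right₀ (by exact_mod_cast p.M_pos) p.Rt1_card

theorem sum2 : ∑ x ∈ p.Fam2, (3 / 4 : ℝ) ^ (p.bnum (fun v => (p.ev x v : ℤ))) ≤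
    (7 / 8 : ℝ) ^ (p.m - 1) * (p.M : ℝ) ^ (3 + 3 * p.K) * p.cf := by
  have h := encode p.Fam2 p.ev p.M p.St p.Rt2 (fun x => p.QF (fun v => (p.ev x v : ℤ)))
    (fun x => p.bnum (fun v => (p.ev x v : ℤ))) (p.m - 1) ((p.m - 1) / 2) p.M_pos
    (fun x _ v => p.ev_lt x v) (fun x _ => filter_subset _ _)
    (by
      intro x hx y hy hQ hv
      have hx' := (mem_filter.1 hx).1
      have hy' := (mem_filter.1 hy).1
      have hxG := (mem_filter.1 hx).2.1
      have hyG := (mem_filter.1 hy).2.1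
      have hroot := p.det_root2 _ _ hxG hyG (fun v h => by
        rw [hv v (mem_union_left _ h)])
      apply p.det_all hx' hy' hQ (fun v h => hv v (mem_union_right _ h))
      · intro j hj
        have := hroot j hj
        exact_mod_cast this
      · intro z hz
        apply hv
        apply mem_union_left
        unfold Rt2
        exact mem_union_right _ hz)
    (by
      intro x hx
      have hx' := (mem_filter.1 (mem_filter.1 hx).1).2
      have hx2 := (mem_filter.1 hx).2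
      by_contra hlt
      exact hx2.2 (p.good_affine _ hx'.2 hx2.1 (not_le.1 hlt)))
    (by
      intro x hx
      have hx' := (mem_filter.1 (mem_filter.1 hx).1).2
      exact p.QF_card _ (p.injB_r hx'.2))
  refine h.trans ?_
  apply mul_le_mul _ p.cf_ge (by positivity) (by positivity)
  apply mul_le_mul_of_nonneg_left _ (by positivity)
  exact pow_le_pow_right₀ (by exact_mod_cast p.M_pos) p.Rt2_card

theorem valid_congr {C : Finset ℕ} (hC : C ⊆ p.Slots) {k : ℕ} {F F' : ℕ → ℕ}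
    (h : ∀ v, p.isV v → F v = F' v) (hV : Valid p (p.lo C) k F) : Valid p (p.lo C) k F' := by
  obtain ⟨h1, h2, h3, h4⟩ := hV
  have he : ∀ w, p.isE w → elb (p.lo C) F w = elb (p.lo C) F' w := by
    intro w hw
    have := p.lo_isV hC hw
    unfold elb
    rw [h _ this.1, h _ this.2]
  refine ⟨?_, ?_, ?_, ?_⟩
  · intro u v hu hv e
    rw [← h u hu, ← h v hv] at e
    exact h1 u v hu hv e
  · intro w w' hw hw' e
    rw [← he w hw, ← he w' hw'] at e
    exact h2 w w' hw hw' e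
  · intro w v hw hv e
    rw [← he w hw, ← h v hv] at e
    exact h3 w v hw hv e
  · intro n
    rw [h4 n]
    constructor
    · rintro (⟨v, hv, e⟩ | ⟨w, hw, e⟩)
      · left; exact ⟨v, hv, by rw [← h v hv]; exact e⟩
      · right; exact ⟨w, hw, by rw [← he w hw]; exact e⟩
    · rintro (⟨v, hv, e⟩ | ⟨w, hw, e⟩)
      · left; exact ⟨v, hv, by rw [h v hv]; exact e⟩
      · right; exact ⟨w, hw, by rw [he w hw]; exact e⟩

theorem valid_bound {C : Finset ℕ} (hC : C ⊆ p.Slots) {k : ℕ} {F : ℕ → ℕ}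
    (hV : Valid p (p.lo C) k F) : k < p.top ∧ ∀ v, p.isV v → F v < p.M := by
  obtain ⟨h1, h2, h3, h4⟩ := hV
  have hKE : p.isE p.K := p.isE_small (le_refl _) p.K_lt_D
  have hlo := p.lo_isV hC hKE
  have a1 := (h4 _).2 (Or.inl ⟨_, hlo.1, rfl⟩)
  have a2 := (h4 _).2 (Or.inl ⟨_, hlo.2, rfl⟩)
  have a3 := (h4 _).2 (Or.inr ⟨_, hKE, rfl⟩)
  have hN : p.N = p.top - p.k1 := rfl
  have hx := p.x0_lt_top
  have : p.k1 < p.top := by
    have := p.k1_le_K; have := p.K_lt_D; have : p.D < p.x0 := p.r_lt_x0 (Nat.zero_le _)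
    omega
  unfold elb at a3
  refine ⟨by omega, ?_⟩
  intro v hv
  have := (h4 _).2 (Or.inl ⟨v, hv, rfl⟩)
  unfold M
  omega

/-- the bad choices -/
noncomputable def Bad : Finset (Finset ℕ) :=
  p.Slots.powerset.filter (fun C => ∃ k F, 1 ≤ k ∧ k ∉ p.S ∧ Valid p (p.lo C) k F)

theorem bad_sub : p.Bad ⊆ (range p.top ×ˢ (p.Fam1 ∪ p.Fam2)).biUnion
    (fun q => p.Slots.powerset.filter (fun C => Valid p (p.lo C) q.1 (p.ev q.2))) := by
  intro C hC
  unfold Bad at hC
  rw [mem_filter, mem_powerset] at hC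
  obtain ⟨hC1, k, F, hk, hkS, hV⟩ := hC
  obtain ⟨b1, b2⟩ := p.valid_bound hC1 hV
  set x : Fin p.top → Fin p.M := fun v =>
    ⟨if p.isV (v : ℕ) then F v else 0, by
      split_ifs with h
      · exact b2 _ h
      · exact p.M_pos⟩ with hx
  have hev : ∀ v, p.ev x v = if p.isV v then F v else 0 := by
    intro v
    unfold ev
    split_ifs with h1 h2 h2
    · rw [hx]; simp only; rw [if_pos h2]
    · rw [hx]; simp only; rw [if_neg h2]
    · exact absurd (p.isV_lt_top h2) h1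
    · rfl
  have hV' : Valid p (p.lo C) k (p.ev x) := p.valid_congr hC1 (fun v hv => by
    rw [hev, if_pos hv]) hV
  have hInj : p.InjB (fun v => (p.ev x v : ℤ)) := by
    intro u v hu hv h
    have h' : (p.ev x u : ℤ) = p.ev x v := h
    exact hV'.1 u v (p.isV_of_bulk hu) (p.isV_of_bulk hv) (by exact_mod_cast h')
  have hFam : x ∈ p.Fam := by
    unfold Fam
    rw [mem_filter]
    exact ⟨mem_univ _, fun v hv => by rw [hev, if_neg hv], hInj⟩
  have hna : ¬ p.Affine (fun v => (p.ev x v : ℤ)) := fun h =>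
    hkS (p.affine_mem hC1 hk hV' h)
  rw [mem_biUnion]
  refine ⟨(k, x), ?_, ?_⟩
  · rw [mem_product, mem_range, mem_union]
    refine ⟨b1, ?_⟩
    by_cases hG : p.Good (fun v => (p.ev x v : ℤ))
    · right; exact mem_filter.2 ⟨hFam, hG, hna⟩
    · left; exact mem_filter.2 ⟨hFam, hG⟩
  · rw [mem_filter, mem_powerset]
    exact ⟨hC1, hV'⟩

theorem bad_count : (p.Bad.card : ℝ) ≤ 2 ^ p.Slots.card * (p.top *
    ((7 / 8 : ℝ) ^ (p.D - 2 * p.K - 2) * (p.M : ℝ) ^ (2 * p.H + 2 + p.K) * p.cf +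
     (7 / 8 : ℝ) ^ (p.m - 1) * (p.M : ℝ) ^ (3 + 3 * p.K) * p.cf)) := by
  have h1 : p.Bad.card ≤ ∑ q ∈ range p.top ×ˢ (p.Fam1 ∪ p.Fam2),
      (p.Slots.powerset.filter (fun C => Valid p (p.lo C) q.1 (p.ev q.2))).card :=
    (card_le_card p.bad_sub).trans card_biUnion_le
  have h2 : (p.Bad.card : ℝ) ≤ ∑ q ∈ range p.top ×ˢ (p.Fam1 ∪ p.Fam2),
      2 ^ p.Slots.card * (3 / 4 : ℝ) ^ (p.bnum (fun v => (p.ev q.2 v : ℤ))) := by
    have h1' : (p.Bad.card : ℝ) ≤ ∑ q ∈ range p.top ×ˢ (p.Fam1 ∪ p.Fam2),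
      ((p.Slots.powerset.filter (fun C => Valid p (p.lo C) q.1 (p.ev q.2))).card : ℝ) := by
      exact_mod_cast h1
    refine le_trans h1' ?_
    apply Finset.sum_le_sum
    intro q _
    exact p.valid_count _ _
  refine h2.trans ?_
  simp only [Finset.sum_product, Finset.sum_const, card_range, nsmul_eq_mul]
  rw [← Finset.mul_sum]
  rw [show (p.top : ℝ) * (2 ^ p.Slots.card * ∑ q ∈ p.Fam1 ∪ p.Fam2,
      (3 / 4 : ℝ) ^ (p.bnum (fun v => (p.ev q v : ℤ)))) =
      2 ^ p.Slots.card * (p.top * ∑ q ∈ p.Fam1 ∪ p.Fam2,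
      (3 / 4 : ℝ) ^ (p.bnum (fun v => (p.ev q v : ℤ)))) by ring]
  apply mul_le_mul_of_nonneg_left _ (by positivity)
  apply mul_le_mul_of_nonneg_left _ (by positivity)
  have h3 : ∑ q ∈ p.Fam1 ∪ p.Fam2, (3 / 4 : ℝ) ^ (p.bnum (fun v => (p.ev q v : ℤ))) ≤
      ∑ q ∈ p.Fam1, (3 / 4 : ℝ) ^ (p.bnum (fun v => (p.ev q v : ℤ))) +
      ∑ q ∈ p.Fam2, (3 / 4 : ℝ) ^ (p.bnum (fun v => (p.ev q v : ℤ))) := by
    rw [← Finset.sum_union_inter]
    have : (0 : ℝ) ≤ ∑ q ∈ p.Fam1 ∩ p.Fam2, (3 / 4 : ℝ) ^ (p.bnum (fun v => (p.ev q v : ℤ))) :=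
      Finset.sum_nonneg (fun _ _ => by positivity)
    linarith
  refine h3.trans (add_le_add p.sum1 p.sum2)

end Par

end Pool.Agent.Helper791.Seq
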